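import Pool.Agent.Helper45.FF.PR.F2
import Pool.Agent.Helper13.GC.C11
import Pool.Agent.Helper13.FF.Defs

/-!
# Project FF, PRO: sections of the geometrically pro-`ℓ` fundamental group: definitions and blocks
-/

universe u

set_option autoImplicit false
set_option linter.unusedSectionVars false

namespace Pool.Agent.GCL

open VC Polynomial Pool.Agent.LT Pool.Agent.SC Pool.Agent.Helper91.Sect Pool.Agent Pool.Agent.GC

noncomputable section

section KurL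

variable (ℓ : ℕ) (k K : Type u) [Field k] [Field K] [Algebra k K]

/-- `σ ∈ π₁(X)` is geometric: it is trivial on the constants. -/
def IsGeom {k K : Type u} [Field k] [Field K] [Algebra k K] (σ : Pi1 k K) : Prop :=
  ∀ c : Kur k K, (c : AlgebraicClosure K) ∈ kbar k K → σ c = c

/-- The maximal geometrically pro-`ℓ` subextension of `Kur`: the elements of `Kur` on which every
geometric automorphism has `ℓ`-power order. -/
def KurL : IntermediateField K (AlgebraicClosure K) where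
  carrier := {z | ∃ hz : z ∈ Kur k K, ∀ σ : Pi1 k K, IsGeom σ → ∃ j : ℕ,
    (σ ^ ℓ ^ j) ⟨z, hz⟩ = ⟨z, hz⟩}
  mul_mem' := by
    rintro a b ⟨ha, ha'⟩ ⟨hb, hb'⟩
    refine ⟨mul_mem ha hb, fun σ hσ => ?_⟩
    obtain ⟨i, hi⟩ := ha' σ hσ
    obtain ⟨j, hj⟩ := hb' σ hσ
    refine ⟨max i j, ?_⟩
    have h1 := fix_le (le_max_left i j) hi
    have h2 := fix_le (le_max_right i j) hj
    have h3 : (⟨a * b, mul_mem ha hb⟩ : Kur k K) = ⟨a, ha⟩ * ⟨b, hb⟩ := rfl
    rw [h3, map_mul, h1, h2]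
  add_mem' := by
    rintro a b ⟨ha, ha'⟩ ⟨hb, hb'⟩
    refine ⟨add_mem ha hb, fun σ hσ => ?_⟩
    obtain ⟨i, hi⟩ := ha' σ hσ
    obtain ⟨j, hj⟩ := hb' σ hσ
    refine ⟨max i j, ?_⟩
    have h1 := fix_le (le_max_left i j) hi
    have h2 := fix_le (le_max_right i j) hj
    have h3 : (⟨a + b, add_mem ha hb⟩ : Kur k K) = ⟨a, ha⟩ + ⟨b, hb⟩ := rfl
    rw [h3, map_add, h1, h2]
  algebraMap_mem' := fun c => ⟨(Kur k K).algebraMap_mem c, fun σ _ => ⟨0,
    (σ ^ ℓ ^ 0).commutes c⟩⟩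
  inv_mem' := by
    rintro a ⟨ha, ha'⟩
    refine ⟨inv_mem ha, fun σ hσ => ?_⟩
    obtain ⟨i, hi⟩ := ha' σ hσ
    refine ⟨i, ?_⟩
    have h3 : (⟨a⁻¹, inv_mem ha⟩ : Kur k K) = (⟨a, ha⟩ : Kur k K)⁻¹ := rfl
    rw [h3, map_inv₀, hi]

/-- A section of the geometrically pro-`ℓ` fundamental group `Gal(KurL / K)`. -/
structure ProSection where
  /-- the underlying homomorphism -/
  toHom : Gk k K →* (KurL ℓ k K ≃ₐ[K] KurL ℓ k K)
  continuous_toHom : Continuous toHom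
  isSection : ∀ (σ : Gk k K) (z : kbar k K) (w : KurL ℓ k K),
    (w : AlgebraicClosure K) = z → (toHom σ w : AlgebraicClosure K) = σ z

end KurL

section act

variable {k K : Type u} [Field k] [Field K] [Algebra k K]

/-- the elements of `K` in `PLf ℓ (MM k K)` -/
def toL (ℓ : ℕ) (c : K) : PLf ℓ (MM k K) :=
  ⟨toU (k := k) (K := K) c, le_PLf ℓ (MM k K) (toU_mem c)⟩

/-- `a` is a semilinear action, trivial on `K`, with open stabilizers. -/
structure ActK (ℓ : ℕ) (a : Gk k K →* (PLf ℓ (MM k K) ≃+* PLf ℓ (MM k K))) : Prop where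
  const : ∀ (γ : Gk k K) (c : kbar k K), a γ (algebraMap (kbar k K) (PLf ℓ (MM k K)) c) =
    algebraMap (kbar k K) (PLf ℓ (MM k K)) (γ c)
  base : ∀ (γ : Gk k K) (c : K), a γ (toL ℓ c) = toL ℓ c
  fin : ∀ z : PLf ℓ (MM k K), ∃ L : IntermediateField k (kbar k K), FiniteDimensional k L ∧
    ∀ σ ∈ L.fixingSubgroup, a σ z = z

/-- There are three places (with different traces on the compositum `LL` of `kbar` and `K₀`) at which
the value of `y` is not the value of an element of `LL`. -/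
def Br3 (ℓ : ℕ) (K₀ : Type u) [Field K₀] [Algebra K₀ K] (k : Type u) [Field k] [Algebra k K]
    [Algebra k K₀] (y : K) : Prop :=
  ∃ P : Fin 3 → ValuationSubring (PLf ℓ (MM k K)),
    (∀ i (c : kbar k K), algebraMap (kbar k K) (PLf ℓ (MM k K)) c ∈ P i) ∧
    (∀ i, ∀ u : PLf ℓ (MM k K), (u : UU k K) ∈ LL k K₀ K →
      (P i).valuation (toL ℓ y) ≠ (P i).valuation u) ∧
    ∀ i j, i ≠ j → ∃ u : PLf ℓ (MM k K), (u : UU k K) ∈ LL k K₀ K ∧ ¬ (u ∈ P i ↔ u ∈ P j)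

end act

end

end Pool.Agent.GCL

namespace Pool.Agent.FFS

open VC IntermediateField Polynomial Pool.Agent.SC Pool.Agent.Helper91.Sect
open Pool.Agent.L (L0 MM)
open Pool.Agent.LN (Geo Act GoodCurve)
open Pool.Agent.M (Moves OverPl inL0)
open Pool.Agent.ML (BPl GBr)
open Pool.Agent.PRG (RatG)
open Pool.Agent.GCL (KurL ProSection toL ActK Br3 PLf)

noncomputable section

/-- BLOCK LP (helper45): the local properties of actions on the maximal pro-`ℓ` extension, for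
`n = ℓ` prime. -/
def StmtLP : Prop :=
  ∀ (k₁ k K₀ K : Type) [Field k₁] [CharZero k₁] [Field k] [Field K₀] [Field K]
    [Algebra k₁ k] [Algebra k K₀] [Algebra k K] [Algebra K₀ K] [IsScalarTower k K₀ K]
    [Algebra k₁ K] [IsScalarTower k₁ k K]
    (ℓ : ℕ) (c : k) (g x z₀ : K₀) (f : k[X]) (S : Finset k) (y : K), ℓ.Prime →
    GC.CycE ℓ c g x z₀ f S y →
    ∀ a : Gk k K →* (PLf ℓ (LT.MM k K) ≃+* PLf ℓ (LT.MM k K)), ActK ℓ a →
    (∃ S : Finset k₁, Subfield.closure (S : Set k₁) = ⊤) →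
    ∀ t : k, FiniteDimensional (IntermediateField.adjoin k₁ {t}) k →
    ∀ W : ValuationSubring (kbar k K), W ≠ ⊤ → (∀ c : k₁, algebraMap k₁ (kbar k K) c ∈ W) →
    LT.GoodRed W f → (∀ c ∈ S, algebraMap k (kbar k K) c ∈ W) →
    (Br3 ℓ K₀ k y → ∀ (ϖ c₁ : k) (j : ℕ), algebraMap k (kbar k K) ϖ ∈ W.nonunits → ϖ ≠ 0 →
      (∀ z : k, z ≠ 0 → ∃ i : ℤ, W.valuation (algebraMap k (kbar k K) z) =
        W.valuation (algebraMap k (kbar k K) ϖ) ^ i) →
      c = ϖ ^ j * c₁ → ¬ ℓ ∣ j → algebraMap k (kbar k K) c₁ ∈ W →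
      algebraMap k (kbar k K) c₁ ∉ W.nonunits →
      ∃ P : ValuationSubring (PLf ℓ (LT.MM k K)),
        (∀ c : kbar k K, algebraMap (kbar k K) (PLf ℓ (LT.MM k K)) c ∈ P) ∧ P ≠ ⊤ ∧
        (∀ γ : Gk k K, InDecomp W γ → ∀ z, a γ z ∈ P ↔ z ∈ P) ∧
        ∀ u : PLf ℓ (LT.MM k K), (u : LT.UU k K) ∈ GC.LL k K₀ K →
          P.valuation (toL ℓ y) ≠ P.valuation u) ∧
    (algebraMap k (kbar k K) c ∈ W → algebraMap k (kbar k K) c ∉ W.nonunits →
      ∀ P : ValuationSubring (PLf ℓ (LT.MM k K)),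
        (∀ c : kbar k K, algebraMap (kbar k K) (PLf ℓ (LT.MM k K)) c ∈ P) → P ≠ ⊤ →
        P.valuation (toL ℓ (algebraMap K₀ K g)) ≠ 1 →
        ∀ τ : Gk k K, InInert W τ → ∀ z, a τ z ∈ P ↔ z ∈ P)

/-- `U'` is the maximal pro-`ℓ` subextension of `U / MM`. -/
structure IsProU (ℓ : ℕ) {K0 E U U' : Type} [Field K0] [Field E] [Field U] [Field U'] [Algebra E U]
    [Algebra K0 U] [Algebra E U'] [Algebra K0 U'] (r : U) (i : U' →+* U) (r' : U') : Prop where
  const : ∀ e : E, i (algebraMap E U' e) = algebraMap E U e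
  base : ∀ x : K0, i (algebraMap K0 U' x) = algebraMap K0 U x
  root : i r' = r
  range : ∀ z : U, z ∈ PLf ℓ (MM E K0 r) ↔ ∃ w : U', i w = z

/-- BLOCK LEVP: the theorem for the levels of `U'`. -/
def StmtLEVP : Prop :=
  ∀ (F k K0 E U U' : Type) [Field F] [Field k] [CharZero k] [Field K0] [Field E] [Field U]
    [Field U'] [Algebra F k] [Algebra k K0] [Algebra k E] [Algebra E U] [Algebra K0 U] [Algebra k U]
    [IsScalarTower k E U] [IsScalarTower k K0 U] [Algebra E U'] [Algebra K0 U'] [Algebra k U']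
    [IsScalarTower k E U'] [IsScalarTower k K0 U'] (ℓ : ℕ) (h : K0) (r : U) (i : U' →+* U)
    (r' : U'), ℓ.Prime → Geo k K0 E U ℓ h r → IsProU (K0 := K0) (E := E) ℓ r i r' →
    ∀ (S : Set k) (B : Set E) (c c' : k) (W₀ : ValuationSubring E), HypC F S B ℓ c W₀ →
    B.Finite → (∀ g : E ≃ₐ[k] E, ∀ b ∈ B, g b ∈ B) → TrivB k (U := U) ℓ h B →
    ∀ Φ : (E ≃ₐ[k] E) →* (U' ≃+* U'), Act (K0 := K0) ℓ r' c' Φ → LocA F K0 ℓ h S c W₀ Φ →
    ∃ (b : Place E (L0 E K0 (U := U'))) (P : ValuationSubring U'), BPl ℓ h b ∧ OverU b P ∧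
      (∀ g : E ≃ₐ[k] E, Moves (Φ g) _ b b) ∧ ∀ (z : U') (g : E ≃ₐ[k] E), Φ g z ∈ P ↔ z ∈ P

/-- The section `s` fixes a place of `KurL` above the place `P` of `K0`. -/
def AgrP {k K0 K : Type} [Field k] [Field K0] [Field K] [Algebra k K] [Algebra K0 K] {ℓ : ℕ}
    (s : ProSection ℓ k K) (P : ValuationSubring K0) : Prop :=
  ∃ Q : ValuationSubring (KurL ℓ k K),
    (∀ z : KurL ℓ k K, IsAlgebraic k (z : AlgebraicClosure K) → z ∈ Q) ∧
    (∀ x : K0, x ∈ P ↔ algebraMap K (KurL ℓ k K) (algebraMap K0 K x) ∈ Q) ∧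
    ∀ (g : Gk k K) (z : KurL ℓ k K), s.toHom g z ∈ Q ↔ z ∈ Q

/-- BLOCK LOCP (from `StmtLP`; compare `StmtLOC`). -/
def StmtLOCP : Prop :=
  ∀ (k₀ K₀ : Type) [Field k₀] [CharZero k₀] [Field K₀] [Algebra k₀ K₀], IsFunctionField k₀ K₀ →
    ∀ (ℓ : ℕ), ℓ.Prime → ∀ h₀ : K₀, h₀ ≠ 0 → ∃ (S : Finset k₀),
      ∀ (F k K0 : Type) [Field F] [Field k] [Field K0] [Algebra F k] [Algebra k K0]
        [Algebra k₀ k] [Algebra K₀ K0] [Algebra k₀ K0] [IsScalarTower k₀ k K0] [IsScalarTower k₀ K₀ K0],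
        (∃ S : Finset F, Subfield.closure (S : Set F) = ⊤) →
        (∃ t : k, FiniteDimensional (IntermediateField.adjoin F {t}) k) →
        IntermediateField.adjoin k (Set.range (algebraMap K₀ K0)) = ⊤ →
        (∃ y : K₀, Transcendental k (algebraMap K₀ K0 y)) →
        GoodCurve k ℓ (algebraMap K₀ K0 h₀) →
        ∃ (E U U' : Type) (_ : Field E) (_ : Field U) (_ : Field U') (_ : Algebra k E)
          (_ : Algebra E U) (_ : Algebra K0 U) (_ : Algebra k U) (_ : IsScalarTower k E U)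
          (_ : IsScalarTower k K0 U) (_ : Algebra E U') (_ : Algebra K0 U') (_ : Algebra k U')
          (_ : IsScalarTower k E U') (_ : IsScalarTower k K0 U')
          (r : U) (i : U' →+* U) (r' : U'), IsAlgClosure k E ∧
          Geo k K0 E U ℓ (algebraMap K₀ K0 h₀) r ∧ IsProU (K0 := K0) (E := E) ℓ r i r' ∧
          ∀ (c : k) (W₀ : ValuationSubring E) (S' : Set k) (B : Set E),
          (∀ a ∈ S, algebraMap k₀ k a ∈ S') → HypC F S' B ℓ c W₀ →
          ∀ (K : Type) [Field K] [Algebra k K] [Algebra K0 K] [IsScalarTower k K0 K]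
          (y : K), algebraMap k K c * y ^ ℓ = algebraMap K0 K (algebraMap K₀ K0 h₀) →
          IntermediateField.adjoin K0 {y} = ⊤ → ∀ s : ProSection ℓ k K,
          ∃ Φ : (E ≃ₐ[k] E) →* (U' ≃+* U'), Act (K0 := K0) ℓ r' c⁻¹ Φ ∧
            ((∃ b : Fin 3 → Place E (L0 E K0 (U := U')), Function.Injective b ∧
              ∀ j, BPl ℓ (algebraMap K₀ K0 h₀) (b j)) →
              LocA F K0 ℓ (algebraMap K₀ K0 h₀) S' c W₀ Φ) ∧
            ∀ (b : Place E (L0 E K0 (U := U'))) (P : ValuationSubring U'), OverU b P →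
            (∀ (z : U') (g : E ≃ₐ[k] E), Φ g z ∈ P ↔ z ∈ P) →
            ∀ P₀ : ValuationSubring K0, (∀ x : K0, x ∈ P₀ ↔ inL0 x ∈ b.ring) → AgrP s P₀

/-- BLOCK MAINP (from `StmtFS`, `StmtKP`, `StmtLOCP`, `StmtLEVP`). -/
def StmtMainP : Prop :=
  ∀ (F₀ k₀ K₀ : Type) [Field F₀] [CharZero F₀] [Field k₀] [Algebra F₀ k₀] [Field K₀] [Algebra k₀ K₀],
    (∃ S : Finset k₀, Subfield.closure (S : Set k₀) = ⊤) →
    (∃ t : k₀, FiniteDimensional (IntermediateField.adjoin F₀ {t}) k₀ ∧ Transcendental F₀ t) →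
    IsFunctionField k₀ K₀ →
    ∀ (m : ℕ) (w : Fin (m + 1) → k₀) (e : Fin 4 → Fin (m + 1)),
    LinearIndependent (algebraicClosure F₀ k₀) (fun i => w (e i)) →
    ∀ (ℓ : ℕ), ℓ.Prime → ∀ h₀ : K₀, h₀ ≠ 0 →
    ∃ Q : Polynomial (MvPolynomial (Fin (m + 1)) F₀), UT.NoRoot Q ∧
      ∀ (F k K0 : Type) [Field F] [Field k] [Field K0] [Algebra F₀ F] [Algebra F k] [Algebra k₀ k]
        [Algebra F₀ k] [IsScalarTower F₀ F k] [IsScalarTower F₀ k₀ k] [Algebra k K0]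
        [Algebra K₀ K0] [Algebra k₀ K0] [IsScalarTower k₀ k K0] [IsScalarTower k₀ K₀ K0],
        (∃ S : Finset F, Subfield.closure (S : Set F) = ⊤) →
        IntermediateField.adjoin F (Set.range (algebraMap k₀ k)) = ⊤ →
        (∀ {n : ℕ} {x : Fin n → k₀}, AlgebraicIndependent F₀ x →
          AlgebraicIndependent F (algebraMap k₀ k ∘ x)) →
        IntermediateField.adjoin k (Set.range (algebraMap K₀ K0)) = ⊤ →
        (∃ y : K₀, Transcendental k (algebraMap K₀ K0 y)) →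
        GoodCurve k ℓ (algebraMap K₀ K0 h₀) →
        (∃ b : Fin 3 → GBr k (AlgebraicClosure k) ℓ (algebraMap K₀ K0 h₀), Function.Injective b) →
        ∀ a : Fin (m + 1) → F, (∀ x : F, Polynomial.eval₂ (UT.aeR a) x Q ≠ 0) →
        ∀ (K : Type) [Field K] [Algebra k K] [Algebra K0 K] [IsScalarTower k K0 K] (y : K),
        algebraMap k K (∑ e, algebraMap F k (a e) * algebraMap k₀ k (w e)) * y ^ ℓ =
          algebraMap K0 K (algebraMap K₀ K0 h₀) → IntermediateField.adjoin K0 {y} = ⊤ →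
        ∀ s : ProSection ℓ k K, ∃ b : GBr k (AlgebraicClosure k) ℓ (algebraMap K₀ K0 h₀),
          RatG b ∧ AgrP s b.P

end

end Pool.Agent.FFS
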