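import Mathlib
import Pool.Agent.SC.G6
import Pool.Agent.SC.FU

/-!
# Project FF, PRO: pro-`ℓ` covers

`CovL ℓ M`: `U / M` is unramified, a pro-`ℓ` extension, and it contains the `ℓ ^ n`-th roots of its elements which
are locally `ℓ ^ n`-th powers.  The theorems of `SC/G5`, `SC/G6`, `SC/FU` for these covers.
-/

set_option autoImplicit false
set_option linter.unusedSectionVars false

universe u

namespace Pool.Agent.GCL

open VC Module Pool.Agent.SC

/-- elements which are locally `n`-th powers are `n`-th powers -/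
def RootP (E U : Type u) [Field E] [Field U] [Algebra E U] (n : ℕ) : Prop :=
  ∀ u : U, (∀ W : ValuationSubring U, (∀ c : E, algebraMap E U c ∈ W) →
      ∃ v : U, W.valuation u = W.valuation (v ^ n)) → ∃ w : U, w ^ n = u

/-- `U / M` is a maximal unramified pro-`ℓ` extension. -/
structure CovL (ℓ : ℕ) {E U : Type u} [Field E] [Field U] [Algebra E U] (M : IntermediateField E U) :
    Prop where
  ff : IsFunctionField E M
  gal : IsGalois M U
  unr : ∀ W : ValuationSubring U, (∀ c : E, algebraMap E U c ∈ W) → ∀ u : U,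
    ∃ m ∈ M, W.valuation u = W.valuation m
  root : ∀ n : ℕ, RootP E U (ℓ ^ n)
  pro : ∀ (σ : U ≃ₐ[M] U) (z : U), ∃ j : ℕ, (σ ^ (ℓ ^ j)) z = z

theorem CovL.root1 {ℓ : ℕ} {E U : Type u} [Field E] [Field U] [Algebra E U]
    {M : IntermediateField E U} (hc : CovL ℓ M) : RootP E U ℓ := by
  have h1 := hc.root 1
  rwa [pow_one] at h1

section one

variable {E U : Type u} [Field E] [Field U] [Algebra E U] [IsAlgClosed E]

/-- an element of `Y` all of whose orders are divisible by `n` is an `n`-th power in a cover -/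
theorem exists_root_of_dvdL
    {n : ℕ} (hroot : RootP E U n)
    {Y : IntermediateField E U} (hY : IsFunctionField E Y) {f : Y}
    (hf : f ≠ 0) (hord : ∀ P : Place E Y, (n : ℤ) ∣ ord P.ring f) : ∃ w : U, w ^ n = f := by
  refine hroot (f : U) ?_
  intro W hW
  by_cases h : ∃ x ∈ Y, x ∉ W
  · let P : Place E Y := resPlace W hW Y h
    obtain ⟨m, hm⟩ := hord P
    obtain ⟨π, hπ0, hπ⟩ := FF.exists_ord_eq hY P m
    refine ⟨(π : U), ?_⟩
    have h1 : W.valuation (algebraMap Y U f) = W.valuation (algebraMap Y U (π ^ n)) := by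
      refine (val_eq_iff_ord_eq (N := U) (R := W) hY P (fun z => Iff.rfl) hf
        (pow_ne_zero _ hπ0)).2 ?_
      rw [hm, FF.ord_pow hY P hπ0, hπ]
    rw [map_pow] at h1
    exact h1
  · push Not at h
    refine ⟨1, ?_⟩
    rw [one_pow, map_one]
    apply le_antisymm
    · rw [W.valuation_le_one_iff]
      exact h _ f.2
    · have h1 : W.valuation ((f : U)⁻¹) ≤ 1 := by
        rw [W.valuation_le_one_iff]
        exact h _ (Y.inv_mem f.2)
      have h2 : W.valuation (f : U) ≠ 0 :=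
        (Valuation.ne_zero_iff _).2 (fun h => hf (Subtype.ext h))
      rw [map_inv₀] at h1
      exact (inv_le_one₀ (zero_lt_iff.2 h2)).1 h1

variable [CharZero E]

omit [CharZero E] in
/-- If all the orders of `v ^ ℓ` are divisible by `ℓ`, there is a contradiction. -/
theorem false_of_dvdL
    {Y : IntermediateField E U} (hY : IsFunctionField E Y) (hdiv : PicDiv E Y)
    {ℓ : ℕ} (hroot : RootP E U (ℓ ^ 2)) (hℓ : ℓ.Prime) {g : U ≃ₐ[E] U} (hg : g ^ ℓ = 1) (hgY : ∀ y ∈ Y, g y = y)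
    {ζ : E} (hζ : IsPrimitiveRoot ζ ℓ) {v : U} (hv0 : v ≠ 0) (hv : g v = algebraMap E U ζ * v)
    {u : Y} (hu : (u : U) = v ^ ℓ) (hdvd : ∀ P : Place E Y, (ℓ : ℤ) ∣ ord P.ring u) : False := by
  have hℓ0 : (ℓ : ℤ) ≠ 0 := Nat.cast_ne_zero.2 hℓ.ne_zero
  have hu0 : u ≠ 0 := by
    rintro rfl
    exact pow_ne_zero ℓ hv0 hu.symm
  let D0 : Place E Y →₀ ℤ := (FF.dv hY u).mapRange (fun m => m / ℓ) (by simp)
  have hD0 : ∀ P, (ℓ : ℤ) * D0 P = ord P.ring u := by
    intro P
    rw [Finsupp.mapRange_apply, FF.dv_apply]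
    exact Int.mul_ediv_cancel' (hdvd P)
  have hD0' : ℓ • D0 = FF.dv hY u := by
    ext P
    rw [Finsupp.smul_apply, nsmul_eq_mul, hD0, FF.dv_apply]
  have hdeg : (D0.sum fun _ m => m) = 0 := by
    rw [← FF.deg_eq]
    have h1 := FF.deg_dv hY hu0
    rw [← hD0', map_nsmul, nsmul_eq_mul] at h1
    exact (mul_eq_zero.1 h1).resolve_left hℓ0
  obtain ⟨D', c, hc, hD'⟩ := hdiv ℓ hℓ.pos D0 hdeg
  have hcℓ : c ^ ℓ ≠ 0 := pow_ne_zero ℓ hc
  let u' : Y := u / c ^ ℓ
  have hu'0 : u' ≠ 0 := div_ne_zero hu0 hcℓ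
  have hordu' : ∀ P : Place E Y, ord P.ring u' = (ℓ ^ 2 : ℕ) * D' P := by
    intro P
    rw [FF.ord_div hY P hu0 hcℓ, FF.ord_pow hY P hc, ← hD0, hD']
    push_cast
    ring
  obtain ⟨w, hw⟩ := hroot (u' : U) (by
    intro W hW
    by_cases h : ∃ x ∈ Y, x ∉ W
    · let P : Place E Y := resPlace W hW Y h
      obtain ⟨π, hπ0, hπ⟩ := FF.exists_ord_eq hY P (D' P)
      refine ⟨(π : U), ?_⟩
      have h1 : W.valuation (algebraMap Y U u') = W.valuation (algebraMap Y U (π ^ ℓ ^ 2)) := by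
        refine (val_eq_iff_ord_eq (N := U) (R := W) hY P (fun z => Iff.rfl) hu'0
          (pow_ne_zero _ hπ0)).2 ?_
        rw [hordu', FF.ord_pow hY P hπ0, hπ]
      rw [map_pow] at h1
      exact h1
    · push Not at h
      refine ⟨1, ?_⟩
      rw [one_pow, map_one]
      apply le_antisymm
      · rw [W.valuation_le_one_iff]
        exact h _ u'.2
      · have h1 : W.valuation ((u' : U)⁻¹) ≤ 1 := by
          rw [W.valuation_le_one_iff]
          exact h _ (Y.inv_mem u'.2)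
        have h2 : W.valuation (u' : U) ≠ 0 :=
          (Valuation.ne_zero_iff _).2 (fun h => hu'0 (Subtype.ext h))
        rw [map_inv₀] at h1
        exact (inv_le_one₀ (zero_lt_iff.2 h2)).1 h1)
  have hcU : (c : U) ≠ 0 := fun h => hc (Subtype.ext h)
  have hu'U : (u' : U) = (v / c) ^ ℓ := by
    have h1 : (u' : U) = (u : U) / (c : U) ^ ℓ := rfl
    rw [h1, hu, div_pow]
  have hu'U0 : (u' : U) ≠ 0 := fun h => hu'0 (Subtype.ext h)
  have hw0 : w ≠ 0 := by
    rintro rfl
    rw [zero_pow (pow_pos hℓ.pos 2).ne'] at hw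
    exact hu'U0 hw.symm
  have hgc : g (c : U) = c := hgY _ c.2
  have hgu' : g (u' : U) = u' := hgY _ u'.2
  obtain ⟨θ, hθ⟩ : ∃ θ : E, algebraMap E U θ = g w / w := by
    refine exists_algebraMap_of_pow_eq_one (n := ℓ ^ 2) (pow_pos hℓ.pos 2) ?_
    rw [div_pow, ← map_pow, hw, hgu', div_self hu'U0]
  have hgw : g w = algebraMap E U θ * w := by
    rw [hθ, div_mul_cancel₀ _ hw0]
  have hvc0 : v / (c : U) ≠ 0 := div_ne_zero hv0 hcU
  obtain ⟨η, hη⟩ : ∃ η : E, algebraMap E U η = w ^ ℓ / (v / c) := by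
    refine exists_algebraMap_of_pow_eq_one (n := ℓ) hℓ.pos ?_
    rw [div_pow, ← pow_mul, ← sq, hw, hu'U, div_self (pow_ne_zero _ hvc0)]
  have hwℓ : w ^ ℓ = algebraMap E U η * (v / c) := by
    rw [hη, div_mul_cancel₀ _ hvc0]
  have h1 : g (w ^ ℓ) = algebraMap E U ζ * w ^ ℓ := by
    rw [hwℓ, map_mul, AlgEquiv.commutes, map_div₀, hv, hgc]
    ring
  have hθζ : θ ^ ℓ = ζ := by
    apply (algebraMap E U).injective
    rw [map_pow, hgw, mul_pow] at h1
    rw [map_pow]
    exact mul_right_cancel₀ (pow_ne_zero ℓ hw0) h1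
  have h2 : ∀ j : ℕ, (g ^ j) w = algebraMap E U (θ ^ j) * w := by
    intro j
    induction j with
    | zero => rw [pow_zero, pow_zero, map_one, one_mul]; rfl
    | succ j ih =>
      rw [pow_succ', AlgEquiv.mul_apply, ih, map_mul, AlgEquiv.commutes, hgw, pow_succ, map_mul]
      ring
  have h3 := h2 ℓ
  rw [hg, hθζ] at h3
  have h4 : algebraMap E U ζ = 1 := by
    have h5 : algebraMap E U ζ * w = 1 * w := by
      rw [one_mul]
      exact h3.symm
    exact mul_right_cancel₀ hw0 h5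
  have h6 : ζ = 1 := by
    apply (algebraMap E U).injective
    rw [h4, map_one]
  exact hζ.ne_one hℓ.one_lt h6

/-- **Every stable level on which `g` acts nontrivially has a fixed place.** -/
theorem exists_fixed_levelL
    (hdiv : ∀ N : IntermediateField E U, IsFunctionField E N → PicDiv E N)
    {ℓ : ℕ} (hroot : RootP E U (ℓ ^ 2)) (hℓ : ℓ.Prime) {g : U ≃ₐ[E] U} (hg : g ^ ℓ = 1) {N : IntermediateField E U}
    (hN : IsFunctionField E N) (hgN : ∀ x ∈ N, g x ∈ N) (hne : ∃ x ∈ N, g x ≠ x) :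
    ∃ P : Place E N, ∀ x : N, x ∈ P.ring → (⟨g x, hgN x x.2⟩ : N) ∈ P.ring := by
  have hcz : CharZero U := charZero_of_injective_algebraMap (algebraMap E U).injective
  obtain ⟨x₀, hx₀, hgx₀⟩ := hne
  obtain ⟨ζ, hζ, v, hvN, hv0, hv⟩ := exists_eigenvector hℓ hg hgN hx₀ hgx₀
  have hY := isFunctionField_fixedIn hgN hℓ.pos hg hN
  have huY : v ^ ℓ ∈ fixedIn g N := by
    refine ⟨pow_mem hvN ℓ, ?_⟩
    rw [map_pow, hv, mul_pow, ← map_pow, hζ.pow_eq_one, map_one, one_mul]
  by_contra hcon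
  refine false_of_dvdL hY (hdiv _ hY) hroot hℓ hg (fun y hy => hy.2) hζ hv0 hv
    (u := ⟨v ^ ℓ, huY⟩) rfl ?_
  intro P
  by_contra hnd
  let i1 : Algebra (fixedIn g N) N := (IntermediateField.inclusion (fixedIn_le g N)).toAlgebra
  have s1 : IsScalarTower E (fixedIn g N) N := IsScalarTower.of_algebraMap_eq (fun x => rfl)
  obtain ⟨Q, hQ⟩ := SC.exists_place_over (K := E) (N := N) P
  apply hcon
  refine ⟨Q, fun x hx => ?_⟩
  refine map_mem_of_not_dvd (Y := fixedIn g N) (R := Q.ring) Q.algebraMap_mem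
    (σ := resAut g hgN hℓ.pos hg) hℓ (resAut_pow g hgN hℓ.pos hg) ?_ hζ (v := ⟨v, hvN⟩)
    (fun h => hv0 (congrArg Subtype.val h)) (Subtype.ext hv) ?_ hx
  · intro z hz
    exact ⟨⟨z, z.2, congrArg Subtype.val hz⟩, rfl⟩
  · intro c hc
    have h1 : Q.ring.valuation (algebraMap (fixedIn g N) N ⟨v ^ ℓ, huY⟩) =
        Q.ring.valuation (algebraMap (fixedIn g N) N (c ^ ℓ)) := hc
    have hu0 : (⟨v ^ ℓ, huY⟩ : fixedIn g N) ≠ 0 := fun h =>
      pow_ne_zero ℓ hv0 (congrArg Subtype.val h)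
    have hc0 : c ^ ℓ ≠ 0 := by
      intro h
      rw [h, map_zero, map_zero, Valuation.zero_iff, map_eq_zero] at h1
      exact hu0 h1
    rw [val_eq_iff_ord_eq hY P hQ hu0 hc0] at h1
    apply hnd
    rw [h1, FF.ord_pow hY P (fun h => hc0 (by rw [h, zero_pow hℓ.ne_zero]))]
    exact dvd_mul_right _ _

/-- **G5.**  An automorphism of prime order fixes a place. -/
theorem exists_fixedL (M : IntermediateField E U) {ℓ : ℕ} (hc : CovL ℓ M)
    (hdiv : ∀ N : IntermediateField E U, IsFunctionField E N → PicDiv E N)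
    (hℓ : ℓ.Prime) (g : U ≃ₐ[E] U) (hgM : ∀ x, x ∈ M ↔ g x ∈ M) (hg : g ^ ℓ = 1)
    (hne : g ≠ 1) :
    ∃ W : ValuationSubring U, (∀ c : E, algebraMap E U c ∈ W) ∧ W ≠ ⊤ ∧
      ∀ z, g z ∈ W ↔ z ∈ W := by
  classical
  have hgal := hc.gal
  obtain ⟨x₀, hx₀⟩ : ∃ x, g x ≠ x := by
    by_contra hcon
    push Not at hcon
    exact hne (AlgEquiv.ext hcon)
  obtain ⟨ζ, hζ, v, -, hv0, hv⟩ := exists_eigenvector hℓ hg (N := ⊤) (fun x _ => trivial)
    (x := x₀) trivial hx₀
  have hlev : ∀ S : Finset U, ∃ A : Set U, (∀ c : E, algebraMap E U c ∈ A) ∧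
      (∀ x ∈ A, ∀ y ∈ A, x + y ∈ A) ∧ (∀ x ∈ A, ∀ y ∈ A, x * y ∈ A) ∧
      (∀ x ∈ S, x ∈ A ∨ x⁻¹ ∈ A) ∧ (∀ x ∈ A, g x ∈ A) ∧ ¬ (v ∈ A ∧ v⁻¹ ∈ A) := by
    intro S
    obtain ⟨N', hfin, -, hSN, hgN'⟩ := exists_level M g hgM hℓ.pos hg (insert x₀ (insert v S))
    let N : IntermediateField E U := N'.restrictScalars E
    have hN : IsFunctionField E N := isFunctionField_restrictScalars hc.ff N'
    have hgN : ∀ x ∈ N, g x ∈ N := hgN'
    have hx₀N : x₀ ∈ N := hSN _ (Finset.mem_insert_self _ _)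
    have hvN : v ∈ N := hSN _ (Finset.mem_insert_of_mem (Finset.mem_insert_self _ _))
    obtain ⟨P, hP⟩ := exists_fixed_levelL hdiv (hc.root 2) hℓ hg hN hgN ⟨x₀, hx₀N, hx₀⟩
    refine ⟨{x | ∃ h : x ∈ N, (⟨x, h⟩ : N) ∈ P.ring}, ?_, ?_, ?_, ?_, ?_, ?_⟩
    · intro c
      exact ⟨N.algebraMap_mem c, P.algebraMap_mem c⟩
    · rintro x ⟨hx, hx'⟩ y ⟨hy, hy'⟩
      exact ⟨add_mem hx hy, P.ring.add_mem _ _ hx' hy'⟩
    · rintro x ⟨hx, hx'⟩ y ⟨hy, hy'⟩
      exact ⟨mul_mem hx hy, P.ring.mul_mem _ _ hx' hy'⟩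
    · intro x hx
      have hxN : x ∈ N := hSN _ (Finset.mem_insert_of_mem (Finset.mem_insert_of_mem hx))
      rcases P.ring.mem_or_inv_mem (⟨x, hxN⟩ : N) with h | h
      · exact Or.inl ⟨hxN, h⟩
      · exact Or.inr ⟨inv_mem hxN, h⟩
    · rintro x ⟨hx, hx'⟩
      exact ⟨hgN x hx, hP _ hx'⟩
    · rintro ⟨⟨h1, h2⟩, ⟨h3, h4⟩⟩
      let σ := resAut g hgN hℓ.pos hg
      have hPσ : ∀ (j : ℕ) (x : N), x ∈ P.ring → (σ ^ j) x ∈ P.ring := by
        intro j
        induction j with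
        | zero => intro x hx; exact hx
        | succ j ih =>
          intro x hx
          rw [pow_succ', AlgEquiv.mul_apply]
          exact hP _ (ih x hx)
      have hinvσ : ∀ x : N, σ x ∈ P.ring → x ∈ P.ring := by
        intro x hx
        have h5 := hPσ (ℓ - 1) _ hx
        rw [← AlgEquiv.mul_apply, ← pow_succ, Nat.sub_add_cancel hℓ.pos,
          resAut_pow g hgN hℓ.pos hg] at h5
        exact h5
      refine not_unit_of_fixed (E := E) (R := P.ring) (σ := σ) (v := ⟨v, h1⟩) (ξ := ζ) ?_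
        P.algebraMap_mem ?_ ?_ (hζ.ne_one hℓ.one_lt) (Subtype.ext hv) h2 ?_
      · intro c x
        rw [map_add, AlgEquiv.commutes]
      · intro x hx
        exact FF.exists_residue hN P hx
      · intro x hx
        rw [ValuationSubring.mem_nonunits_iff_or] at hx ⊢
        rcases hx with rfl | hx
        · exact Or.inl (map_zero σ)
        · right
          intro h
          rw [← map_inv₀] at h
          exact hx (hinvσ _ h)
      · intro h
        rw [ValuationSubring.mem_nonunits_iff_or] at h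
        rcases h with h | h
        · exact hv0 (congrArg Subtype.val h)
        · exact h h4
  choose A hAE hAadd hAmul hAinv hAg hAv using hlev
  obtain ⟨W, f, hW⟩ := exists_limit A (fun S => by simpa using hAE S 0)
    (fun S => by simpa using hAE S 1) hAadd hAmul (fun S x hx => by
      have h1 := hAmul S _ (hAE S (-1)) x hx
      rwa [map_neg, map_one, neg_one_mul] at h1) hAinv
  have hWg : ∀ z, z ∈ W → g z ∈ W := by
    intro z hz
    rw [hW] at hz ⊢
    exact hz.mono fun S h => hAg S z h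
  have hWgj : ∀ (j : ℕ) (z : U), z ∈ W → (g ^ j) z ∈ W := by
    intro j
    induction j with
    | zero => intro z hz; exact hz
    | succ j ih =>
      intro z hz
      rw [pow_succ', AlgEquiv.mul_apply]
      exact hWg _ (ih z hz)
  refine ⟨W, fun c => ?_, ?_, fun z => ⟨fun hz => ?_, hWg z⟩⟩
  · rw [hW]
    exact Filter.Eventually.of_forall fun S => hAE S c
  · intro htop
    have h1 : v ∈ W := by rw [htop]; trivial
    have h2 : v⁻¹ ∈ W := by rw [htop]; trivial
    rw [hW] at h1 h2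
    obtain ⟨S, hS⟩ := (h1.and h2).exists
    exact hAv S hS
  · have h5 := hWgj (ℓ - 1) _ hz
    rw [← AlgEquiv.mul_apply, ← pow_succ, Nat.sub_add_cancel hℓ.pos, hg] at h5
    exact h5

/-- **Freeness.**  An automorphism of a cover over `M` that fixes a nontrivial valuation ring is
trivial. -/
theorem eq_one_of_fixL (M : IntermediateField E U) {ℓ : ℕ} (hc : CovL ℓ M) (σ : U ≃ₐ[M] U)
    {W : ValuationSubring U} (hW : ∀ c : E, algebraMap E U c ∈ W) (hW1 : W ≠ ⊤)
    (hσ : ∀ z, σ z ∈ W ↔ z ∈ W) : σ = 1 := by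
  classical
  have hgal := hc.gal
  have hσn : ∀ (i : ℕ) (z : U), z ∈ W.nonunits → (σ ^ i) z ∈ W.nonunits := by
    intro i
    induction i with
    | zero => intro z hz; exact hz
    | succ i ih =>
      intro z hz
      rw [pow_succ', AlgEquiv.mul_apply]
      have h1 := ih z hz
      rw [ValuationSubring.mem_nonunits_iff_or] at h1 ⊢
      rcases h1 with h | h
      · left; rw [h, map_zero]
      · right
        rwa [← map_inv₀, hσ]
  -- the residue of an element
  have hres : ∀ x : U, x ≠ 0 → ∃ m : M, ∃ a : E, (m : U) ≠ 0 ∧ a ≠ 0 ∧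
      x / (m : U) - algebraMap E U a ∈ W.nonunits := by
    intro x hx
    obtain ⟨m, hm, hxm⟩ := hc.unr W hW x
    have hm0 : m ≠ 0 := by
      rintro rfl
      rw [map_zero] at hxm
      exact hx ((Valuation.zero_iff _).1 hxm)
    have hy1 : W.valuation (x / m) = 1 := by
      rw [map_div₀, hxm, div_self ((Valuation.ne_zero_iff _).2 hm0)]
    let N' : IntermediateField M U := IntermediateField.adjoin M {x / m}
    have hfin : FiniteDimensional M N' :=
      IntermediateField.adjoin.finiteDimensional (Algebra.IsIntegral.isIntegral _)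
    let N : IntermediateField E U := N'.restrictScalars E
    have hN : IsFunctionField E N := isFunctionField_restrictScalars hc.ff N'
    have unr : ∀ W : ValuationSubring U, (∀ c : E, algebraMap E U c ∈ W) → ∀ u : U,
        ∃ m ∈ N, W.valuation u = W.valuation m := by
      intro W hW u
      obtain ⟨m, hm, h⟩ := hc.unr W hW u
      exact ⟨m, N'.algebraMap_mem ⟨m, hm⟩, h⟩
    let P := G6.traceP N unr W hW hW1
    have hyN : x / m ∈ N := IntermediateField.mem_adjoin_simple_self M (x / m)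
    have hyP : (⟨x / m, hyN⟩ : N) ∈ P.ring := by
      rw [G6.mem_traceP, ← W.valuation_le_one_iff]
      exact hy1.le
    obtain ⟨b, hb⟩ := FF.exists_residue hN P hyP
    have hb' := (G6.mem_traceP_nonunits N unr W hW hW1 _).1 hb
    refine ⟨⟨m, hm⟩, b, hm0, ?_, hb'⟩
    rintro rfl
    rw [map_zero, sub_zero, G6.mem_nonunits_iff_val] at hb'
    have h2 : W.valuation (x / m) < 1 := hb'
    rw [hy1] at h2
    exact lt_irrefl _ h2
  have hcz : CharZero U := charZero_of_injective_algebraMap (algebraMap E U).injective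
  -- a nonzero element has nonzero trace
  have htr : ∀ (n : ℕ) (x : U), 0 < n → x ≠ 0 → ∑ i ∈ Finset.range n, (σ ^ i) x ≠ 0 := by
    intro n x hn hx hsum
    obtain ⟨m, a, hm, ha, hε⟩ := hres x hx
    set ε := x / (m : U) - algebraMap E U a with hεdef
    have hxe : x = m * (algebraMap E U a + ε) := by
      rw [hεdef]
      field_simp
      ring
    have hσE : ∀ (i : ℕ) (c : E), (σ ^ i) (algebraMap E U c) = algebraMap E U c := by
      intro i c
      rw [IsScalarTower.algebraMap_apply E M U]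
      exact (σ ^ i).commutes _
    have hσM : ∀ (i : ℕ), (σ ^ i) (m : U) = m := fun i => (σ ^ i).commutes m
    have h1 : ∑ i ∈ Finset.range n, (σ ^ i) x
        = m * (algebraMap E U (n * a) + ∑ i ∈ Finset.range n, (σ ^ i) ε) := by
      rw [hxe]
      simp only [map_mul, map_add, hσE, hσM]
      rw [← Finset.mul_sum, Finset.sum_add_distrib, Finset.sum_const, Finset.card_range,
        nsmul_eq_mul, map_natCast]
    rw [h1] at hsum
    have h2 : algebraMap E U (n * a) = - ∑ i ∈ Finset.range n, (σ ^ i) ε := by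
      have := (mul_eq_zero.1 hsum).resolve_left hm
      exact eq_neg_of_add_eq_zero_left this
    have h3 : algebraMap E U (n * a) ∈ W.nonunits := by
      rw [h2, G6.mem_nonunits_iff_val, Valuation.map_neg]
      refine Valuation.map_sum_lt _ one_ne_zero fun i _ => ?_
      exact hσn i ε hε
    have h4 := G6.const_eq_zero hW h3
    rcases mul_eq_zero.1 h4 with h | h
    · rw [Nat.cast_eq_zero] at h
      omega
    · exact ha h
  apply AlgEquiv.ext
  intro x
  -- finite orbit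
  obtain ⟨n, hn, hnx⟩ : ∃ n : ℕ, 0 < n ∧ (σ ^ n) x = x := by
    have hint : IsIntegral M x := Algebra.IsIntegral.isIntegral _
    let f : ℕ → (minpoly M x).rootSet U := fun i => ⟨(σ ^ i) x, by
      rw [Polynomial.mem_rootSet]
      refine ⟨minpoly.ne_zero hint, ?_⟩
      have h2 : Polynomial.aeval ((σ ^ i) x) (minpoly M x) =
          (σ ^ i) (Polynomial.aeval x (minpoly M x)) :=
        Polynomial.aeval_algHom_apply (σ ^ i).toAlgHom _ _
      rw [h2, minpoly.aeval, map_zero]⟩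
    have hfin : Finite ((minpoly M x).rootSet U) := (Polynomial.rootSet_finite _ _).to_subtype
    obtain ⟨i, j, hij, hfij⟩ := Finite.exists_ne_map_eq_of_infinite f
    have h1 : (σ ^ i) x = (σ ^ j) x := congrArg Subtype.val hfij
    have key : ∀ i j : ℕ, i < j → (σ ^ i) x = (σ ^ j) x → ∃ n : ℕ, 0 < n ∧ (σ ^ n) x = x := by
      intro i j hij h
      refine ⟨j - i, by omega, ?_⟩
      apply (σ ^ i).injective
      rw [h, ← AlgEquiv.mul_apply, ← pow_add]
      congr 2
      omega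
    rcases lt_or_gt_of_ne hij with h | h
    · exact key i j h h1
    · exact key j i h h1.symm
  set y := ∑ i ∈ Finset.range n, (σ ^ i) x with hy
  have hσy : σ y = y := by
    rw [hy, map_sum]
    have h1 : ∀ i, σ ((σ ^ i) x) = (σ ^ (i + 1)) x := by
      intro i
      rw [pow_succ', AlgEquiv.mul_apply]
    simp only [h1]
    have h2 := Finset.sum_range_succ' (fun i => (σ ^ i) x) n
    have h3 := Finset.sum_range_succ (fun i => (σ ^ i) x) n
    rw [h3, hnx] at h2
    exact (add_right_cancel h2).symm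
  have hσiy : ∀ i : ℕ, (σ ^ i) y = y := by
    intro i
    induction i with
    | zero => rfl
    | succ i ih => rw [pow_succ', AlgEquiv.mul_apply, ih, hσy]
  have hx' : (n : U) * x - y = 0 := by
    by_contra hne
    apply htr n _ hn hne
    simp only [map_sub, map_mul, map_natCast, hσiy]
    rw [Finset.sum_sub_distrib, ← Finset.mul_sum, ← hy, Finset.sum_const, Finset.card_range,
      nsmul_eq_mul, sub_self]
  have hn0 : (n : U) ≠ 0 := Nat.cast_ne_zero.2 hn.ne'
  have h5 : (n : U) * x = y := sub_eq_zero.1 hx'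
  apply mul_left_cancel₀ hn0
  rw [AlgEquiv.one_apply, h5]
  have h6 := congrArg σ h5
  rw [map_mul, map_natCast, hσy] at h6
  exact h6

open VC Pool.Agent.SC.G6 in
/-- G6, step (a): three `g`-stable places which are different on a `g`-stable level `N` are
impossible. -/
theorem G6_coreL (N Y : IntermediateField E U) (hN : IsFunctionField E N) (hY : IsFunctionField E Y)
    (hdiv : PicDiv E Y)
    (unr : ∀ W : ValuationSubring U, (∀ c : E, algebraMap E U c ∈ W) → ∀ u : U,
      ∃ m ∈ N, W.valuation u = W.valuation m)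
    {ℓ : ℕ} (root : RootP E U ℓ) (hℓ : ℓ.Prime) (g : U ≃ₐ[E] U) (hg : g ^ ℓ = 1) (hgN : ∀ x, x ∈ N ↔ g x ∈ N)
    (hYg : ∀ x, x ∈ Y ↔ x ∈ N ∧ g x = x) (hne : ∃ x ∈ N, g x ≠ x)
    {W W' : ValuationSubring U} (hW : ∀ c : E, algebraMap E U c ∈ W) (hW1 : W ≠ ⊤)
    (hWg : ∀ z, g z ∈ W ↔ z ∈ W) (hW' : ∀ c : E, algebraMap E U c ∈ W') (hW1' : W' ≠ ⊤)
    (hWg' : ∀ z, g z ∈ W' ↔ z ∈ W') (P : Place E N)
    (hPg : ∀ x y : N, (y : U) = g x → (x ∈ P.ring ↔ y ∈ P.ring))
    (h12 : ¬ ∀ x : N, (x : U) ∈ W ↔ (x : U) ∈ W')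
    (h13 : ¬ ∀ x : N, (x : U) ∈ W ↔ x ∈ P.ring)
    (h23 : ¬ ∀ x : N, (x : U) ∈ W' ↔ x ∈ P.ring) : False := by
  classical
  have hYN : Y ≤ N := fun x hx => ((hYg x).1 hx).1
  set σ := G6.resAut N g hgN with hσdef
  have hσ : σ ^ ℓ = 1 := by
    ext x
    rw [hσdef, coe_resAut_pow, hg]; rfl
  have hσne : ∃ x, σ x ≠ x := by
    obtain ⟨x, hx, hx1⟩ := hne
    exact ⟨⟨x, hx⟩, fun h => hx1 (congrArg Subtype.val h)⟩
  set ι : Y →ₐ[E] N := IntermediateField.inclusion hYN with hιdef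
  have hιc : ∀ y : Y, ((ι y : N) : U) = y := fun y => rfl
  have hι : ∀ x : N, σ x = x ↔ ∃ y, ι y = x := by
    intro x
    constructor
    · intro h
      have h1 : (x : U) ∈ Y := (hYg x).2 ⟨x.2, congrArg Subtype.val h⟩
      exact ⟨⟨x, h1⟩, Subtype.ext rfl⟩
    · rintro ⟨y, rfl⟩
      apply Subtype.ext
      rw [hσdef, coe_resAut, hιc]
      exact ((hYg y).1 y.2).2
  have hgY : ∀ y : Y, g (y : U) = y := fun y => ((hYg y).1 y.2).2
  -- the three places
  set Q := traceP N unr W hW hW1 with hQdef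
  set Q' := traceP N unr W' hW' hW1' with hQ'def
  have hQ : ∀ x, σ x ∈ Q.ring ↔ x ∈ Q.ring := fun x => hWg x
  have hQ' : ∀ x, σ x ∈ Q'.ring ↔ x ∈ Q'.ring := fun x => hWg' x
  have hP : ∀ x, σ x ∈ P.ring ↔ x ∈ P.ring := fun x => (hPg x (σ x) rfl).symm
  set q := Place.comap hY hN ι Q with hq
  set q' := Place.comap hY hN ι Q' with hq'
  set q'' := Place.comap hY hN ι P with hq''
  have hqq' : q ≠ q' := by
    intro h
    have h1 := eq_of_comap_eq hN hY ι hι hℓ.pos hσ hQ' h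
    exact h12 fun x => by
      have : x ∈ Q.ring ↔ x ∈ Q'.ring := by rw [h1]
      exact this
  have hqq'' : q ≠ q'' := by
    intro h
    have h1 := eq_of_comap_eq hN hY ι hι hℓ.pos hσ hP h
    exact h13 fun x => by
      have : x ∈ Q.ring ↔ x ∈ P.ring := by rw [h1]
      exact this
  have hq'q'' : q' ≠ q'' := by
    intro h
    have h1 := eq_of_comap_eq hN hY ι hι hℓ.pos hσ hP h
    exact h23 fun x => by
      have : x ∈ Q'.ring ↔ x ∈ P.ring := by rw [h1]
      exact this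
  -- the function `c`
  obtain ⟨D', c, hc0, hD'⟩ := hdiv ℓ hℓ.pos (Finsupp.single q' 1 - Finsupp.single q'' 1) (by
    rw [← FF.deg_eq, map_sub, FF.deg_single, FF.deg_single, sub_self])
  have ordq : ord q.ring c = ℓ * (- D' q) := by
    have := hD' q
    rw [Finsupp.sub_apply, Finsupp.single_eq_of_ne hqq', Finsupp.single_eq_of_ne hqq''] at this
    linarith
  have ordq' : ord q'.ring c = 1 - ℓ * D' q' := by
    have := hD' q'
    rw [Finsupp.sub_apply, Finsupp.single_eq_same, Finsupp.single_eq_of_ne hq'q''] at this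
    linarith
  have ordp : ∀ p, p ≠ q' → p ≠ q'' → ord p.ring c = ℓ * (- D' p) := by
    intro p h1 h2
    have := hD' p
    rw [Finsupp.sub_apply, Finsupp.single_eq_of_ne h1, Finsupp.single_eq_of_ne h2] at this
    linarith
  have hιc0 : ι c ≠ 0 := fun h => hc0 (by simpa using h)
  have hdvd : ∀ P₀ : Place E N, (ℓ : ℤ) ∣ ord P₀.ring (ι c) := by
    intro P₀
    by_cases h1 : Place.comap hY hN ι P₀ = q'
    · have h2 := eq_of_comap_eq hN hY ι hι hℓ.pos hσ hQ' h1
      rw [h2, ram_eq hN hY ι hι hℓ hσ hσne hQ' hc0]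
      exact dvd_mul_right _ _
    by_cases h1' : Place.comap hY hN ι P₀ = q''
    · have h2 := eq_of_comap_eq hN hY ι hι hℓ.pos hσ hP h1'
      rw [h2, ram_eq hN hY ι hι hℓ hσ hσne hP hc0]
      exact dvd_mul_right _ _
    · obtain ⟨e, -, he⟩ := exists_ram hN hY ι P₀
      rw [he c hc0, ordp _ h1 h1']
      exact ⟨e * (- D' (Place.comap hY hN ι P₀)), by ring⟩
  have hcU0 : (c : U) ≠ 0 := fun h => hc0 (Subtype.ext h)
  -- the root
  obtain ⟨w, hw⟩ := root (c : U) (by
    intro W₀ hW₀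
    have hval : ∀ z : U, z ≠ 0 → z ∈ W₀ → z⁻¹ ∈ W₀ → W₀.valuation z = 1 := by
      intro z hz0 hz hz'
      rw [← W₀.valuation_le_one_iff] at hz hz'
      refine le_antisymm hz ?_
      rw [map_inv₀] at hz'
      have h1 : 0 < W₀.valuation z := zero_lt_iff.2 ((Valuation.ne_zero_iff _).2 hz0)
      exact (inv_le_one₀ h1).1 hz'
    by_cases hW₀1 : W₀ = ⊤
    · refine ⟨1, ?_⟩
      rw [one_pow, map_one]
      exact hval _ hcU0 (by rw [hW₀1]; exact ValuationSubring.mem_top _)
        (by rw [hW₀1]; exact ValuationSubring.mem_top _)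
    · set P₀ := traceP N unr W₀ hW₀ hW₀1 with hP₀
      obtain ⟨m, hm⟩ := hdvd P₀
      obtain ⟨v, hv0, hv⟩ := FF.exists_ord_eq hN P₀ m
      have hu0 : ι c / v ^ ℓ ≠ 0 := div_ne_zero hιc0 (pow_ne_zero _ hv0)
      have hu : ord P₀.ring (ι c / v ^ ℓ) = 0 := by
        rw [FF.ord_div hN P₀ hιc0 (pow_ne_zero _ hv0), FF.ord_pow hN P₀ hv0, hv, hm, sub_self]
      obtain ⟨h1, h2⟩ := mem_of_ord_zero hN hu0 hu
      have h3 := hval ((ι c / v ^ ℓ : N) : U) (fun h => hu0 (Subtype.ext h)) h1 h2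
      refine ⟨(v : U), ?_⟩
      have h4 : ((ι c / v ^ ℓ : N) : U) = (c : U) / (v : U) ^ ℓ := rfl
      have hv0' : (v : U) ≠ 0 := fun h => hv0 (Subtype.ext h)
      rw [h4, map_div₀] at h3
      exact (div_eq_one_iff_eq ((Valuation.ne_zero_iff _).2 (pow_ne_zero _ hv0'))).1 h3)
  have hw0 : w ≠ 0 := by
    rintro rfl
    rw [zero_pow hℓ.ne_zero] at hw
    exact hcU0 hw.symm
  -- `g w = ζ w`
  obtain ⟨ζ, hζ⟩ : ∃ ζ : E, algebraMap E U ζ = g w / w := by
    apply FF.exists_const_of_not_transcendental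
    rw [Transcendental, not_not]
    refine ⟨Polynomial.X ^ ℓ - 1, ?_, ?_⟩
    · exact (Polynomial.monic_X_pow_sub_C (1 : E) hℓ.ne_zero).ne_zero
    · rw [map_sub, map_pow, Polynomial.aeval_X, map_one, div_pow, ← map_pow, hw, hgY,
        div_self hcU0, sub_self]
  have hgw : g w = algebraMap E U ζ * w := by rw [hζ, div_mul_cancel₀ _ hw0]
  -- at `W`
  have hζ1 : ζ = 1 := by
    obtain ⟨π, hπ0, hπ⟩ := FF.exists_uniformizer hY q
    have hπU0 : (π : U) ≠ 0 := fun h => hπ0 (Subtype.ext h)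
    set m := - D' q with hm
    have hy0 : c / π ^ (ℓ * m) ≠ 0 := div_ne_zero hc0 (zpow_ne_zero _ hπ0)
    have hy : ord q.ring (c / π ^ (ℓ * m)) = 0 := by
      rw [FF.ord_div hY q hc0 (zpow_ne_zero _ hπ0), FF.ord_zpow hY q hπ0, hπ, ordq]; ring
    obtain ⟨h1, -⟩ := mem_of_ord_zero hY hy0 hy
    obtain ⟨b, hb⟩ := FF.exists_residue hY q h1
    have hb0 : b ≠ 0 := by
      rintro rfl
      rw [map_zero, sub_zero, ← FF.ord_pos_iff hY q hy0] at hb
      omega
    refine eq_one_of_root hW g hWg hℓ.pos (x := w / (π : U) ^ m) hb0 ?_ ?_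
    · have h2 : (w / (π : U) ^ m) ^ ℓ - algebraMap E U b =
          ((c / π ^ (ℓ * m) - algebraMap E Y b : Y) : U) := by
        rw [div_pow, hw, ← zpow_natCast, ← zpow_mul, mul_comm m (ℓ : ℤ)]
        rfl
      rw [h2]
      have h3 : ι (c / π ^ (ℓ * m) - algebraMap E Y b) ∈ Q.ring.nonunits :=
        (mem_nonunits_comap ι.toRingHom Q.ring _).1 hb
      exact (mem_traceP_nonunits N unr W hW hW1 _).1 h3
    · rw [map_div₀, map_zpow₀, hgY, hgw, mul_div_assoc]
  rw [hζ1, map_one, one_mul] at hgw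
  -- at `W'`
  obtain ⟨v, ξ, hv0, hv, hξ⟩ := G6.exists_kummer hN hℓ hσ hσne
  have hvU0 : (v : U) ≠ 0 := fun h => hv0 (Subtype.ext h)
  set j := ord Q'.ring v with hj
  set s := ord q'.ring c with hs
  have hy0 : (ι c) ^ j / v ^ (s * ℓ) ≠ 0 := div_ne_zero (zpow_ne_zero _ hιc0) (zpow_ne_zero _ hv0)
  have hy : ord Q'.ring ((ι c) ^ j / v ^ (s * ℓ)) = 0 := by
    rw [FF.ord_div hN Q' (zpow_ne_zero _ hιc0) (zpow_ne_zero _ hv0), FF.ord_zpow hN Q' hιc0,
      FF.ord_zpow hN Q' hv0, ram_eq hN hY ι hι hℓ hσ hσne hQ' hc0]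
    ring
  obtain ⟨h1, -⟩ := mem_of_ord_zero hN hy0 hy
  obtain ⟨b, hb⟩ := FF.exists_residue hN Q' h1
  have hb0 : b ≠ 0 := by
    rintro rfl
    rw [map_zero, sub_zero, ← FF.ord_pos_iff hN Q' hy0] at hb
    omega
  have hfin : (ξ ^ s)⁻¹ = 1 := by
    refine eq_one_of_root hW' g hWg' hℓ.pos (x := w ^ j / (v : U) ^ s) hb0 ?_ ?_
    · have h2 : (w ^ j / (v : U) ^ s) ^ ℓ - algebraMap E U b =
          (((ι c) ^ j / v ^ (s * ℓ) - algebraMap E N b : N) : U) := by
        rw [div_pow, ← zpow_natCast (w ^ j), ← zpow_mul, mul_comm j (ℓ : ℤ), zpow_mul,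
          zpow_natCast, hw, ← zpow_natCast ((v : U) ^ s), ← zpow_mul]
        rfl
      rw [h2]
      exact (mem_traceP_nonunits N unr W' hW' hW1' _).1 hb
    · have h3 : g (v : U) = algebraMap E U ξ * v := congrArg Subtype.val hv
      rw [map_div₀, map_zpow₀, map_zpow₀, hgw, h3, mul_zpow, map_inv₀, map_zpow₀]
      field_simp
  rw [inv_eq_one] at hfin
  have h4 : (ℓ : ℤ) ∣ s := (hξ.zpow_eq_one_iff_dvd s).1 hfin
  rw [ordq'] at h4
  have h5 : (ℓ : ℤ) ∣ 1 := by
    have := dvd_add h4 (dvd_mul_right (ℓ : ℤ) (D' q'))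
    rwa [sub_add_cancel] at this
  have h6 := Int.eq_one_of_dvd_one (by positivity) h5
  exact hℓ.one_lt.ne' (by exact_mod_cast h6)

/-- G6.  The fixed place is unique. -/
theorem fixed_uniqueL (M : IntermediateField E U) {ℓ : ℕ} (hc : CovL ℓ M)
    (hdiv : ∀ N : IntermediateField E U, IsFunctionField E N → PicDiv E N)
    (hℓ : ℓ.Prime) (g : U ≃ₐ[E] U) (hgM : ∀ x, x ∈ M ↔ g x ∈ M) (hg : g ^ ℓ = 1)
    (hne : ∃ x ∈ M, g x ≠ x)
    (h3 : ∃ P : Fin 3 → Place E M, Function.Injective P ∧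
      ∀ i, ∀ x y : M, (y : U) = g x → (x ∈ (P i).ring ↔ y ∈ (P i).ring))
    {W W' : ValuationSubring U} (hW : ∀ c : E, algebraMap E U c ∈ W) (hW1 : W ≠ ⊤)
    (hWg : ∀ z, g z ∈ W ↔ z ∈ W) (hW' : ∀ c : E, algebraMap E U c ∈ W') (hW1' : W' ≠ ⊤)
    (hWg' : ∀ z, g z ∈ W' ↔ z ∈ W') : W = W' := by
  classical
  have hgal := hc.gal
  by_contra hWW
  by_cases hM : ∀ x : M, algebraMap M U x ∈ W ↔ algebraMap M U x ∈ W'
  · obtain ⟨σ, hσ⟩ := exists_conj_val (L := M) (Ω := U) W W' hM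
    have hσ' : ∀ z, σ⁻¹ z ∈ W ↔ z ∈ W' := by
      intro z
      rw [← hσ, ← AlgEquiv.mul_apply, mul_inv_cancel, AlgEquiv.one_apply]
    -- `σ` commutes with `g`
    have hτ1 := eq_one_of_fixL M hc (σ⁻¹ * conjAut g hgM σ) hW hW1 (by
      intro z
      rw [AlgEquiv.mul_apply, hσ', conjAut_apply, hWg', hσ]
      rw [← hWg, AlgEquiv.apply_symm_apply])
    have hcomm : ∀ z, g (σ z) = σ (g z) := by
      intro z
      have h1 : conjAut g hgM σ = σ := by
        rw [inv_mul_eq_one] at hτ1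
        exact hτ1.symm
      have h2 := AlgEquiv.congr_fun h1 (g z)
      rwa [conjAut_apply, AlgEquiv.symm_apply_apply] at h2
    have hcomm' : ∀ z, σ⁻¹ (g z) = g (σ⁻¹ z) := by
      intro z
      apply σ.injective
      rw [← hcomm, ← AlgEquiv.mul_apply σ, mul_inv_cancel, ← AlgEquiv.mul_apply σ, mul_inv_cancel]
      rfl
    have hσ1 : σ ≠ 1 := by
      intro h
      apply hWW
      ext z
      have := hσ z
      rw [h] at this
      exact this.symm
    have hσ2 : σ * σ ≠ 1 := by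
      intro h
      have hord : ∀ z, σ (σ z) = z := fun z => by
        rw [← AlgEquiv.mul_apply, h]; rfl
      by_cases hℓ2 : ℓ = 2
      · subst hℓ2
        let s : U ≃ₐ[E] U := σ.restrictScalars E
        have hs : ∀ z, s z = σ z := fun z => rfl
        obtain ⟨W0, h1, h2, h4⟩ := exists_fixedL M hc hdiv Nat.prime_two s (fun x => by
            constructor
            · intro hx
              have : s x = x := σ.commutes ⟨x, hx⟩
              rwa [this]
            · intro hx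
              have h5 : σ (s x) = s x := σ.commutes ⟨s x, hx⟩
              have h6 : σ (s x) = x := by rw [hs, hord]
              rw [← h5, h6] at hx
              exact hx) (by
            apply AlgEquiv.ext
            intro z
            rw [sq, AlgEquiv.mul_apply, hs, hs, hord]; rfl) (by
            intro h5
            apply hσ1
            apply AlgEquiv.ext
            intro z
            have := AlgEquiv.congr_fun h5 z
            rw [hs] at this
            rw [this]; rfl)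
        exact hσ1 (eq_one_of_fixL M hc σ h1 h2 h4)
      · apply hσ1
        apply AlgEquiv.ext
        intro z
        obtain ⟨j, hj⟩ := hc.pro σ z
        have hodd : Odd (ℓ ^ j) := (hℓ.odd_of_ne_two hℓ2).pow
        obtain ⟨m, hm⟩ := hodd
        rw [hm, pow_add, pow_one, pow_mul, sq, h, one_pow, one_mul] at hj
        exact hj
    -- the third valuation ring
    let W'' : ValuationSubring U := W.comap ((σ⁻¹ * σ⁻¹ : U ≃ₐ[M] U) : U →+* U)
    have hm'' : ∀ z, z ∈ W'' ↔ σ⁻¹ (σ⁻¹ z) ∈ W := fun z => Iff.rfl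
    have hE'' : ∀ c : E, algebraMap E U c ∈ W'' := by
      intro c
      have h1 : ∀ c : E, σ⁻¹ (algebraMap E U c) = algebraMap E U c := by
        intro c
        rw [IsScalarTower.algebraMap_apply E M U]
        exact σ⁻¹.commutes _
      rw [hm'', h1, h1]
      exact hW c
    have hW1'' : W'' ≠ ⊤ := by
      intro h
      apply hW1
      rw [eq_top_iff]
      intro z _
      have h1 : σ (σ z) ∈ W'' := by rw [h]; trivial
      rw [hm''] at h1
      have h2 : ∀ z, σ⁻¹ (σ z) = z := by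
        intro z
        rw [← AlgEquiv.mul_apply, inv_mul_cancel]; rfl
      rwa [h2, h2] at h1
    have hWg'' : ∀ z, g z ∈ W'' ↔ z ∈ W'' := by
      intro z
      rw [hm'', hm'', hcomm', hcomm', hWg]
    have hne1 : W ≠ W'' := by
      intro h
      apply hσ2
      have h1 := eq_one_of_fixL M hc (σ⁻¹ * σ⁻¹) hW hW1 (by
        intro z
        rw [AlgEquiv.mul_apply, ← hm'', ← h])
      rw [← mul_inv_rev, inv_eq_one] at h1
      exact h1
    have hne2 : W' ≠ W'' := by
      intro h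
      apply hσ1
      have h1 := eq_one_of_fixL M hc σ⁻¹ hW hW1 (by
        intro z
        have h2 : σ z ∈ W' ↔ σ z ∈ W'' := by rw [h]
        have h4 : σ⁻¹ (σ z) = z := by
          rw [← AlgEquiv.mul_apply, inv_mul_cancel]; rfl
        rw [hσ, hm'', h4] at h2
        exact h2.symm)
      rw [inv_eq_one] at h1
      exact h1
    -- witnesses
    obtain ⟨x1, hx1⟩ : ∃ x, ¬ (x ∈ W ↔ x ∈ W') := by
      by_contra hcon
      push Not at hcon
      exact hWW (SetLike.ext hcon)
    obtain ⟨x2, hx2⟩ : ∃ x, ¬ (x ∈ W ↔ x ∈ W'') := by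
      by_contra hcon
      push Not at hcon
      exact hne1 (SetLike.ext hcon)
    obtain ⟨x3, hx3⟩ : ∃ x, ¬ (x ∈ W' ↔ x ∈ W'') := by
      by_contra hcon
      push Not at hcon
      exact hne2 (SetLike.ext hcon)
    obtain ⟨N', hfin, -, hSN, hgN'⟩ := exists_level M g hgM hℓ.pos hg {x1, x2, x3}
    let N : IntermediateField E U := N'.restrictScalars E
    have hN : IsFunctionField E N := isFunctionField_restrictScalars hc.ff N'
    have hgN : ∀ x ∈ N, g x ∈ N := hgN'
    have hgN2 : ∀ x, x ∈ N ↔ g x ∈ N := by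
      intro x
      refine ⟨hgN x, fun h => ?_⟩
      have h1 := map_pow_mem hgN h (ℓ - 1)
      rwa [← AlgEquiv.mul_apply, ← pow_succ, Nat.sub_add_cancel hℓ.pos, hg] at h1
    have hMN : M ≤ N := fun x hx => N'.algebraMap_mem ⟨x, hx⟩
    have unr : ∀ W : ValuationSubring U, (∀ c : E, algebraMap E U c ∈ W) → ∀ u : U,
        ∃ m ∈ N, W.valuation u = W.valuation m := by
      intro W hW u
      obtain ⟨m, hm, h⟩ := hc.unr W hW u
      exact ⟨m, hMN hm, h⟩
    have hx1N : x1 ∈ N := hSN _ (by simp)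
    have hx2N : x2 ∈ N := hSN _ (by simp)
    have hx3N : x3 ∈ N := hSN _ (by simp)
    obtain ⟨x0, hx0, hgx0⟩ := hne
    have hY := isFunctionField_fixedIn hgN hℓ.pos hg hN
    refine G6_coreL N (fixedIn g N) hN hY (hdiv _ hY) unr hc.root1 hℓ g hg hgN2
      (fun x => mem_fixedIn) ⟨x0, hMN hx0, hgx0⟩ hW hW1 hWg hW' hW1' hWg'
      (G6.traceP N unr W'' hE'' hW1'') ?_ ?_ ?_ ?_
    · intro x y hxy
      rw [G6.mem_traceP, G6.mem_traceP, hxy, hWg'']
    · intro h
      exact hx1 (h ⟨x1, hx1N⟩)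
    · intro h
      exact hx2 (h ⟨x2, hx2N⟩)
    · intro h
      exact hx3 (h ⟨x3, hx3N⟩)
  · obtain ⟨P, hPinj, hPg⟩ := h3
    have hgMM : ∀ x ∈ M, g x ∈ M := fun x hx => (hgM x).1 hx
    have hY := isFunctionField_fixedIn hgMM hℓ.pos hg hc.ff
    obtain ⟨i, hi1, hi2⟩ : ∃ i, (¬ ∀ x : M, (x : U) ∈ W ↔ x ∈ (P i).ring) ∧
        ¬ ∀ x : M, (x : U) ∈ W' ↔ x ∈ (P i).ring := by
      by_contra hcon
      push Not at hcon
      have hring : ∀ i j, (P i).ring = (P j).ring → i = j := by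
        intro i j h
        apply hPinj
        exact Place.ext h
      have key : ∀ i j, (∀ x : M, (x : U) ∈ W ↔ x ∈ (P i).ring) →
          (∀ x : M, (x : U) ∈ W ↔ x ∈ (P j).ring) → i = j := by
        intro i j h1 h2
        apply hring
        ext x
        rw [← h1, ← h2]
      have key' : ∀ i j, (∀ x : M, (x : U) ∈ W' ↔ x ∈ (P i).ring) →
          (∀ x : M, (x : U) ∈ W' ↔ x ∈ (P j).ring) → i = j := by
        intro i j h1 h2
        apply hring
        ext x
        rw [← h1, ← h2]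
      have h' : ∀ i, (∀ x : M, (x : U) ∈ W ↔ x ∈ (P i).ring) ∨
          (∀ x : M, (x : U) ∈ W' ↔ x ∈ (P i).ring) := by
        intro i
        by_cases h : ∀ x : M, (x : U) ∈ W ↔ x ∈ (P i).ring
        · exact Or.inl h
        · right
          push Not at h
          exact hcon i h
      have h01 : (0 : Fin 3) ≠ 1 := by decide
      have h02 : (0 : Fin 3) ≠ 2 := by decide
      have h12 : (1 : Fin 3) ≠ 2 := by decide
      rcases h' 0 with a | a <;> rcases h' 1 with b | b <;> rcases h' 2 with c | c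
      · exact h01 (key _ _ a b)
      · exact h01 (key _ _ a b)
      · exact h02 (key _ _ a c)
      · exact h12 (key' _ _ b c)
      · exact h12 (key _ _ b c)
      · exact h02 (key' _ _ a c)
      · exact h01 (key' _ _ a b)
      · exact h01 (key' _ _ a b)
    exact G6_coreL M (fixedIn g M) hc.ff hY (hdiv _ hY) hc.unr hc.root1 hℓ g hg hgM
      (fun x => mem_fixedIn) hne hW hW1 hWg hW' hW1' hWg' (P i) (hPg i) hM hi1 hi2


end one

end Pool.Agent.GCL
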