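import Pool.Agent.Helper45.FF.PR.A
import Pool.Agent.Helper13.LT.U7
import Pool.Agent.Helper13.LT.W2

/-!
# Project FF, PRO: divisibility and weights for pro-`ℓ` covers
-/

set_option autoImplicit false
set_option linter.unusedSectionVars false

universe u

namespace Pool.Agent.GCL

open VC Module Pool.Agent.SC Pool.Agent.LT

section one

variable {E U : Type u} [Field E] [IsAlgClosed E] [Field U] [Algebra E U]
  {M : IntermediateField E U}

theorem CovL.dvd_ord {ℓ : ℕ} (hc : CovL ℓ M) {N : IntermediateField E U} (hMN : M ≤ N)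
    (hN : IsFunctionField E N) {g : N} (hg0 : g ≠ 0) {w : U} {n : ℕ} (hg : w ^ n = g)
    (P : Place E N) : (n : ℤ) ∣ ord P.ring g := by
  obtain ⟨B, hB⟩ := exists_comap_eq (algebraMap N U) P.ring
  have hE : ∀ c : E, algebraMap E U c ∈ B := by
    intro c
    rw [IsScalarTower.algebraMap_apply E N U]
    exact (hB _).2 (P.algebraMap_mem c)
  obtain ⟨m, hm, hval⟩ := hc.unr B hE w
  by_cases hn : n = 0
  · subst hn
    rw [pow_zero] at hg
    have h1 : g = 1 := by
      apply Subtype.ext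
      rw [← hg]; rfl
    rw [h1, FF.ord_one hN P]
    simp
  have hw0 : w ≠ 0 := by
    rintro rfl
    rw [zero_pow hn] at hg
    exact hg0 (Subtype.ext hg.symm)
  have hm0 : m ≠ 0 := by
    rintro rfl
    rw [map_zero] at hval
    exact hw0 (by simpa using hval)
  let m' : N := ⟨m, hMN hm⟩
  have hm'0 : m' ≠ 0 := fun h => hm0 (congrArg Subtype.val h)
  have h1 : B.valuation ((g / m' ^ n : N) : U) = 1 := by
    have : ((g / m' ^ n : N) : U) = w ^ n / m ^ n := by
      rw [hg]; rfl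
    rw [this, map_div₀, map_pow, map_pow, hval]
    apply div_self
    apply pow_ne_zero
    simpa using hm0
  have h2 := ord_zero_of_val_unit hN P hB (div_ne_zero hg0 (pow_ne_zero n hm'0)) h1
  rw [FF.ord_div hN P hg0 (pow_ne_zero n hm'0), FF.ord_pow hN P hm'0] at h2
  exact ⟨ord P.ring m', by linarith⟩

/-- An automorphism over `M` which fixes a place of `U` is trivial (`U / M` is unramified). -/
theorem eq_one_of_fixes_placeL [CharZero E] {ℓ : ℕ} (hc : CovL ℓ M) (g : U ≃ₐ[E] U)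
    (hg : ∀ m ∈ M, g m = m) {P : ValuationSubring U} (hP : ∀ c : E, algebraMap E U c ∈ P)
    (hP1 : P ≠ ⊤) (hgP : ∀ z, g z ∈ P ↔ z ∈ P) : g = 1 := by
  let σ : U ≃ₐ[M] U := AlgEquiv.ofRingEquiv (f := (g : U ≃+* U)) (fun m => hg m m.2)
  have h := eq_one_of_fixL M hc σ hP hP1 hgP
  ext z
  exact AlgEquiv.congr_fun h z

end one

/-- In a maximal unramified extension: if `w ^ a` is in the level `N` then `w` is, up to an element
of `N`, a `b`-th power. -/
theorem div_coverL {K U : Type u} [Field K] [IsAlgClosed K] [CharZero K] [Field U] [Algebra K U]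
    {M : IntermediateField K U} {ℓ : ℕ} (hℓ : 0 < ℓ) (hc : CovL ℓ M) {N : IntermediateField K U}
    (hMN : M ≤ N) (hN : IsFunctionField K N) {w : U} {i j : ℕ} (hw0 : w ≠ 0)
    (hw : w ^ (ℓ ^ i) ∈ N) : ∃ w' : U, w' ≠ 0 ∧ w' ^ (ℓ ^ j) / w ∈ N := by
  classical
  obtain ⟨a, hadef⟩ : ∃ a, a = ℓ ^ i := ⟨_, rfl⟩
  obtain ⟨b, hbdef⟩ : ∃ b, b = ℓ ^ j := ⟨_, rfl⟩
  have ha : 0 < a := by rw [hadef]; exact pow_pos hℓ _
  have hb : 0 < b := by rw [hbdef]; exact pow_pos hℓ _
  rw [← hadef] at hw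
  rw [← hbdef]
  set f : N := ⟨w ^ a, hw⟩ with hf
  have hf0 : f ≠ 0 := by
    intro h0
    exact pow_ne_zero a hw0 (congrArg Subtype.val h0)
  have hdvd : ∀ P : Place K N, (a : ℤ) ∣ ord P.ring f := fun P =>
    hc.dvd_ord hMN hN hf0 rfl P
  let D : Place K N →₀ ℤ := (FF.dv hN f).mapRange (fun m => m / a) (by simp)
  have hD : ∀ P, (a : ℤ) * D P = ord P.ring f := by
    intro P
    change (a : ℤ) * ((FF.dv hN f P) / a) = _
    rw [FF.dv_apply]
    exact Int.mul_ediv_cancel' (hdvd P)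
  have hdeg : (D.sum fun _ m => m) = 0 := by
    rw [← FF.deg_eq]
    have h1 : (a : ℤ) • D = FF.dv hN f := by
      ext P
      rw [Finsupp.smul_apply, smul_eq_mul, hD P, FF.dv_apply]
    have h2 := FF.deg_dv hN hf0
    rw [← h1, map_zsmul, smul_eq_mul] at h2
    have ha' : (a : ℤ) ≠ 0 := by exact_mod_cast ha.ne'
    exact (mul_eq_zero.mp h2).resolve_left ha'
  obtain ⟨D', c, hc0, hD'⟩ := FF.picDiv hN b hb D hdeg
  have hord : ∀ P : Place K N, ((a * b : ℕ) : ℤ) ∣ ord P.ring (f / c ^ a) := by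
    intro P
    refine ⟨D' P, ?_⟩
    rw [FF.ord_div hN P hf0 (pow_ne_zero a hc0), FF.ord_pow hN P hc0, ← hD P, hD' P]
    push_cast
    ring
  have hroot : RootP K U (a * b) := by
    rw [hadef, hbdef, ← pow_add]
    exact hc.root _
  obtain ⟨v, hv⟩ := exists_root_of_dvdL hroot hN (div_ne_zero hf0 (pow_ne_zero a hc0)) hord
  have hcU : (c : U) ≠ 0 := fun h0 => hc0 (Subtype.ext h0)
  have hv' : (v ^ b * c / w) ^ a = 1 := by
    have h1 : v ^ (a * b) = w ^ a / (c : U) ^ a := hv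
    rw [div_pow, mul_pow, ← pow_mul, mul_comm b a, h1,
      div_mul_cancel₀ _ (pow_ne_zero a hcU), div_self (pow_ne_zero a hw0)]
  obtain ⟨ζ, hζ, hζ'⟩ := U7.exists_root_of_unity (K := K) ha hv'
  have hζ0 : ζ ≠ 0 := by
    rintro rfl
    rw [zero_pow ha.ne'] at hζ
    exact zero_ne_one hζ
  obtain ⟨ξ, hξ⟩ := IsAlgClosed.exists_pow_nat_eq (ζ⁻¹) hb
  have hv0 : v ≠ 0 := by
    rintro rfl
    rw [zero_pow hb.ne', zero_mul, zero_div, zero_pow ha.ne'] at hv'
    exact zero_ne_one hv'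
  have hξ0 : ξ ≠ 0 := by
    rintro rfl
    rw [zero_pow hb.ne'] at hξ
    exact inv_ne_zero hζ0 hξ.symm
  refine ⟨v * algebraMap K U ξ, mul_ne_zero hv0 ((_root_.map_ne_zero _).mpr hξ0), ?_⟩
  have h2 : (v * algebraMap K U ξ) ^ b / w = (c⁻¹ : N) := by
    rw [mul_pow, ← map_pow, hξ, map_inv₀, hζ', IntermediateField.coe_inv]
    have : v ^ b ≠ 0 := pow_ne_zero b hv0
    field_simp
  rw [h2]
  exact Subtype.mem _

/-- the residue field of a pro-`ℓ` cover -/
structure RCoverL (ℓ : ℕ) {E R : Type u} [Field E] [Field R] [Algebra E R]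
    (M' : IntermediateField E R) : Prop where
  ff : IsFunctionField E M'
  gal : IsGalois M' R
  free : ∀ (ρ : R ≃ₐ[M'] R) (Q : ValuationSubring R), (∀ e : E, algebraMap E R e ∈ Q) → Q ≠ ⊤ →
    (∀ r, ρ r ∈ Q ↔ r ∈ Q) → ρ = 1
  div : ∀ N : IntermediateField E R, M' ≤ N → IsFunctionField E N → ∀ (w : R) (i j : ℕ),
    w ≠ 0 → w ^ (ℓ ^ i) ∈ N → ∃ w' : R, w' ≠ 0 ∧ w' ^ (ℓ ^ j) / w ∈ N
  pro : ∀ (σ : R ≃ₐ[M'] R) (z : R), ∃ j : ℕ, (σ ^ (ℓ ^ j)) z = z

/-- An automorphism (of finite order on each element) which is not the identity moves an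
element some prime power of which is fixed. -/
theorem exists_kummerL {E Ω : Type u} [Field E] [IsAlgClosed E] [CharZero E] [Field Ω] [Algebra E Ω]
    {α : Ω ≃+* Ω} (hαE : ∀ c : E, α (algebraMap E Ω c) = algebraMap E Ω c) {z : Ω} (hz : α z ≠ z)
    {ℓ : ℕ} (hℓ : ℓ.Prime)
    (hfin : ∃ j : ℕ, (α ^ (ℓ ^ j)) z = z) :
    ∃ w : Ω, α w ≠ w ∧ α (w ^ ℓ) = w ^ ℓ := by
  obtain ⟨j, hmz⟩ := hfin
  obtain ⟨m, hmdef⟩ : ∃ m, m = ℓ ^ j := ⟨_, rfl⟩
  have hm : 0 < m := by rw [hmdef]; exact pow_pos hℓ.pos _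
  rw [← hmdef] at hmz
  have hcΩ : CharZero Ω := charZero_of_injective_algebraMap (algebraMap E Ω).injective
  have : NeZero ((m : ℕ) : E) := ⟨by exact_mod_cast hm.ne'⟩
  obtain ⟨η, hη⟩ := HasEnoughRootsOfUnity.exists_primitiveRoot E m
  set e : Ω := algebraMap E Ω η with he
  have he' : IsPrimitiveRoot e m := hη.map_of_injective (algebraMap E Ω).injective
  have he0 : e ≠ 0 := he'.ne_zero hm.ne'
  have hαe : α e = e := hαE η
  -- eigenvectors
  let u : ℕ → Ω := fun i => ∑ r ∈ Finset.range m, e ^ (i * r) * (α ^ r) z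
  have hu : ∀ i, e ^ i * α (u i) = u i := by
    intro i
    have h1 : e ^ i * α (u i) = ∑ r ∈ Finset.range m, e ^ (i * (r + 1)) * (α ^ (r + 1)) z := by
      simp only [u, map_sum, Finset.mul_sum]
      refine Finset.sum_congr rfl fun r _ => ?_
      rw [map_mul, map_pow, hαe, pow_succ' α]
      change _ = _ * α ((α ^ r) z)
      ring
    have h2 := Finset.sum_range_succ' (fun r => e ^ (i * r) * (α ^ r) z) m
    rw [Finset.sum_range_succ] at h2
    have h3 : e ^ (i * m) * (α ^ m) z = e ^ (i * 0) * (α ^ 0) z := by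
      rw [hmz, mul_comm i m, pow_mul, he'.pow_eq_one, one_pow, mul_zero, pow_zero, pow_zero]
      rfl
    rw [h3] at h2
    rw [h1]
    exact (add_right_cancel h2).symm
  have hsum : ∑ i ∈ Finset.range m, u i = m * z := by
    simp only [u]
    rw [Finset.sum_comm]
    rw [Finset.sum_eq_single 0]
    · simp
    · intro r hr hr0
      rw [← Finset.sum_mul]
      have h1 : ∑ i ∈ Finset.range m, e ^ (i * r) = 0 := by
        have h2 : e ^ r ≠ 1 := by
          intro h3
          have := (he'.pow_eq_one_iff_dvd r).1 h3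
          have h4 := Nat.le_of_dvd (Nat.pos_of_ne_zero hr0) this
          exact absurd (Finset.mem_range.1 hr) (by omega)
        have h3 : (∑ i ∈ Finset.range m, (e ^ r) ^ i) * (e ^ r - 1) = 0 := by
          rw [geom_sum_mul, ← pow_mul, mul_comm r m, pow_mul, he'.pow_eq_one, one_pow, sub_self]
        rcases mul_eq_zero.1 h3 with h4 | h4
        · rw [← h4]
          refine Finset.sum_congr rfl fun i _ => ?_
          rw [← pow_mul, mul_comm]
        · exact absurd (sub_eq_zero.1 h4) h2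
      rw [h1, zero_mul]
    · intro h
      exact absurd (Finset.mem_range.2 hm) h
  obtain ⟨i, hi⟩ : ∃ i, α (u i) ≠ u i := by
    by_contra hcon
    push Not at hcon
    have h1 : α (m * z) = m * z := by
      rw [← hsum, map_sum]
      exact Finset.sum_congr rfl fun i _ => hcon i
    rw [map_mul, map_natCast] at h1
    exact hz (mul_left_cancel₀ (by exact_mod_cast hm.ne') h1)
  have hpow : ∃ i' : ℕ, α (u i ^ (ℓ ^ i')) = u i ^ (ℓ ^ i') := by
    refine ⟨j, ?_⟩
    rw [← hmdef]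
    have h1 := congrArg (fun x => x ^ m) (hu i)
    simp only [mul_pow] at h1
    rw [← pow_mul, mul_comm i m, pow_mul, he'.pow_eq_one, one_pow, one_mul] at h1
    rw [map_pow, h1]
  classical
  have hd := Nat.find_spec hpow
  have hmin := fun a (ha : a < Nat.find hpow) => Nat.find_min hpow ha
  generalize Nat.find hpow = d at hd hmin
  obtain rfl | ⟨d, rfl⟩ : d = 0 ∨ ∃ d', d = d' + 1 := by
    rcases d with _ | d
    · exact Or.inl rfl
    · exact Or.inr ⟨d, rfl⟩
  · rw [pow_zero, pow_one] at hd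
    exact absurd hd hi
  · refine ⟨u i ^ (ℓ ^ d), hmin d (Nat.lt_succ_self d), ?_⟩
    rw [← pow_mul, ← pow_succ]
    exact hd

/-- If `w ^ n` is in the level `N` then all its orders are divisible by `n`. -/
theorem RCoverL.dvd_ord {ℓ : ℕ} {E R : Type u} [Field E] [IsAlgClosed E] [CharZero E] [Field R]
    [Algebra E R] {M' : IntermediateField E R} (hc : RCoverL ℓ M') {N : IntermediateField E R}
    (hMN : M' ≤ N) (hN : IsFunctionField E N) {w : R} {n : ℕ} (hn : 0 < n) {f : N} (hf : f ≠ 0)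
    (hw : w ^ n = f) (P : Place E N) : (n : ℤ) ∣ ord P.ring f := by
  obtain ⟨B, hB⟩ := exists_comap_eq (algebraMap N R) P.ring
  have hE : ∀ c : E, algebraMap E R c ∈ B := by
    intro c
    rw [IsScalarTower.algebraMap_apply E N R]
    exact (hB _).2 (P.algebraMap_mem c)
  have hBne : B ≠ ⊤ := by
    intro h
    apply P.ne_top
    rw [eq_top_iff]
    intro x _
    rw [← hB, h]
    trivial
  let i1 : Algebra M' N := (IntermediateField.inclusion hMN).toRingHom.toAlgebra
  have i2 : IsScalarTower M' N R := IsScalarTower.of_algebraMap_eq fun x => rfl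
  have i3 := hc.gal
  have i4 : IsGalois N R := IsGalois.tower_top_of_isGalois M' N R
  obtain ⟨m', hval⟩ := h27_unram (C := E) (M := N) hN hE hBne (fun σ hσ z => by
    let ρ : R ≃ₐ[M'] R := AlgEquiv.ofRingEquiv (f := (σ : R ≃+* R))
      (fun m => σ.commutes (⟨m, hMN m.2⟩ : N))
    have h1 := hc.free ρ B hE hBne hσ
    exact congrArg (fun τ : R ≃ₐ[M'] R => τ z) h1) w
  have hw0 : w ≠ 0 := by
    rintro rfl
    rw [zero_pow hn.ne'] at hw
    exact hf (Subtype.ext hw.symm)
  have hm'0 : m' ≠ 0 := by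
    rintro rfl
    rw [map_zero, map_zero] at hval
    exact hw0 (by simpa using hval)
  have hm0 : (m' : R) ≠ 0 := fun h => hm'0 (Subtype.ext h)
  have h1 : B.valuation ((f / m' ^ n : N) : R) = 1 := by
    have : ((f / m' ^ n : N) : R) = w ^ n / (m' : R) ^ n := by
      rw [hw]; rfl
    have hval' : B.valuation w = B.valuation (m' : R) := hval
    rw [this, map_div₀, map_pow, map_pow, hval']
    apply div_self
    apply pow_ne_zero
    simpa using hm0
  have h2 := ord_zero_of_val_unit hN P hB (div_ne_zero hf (pow_ne_zero n hm'0)) h1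
  rw [FF.ord_div hN P hf (pow_ne_zero n hm'0), FF.ord_pow hN P hm'0] at h2
  exact ⟨ord P.ring m', by linarith⟩

/-- **The weights theorem** for the covers `RCoverL`. -/
theorem RCoverL.weights {ℓ : ℕ} (hl : ℓ.Prime) {E R : Type u} [Field E] [IsAlgClosed E] [CharZero E] [Field R]
    [Algebra E R] {M' : IntermediateField E R} (hc : RCoverL ℓ M') {α : R ≃+* R}
    (hα : ∀ m ∈ M', α m = m) {H : Subgroup (R ≃+* R)} (hrel : CyclRel H α)
    (hfrob : HasFrob E H) (z : R) : α z = z := by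
  by_contra hz
  have := hc.gal
  have hαE : ∀ c : E, α (algebraMap E R c) = algebraMap E R c :=
    fun c => hα _ (M'.algebraMap_mem c)
  let a : R ≃ₐ[M'] R := AlgEquiv.ofRingEquiv (f := α) (fun m => hα m m.2)
  have hapow : ∀ (i : ℕ) (y : R), (a ^ i) y = (α ^ i) y := by
    intro i
    induction i with
    | zero => intro y; rfl
    | succ i ih =>
      intro y
      rw [pow_succ', pow_succ', AlgEquiv.mul_apply, ih]
      rfl
  obtain ⟨m, hmz⟩ := hc.pro a z
  obtain ⟨w, hw, hwl⟩ := exists_kummerL hαE hz hl ⟨m, by rw [← hapow]; exact hmz⟩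
  -- the level
  let N' : IntermediateField M' R := IntermediateField.adjoin M' {w ^ ℓ}
  have hfin : FiniteDimensional M' N' := IntermediateField.adjoin.finiteDimensional
    (Algebra.IsIntegral.isIntegral _)
  let N : IntermediateField E R := N'.restrictScalars E
  have hMN : M' ≤ N := fun x hx => N'.algebraMap_mem ⟨x, hx⟩
  have hN : IsFunctionField E N := by
    have h1 : IsFunctionField E N' := isFunctionField_of_finite8 (M := M') hc.ff
    exact h1
  have hNfix : ∀ x ∈ N, α x = x := by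
    let Fx : IntermediateField M' R :=
      { carrier := {x | α x = x}
        mul_mem' := fun {x y} hx hy => by
          change α (x * y) = x * y
          rw [map_mul, show α x = x from hx, show α y = y from hy]
        add_mem' := fun {x y} hx hy => by
          change α (x + y) = x + y
          rw [map_add, show α x = x from hx, show α y = y from hy]
        algebraMap_mem' := fun m => hα m m.2
        inv_mem' := fun x hx => by
          change α x⁻¹ = x⁻¹
          rw [map_inv₀, show α x = x from hx] }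
    have h1 : N' ≤ Fx := by
      rw [IntermediateField.adjoin_le_iff, Set.singleton_subset_iff]
      exact hwl
    exact fun x hx => h1 hx
  have hRN : Riemann E N := FF.riemann hN
  obtain ⟨P0⟩ : Nonempty (Place E N) := by
    have hN2 := hN
    obtain ⟨t, ht, -⟩ := hN2
    obtain ⟨P, -⟩ := exists_place hN ht
    exact ⟨P⟩
  obtain ⟨hDed, hFrac⟩ := isDedekind_ringAway hN hRN P0
  have hB := onePt_ringAway hN hRN P0
  have hTB : IsScalarTower E (ringAway P0) R := IsScalarTower.of_algebraMap_eq fun x => rfl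
  have hinj : Function.Injective (algebraMap (ringAway P0) R) := by
    intro x y hxy
    have h1 : ((x : N) : R) = ((y : N) : R) := hxy
    exact Subtype.ext (Subtype.ext h1)
  have hℓ0 : (ℓ : E) ≠ 0 := by exact_mod_cast hl.ne_zero
  have hdiv : ∀ (I : Ideal (ringAway P0)) (v : R), RootOf ℓ I v → ∀ n : ℕ,
      ∃ (J : Ideal (ringAway P0)) (w' : R), RootOf ℓ J w' ∧ SameClass I (J ^ ℓ ^ n) := by
    intro I v hIv n
    have hv0 : v ≠ 0 := hIv.ne_zero hinj hl.ne_zero
    obtain ⟨hI0, k, b, hb, hvb⟩ := hIv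
    have hb0 : b ≠ 0 := by
      rintro rfl
      rw [map_zero] at hvb
      exact pow_ne_zero _ hv0 hvb
    have hvN : v ^ ℓ ^ k ∈ N := by
      rw [hvb]
      exact (b : N).2
    obtain ⟨w1, hw10, hw1⟩ := hc.div N hMN hN v k n hv0 hvN
    let g : N := ⟨w1 ^ ℓ ^ n / v, hw1⟩
    obtain ⟨x, y, hy, hxy⟩ := IsFractionRing.div_surjective (A := ringAway P0) g
    have hy0 : y ≠ 0 := nonZeroDivisors.ne_zero hy
    have hyN : (y : N) ≠ 0 := fun h => hy0 (Subtype.ext h)
    have hyR : ((y : N) : R) ≠ 0 := fun h => hyN (Subtype.ext h)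
    have hxy' : (x : N) = g * y := by
      have h1 : (x : N) / (y : N) = g := hxy
      rw [← h1]; field_simp
    have hxR : ((x : N) : R) = w1 ^ ℓ ^ n / v * ((y : N) : R) := congrArg Subtype.val hxy'
    have hx0 : x ≠ 0 := by
      rintro rfl
      have h1 : (0 : R) = w1 ^ ℓ ^ n / v * ((y : N) : R) := hxR
      exact (mul_ne_zero (div_ne_zero (pow_ne_zero _ hw10) hv0) hyR) h1.symm
    let h : ringAway P0 := y ^ (ℓ ^ n - 1) * x
    have hh0 : h ≠ 0 := mul_ne_zero (pow_ne_zero _ hy0) hx0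
    have hhR : ((h : N) : R) * v = (((y : N) : R) * w1) ^ ℓ ^ n := by
      have h1 : ((h : N) : R) = ((y : N) : R) ^ (ℓ ^ n - 1) * ((x : N) : R) := rfl
      have h2 : ((y : N) : R) ^ ℓ ^ n = ((y : N) : R) ^ (ℓ ^ n - 1) * ((y : N) : R) := by
        rw [← pow_succ, Nat.sub_add_cancel (Nat.one_le_iff_ne_zero.2 (pow_pos hl.pos n).ne')]
      rw [h1, hxR, mul_pow, h2]
      field_simp
    let c : ringAway P0 := h ^ ℓ ^ k * b
    have hc0 : c ≠ 0 := mul_ne_zero (pow_ne_zero _ hh0) hb0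
    have hcN : (c : N) ≠ 0 := fun h => hc0 (Subtype.ext h)
    have hcR : (((y : N) : R) * w1) ^ ℓ ^ (n + k) = ((c : N) : R) := by
      have h1 : ((c : N) : R) = ((h : N) : R) ^ ℓ ^ k * algebraMap (ringAway P0) R b := rfl
      rw [h1, ← hvb, ← mul_pow, hhR, ← pow_mul, ← pow_add]
    obtain ⟨J, hJ⟩ := exists_root_ideal hN hRN P0 c hc0 (n := ℓ ^ (n + k)) (pow_pos hl.pos _)
      (fun P _ => hc.dvd_ord hMN hN (pow_pos hl.pos _) hcN hcR P)
    have hJ0 : J ≠ ⊥ := by
      rintro rfl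
      have h1 : (⊥ : Ideal (ringAway P0)) ^ ℓ ^ (n + k) = ⊥ := zero_pow (pow_pos hl.pos _).ne'
      rw [h1, Ideal.span_singleton_eq_bot] at hJ
      exact hc0 hJ
    refine ⟨J, ((y : N) : R) * w1, ⟨hJ0, n + k, c, hJ.symm, hcR⟩, h, 1, hh0, one_ne_zero, ?_⟩
    rw [Ideal.span_singleton_one, Ideal.top_mul]
    refine h27_pow_inj (n := ℓ ^ k) (pow_pos hl.pos _).ne' ?_ (pow_ne_zero _ hJ0) ?_
    · exact mul_ne_zero (by rwa [Ne, Ideal.zero_eq_bot, Ideal.span_singleton_eq_bot]) hI0
    · rw [mul_pow, hb, Ideal.span_singleton_pow, Ideal.span_singleton_mul_span_singleton,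
        ← pow_mul, ← pow_add, ← hJ]
  have hαB : ∀ b : ringAway P0, α (algebraMap (ringAway P0) R b) = algebraMap (ringAway P0) R b :=
    fun b => hNfix _ (b : N).2
  -- the function `w ^ ℓ`
  have hw0 : w ≠ 0 := by
    rintro rfl
    exact hw (map_zero α)
  let g : N := ⟨w ^ ℓ, IntermediateField.mem_adjoin_simple_self M' (w ^ ℓ)⟩
  have hg0 : g ≠ 0 := fun h => pow_ne_zero ℓ hw0 (congrArg Subtype.val h)
  obtain ⟨x, y, hy, hxy⟩ := IsFractionRing.div_surjective (A := ringAway P0) g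
  have hy0 : y ≠ 0 := nonZeroDivisors.ne_zero hy
  have hyN : (y : N) ≠ 0 := fun h => hy0 (Subtype.ext h)
  have hxy' : (x : N) = g * y := by
    have h1 : (x : N) / (y : N) = g := hxy
    rw [← h1]; field_simp
  let b : ringAway P0 := y ^ (ℓ - 1) * x
  have hbg : (b : N) = (y : N) ^ ℓ * g := by
    have h1 : (b : N) = (y : N) ^ (ℓ - 1) * x := rfl
    rw [h1, hxy']
    conv_rhs => rw [← Nat.sub_add_cancel hl.one_le, pow_succ]
    ring
  have hb0 : b ≠ 0 := by
    intro h
    have h1 : (b : N) = 0 := congrArg Subtype.val h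
    rw [hbg] at h1
    rcases mul_eq_zero.1 h1 with h2 | h2
    · exact pow_ne_zero ℓ hyN h2
    · exact hg0 h2
  obtain ⟨I, hI⟩ := exists_root_ideal hN hRN P0 b hb0 hl.pos (fun P _ => by
    rw [hbg, FF.ord_mul hN P (pow_ne_zero ℓ hyN) hg0, FF.ord_pow hN P hyN]
    exact dvd_add (dvd_mul_right _ _) (hc.dvd_ord hMN hN hl.pos hg0 rfl P))
  have hIbot : I ≠ ⊥ := by
    rintro rfl
    have h1 : (⊥ : Ideal (ringAway P0)) ^ ℓ = ⊥ := zero_pow hl.ne_zero
    rw [h1, Ideal.span_singleton_eq_bot] at hI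
    exact hb0 hI
  have hRI : RootOf ℓ I ((y : N) * w : R) := by
    refine ⟨hIbot, 1, b, by rw [pow_one, hI], ?_⟩
    rw [pow_one, mul_pow]
    have h1 : algebraMap (ringAway P0) R b = ((b : N) : R) := rfl
    rw [h1, hbg]
    rfl
  have hfix := weights_ring_class hB hinj hl hℓ0 hdiv hαB hrel hfrob hRI
  rw [map_mul, hNfix _ (y : N).2] at hfix
  exact hw (mul_left_cancel₀ (fun h => hyN (Subtype.ext h)) hfix)


end Pool.Agent.GCL
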