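import Pool.Agent.Helper45.FF.PR.C
import Pool.Agent.Helper13.GC.X4b

/-!
# Block GC-Y1: lifting automorphisms of the residue field of `U`

`X / K(x)` is Galois, `K(x) ⊆ L ⊆ M ⊆ U ⊆ X`, `V` the valuation ring of `U`, `R` its residue
field.

`fixes_of_residue`: extend `g` to `g' : X ≃ₐ[K] X` (`AlgEquiv.liftNormal` over `K(x)`; `X` is normal
over `K(x)`), `V'` a Gauss extension on `X` inducing `V` (`exists_gauss_ext`, Y0), and use
`XSetup.fixes_of_residue` (X4b) for `N.map (IsScalarTower.toAlgHom K U X)`.

`exists_induces_over`: let `V'` be as above, `R' = IsLocalRing.ResidueField V'` (an `E`-algebra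
through `E → V'`, `Res E V' (residue V')`: see the proof of `SuperE.inert_trivial` in LT/F4 for this), and
`ι : R →+* R'` the embedding with `ι (π z) = residue z` (`V → V'` is local).  `R'` is Galois over
`E(x̄)` (`XSetup.isGalois_residue`), so `ρ` extends to `ρ' : R' ≃ₐ[E] R'` (`ρ' (ι r) = ι (ρ r)`).
`N' = N.map (toAlgHom)`; `resField N' = ι (resField N)`: `ρ'` is trivial on it.
`XSetup.exists_induces_over` (X4b): `g' : X ≃ₐ[K] X` with `g' = id` on `N'` inducing `ρ'`.
`h.stab` for `g'` and `g'⁻¹`: `g'` maps `U` onto `U`; `g` its restriction.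
-/

universe u

set_option linter.unusedSectionVars false

namespace Pool.Agent.GCL

open VC Polynomial Pool.Agent.LT Pool.Agent Pool.Agent.GC

section aux31

/-- automorphisms over `K(x)` extend to normal extensions -/
private lemma ext_aut31 {K U X : Type u} [Field K] [Field U] [Field X] [Algebra K U] [Algebra K X]
    [Algebra U X] [IsScalarTower K U X] (x : U)
    (hn : Normal (IntermediateField.adjoin K {algebraMap U X x}) X) (g : U ≃ₐ[K] U)
    (hgx : g x = x) :
    ∃ g' : X ≃ₐ[K] X, ∀ z : U, g' (algebraMap U X z) = algebraMap U X (g z) := by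
  let φ : U →ₐ[K] X := IsScalarTower.toAlgHom K U X
  let F := IntermediateField.adjoin K {x}
  have h2 : F.map φ = IntermediateField.adjoin K {algebraMap U X x} := by
    rw [IntermediateField.adjoin_map, Set.image_singleton]
    rfl
  let e : IntermediateField.adjoin K {algebraMap U X x} ≃ₐ[K] F :=
    (IntermediateField.equivOfEq h2.symm).trans (IntermediateField.equivMap F φ).symm
  have hnF : Normal F X := by
    refine Normal.of_equiv_equiv (F := IntermediateField.adjoin K {algebraMap U X x}) (E := X)
      (f := (e : _ ≃+* F)) (g := RingEquiv.refl X) ?_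
    ext a
    have h3 : algebraMap U X ((e a : F) : U) = (a : X) := by
      have h4 := IntermediateField.coe_equivMap_apply F φ (e a)
      have h5 : IntermediateField.equivMap F φ (e a) = IntermediateField.equivOfEq h2.symm a := by
        exact (IntermediateField.equivMap F φ).apply_symm_apply _
      rw [h5] at h4
      exact h4.symm
    exact h3
  let Fx : IntermediateField K U :=
    { carrier := {y | g y = y}
      mul_mem' := fun {a b} ha hb => by
        change g (a * b) = a * b
        rw [map_mul, show g a = a from ha, show g b = b from hb]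
      add_mem' := fun {a b} ha hb => by
        change g (a + b) = a + b
        rw [map_add, show g a = a from ha, show g b = b from hb]
      algebraMap_mem' := fun c => g.commutes c
      inv_mem' := fun a ha => by
        change g a⁻¹ = a⁻¹
        rw [map_inv₀, show g a = a from ha] }
  have hle : F ≤ Fx := by
    rw [IntermediateField.adjoin_le_iff, Set.singleton_subset_iff]
    exact hgx
  let a : U ≃ₐ[F] U := AlgEquiv.ofRingEquiv (f := (g : U ≃+* U)) (fun m => hle m.2)
  let a' : X ≃ₐ[F] X := a.liftNormal X
  refine ⟨a'.restrictScalars K, fun z => ?_⟩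
  exact a.liftNormal_commutes X z

/-- the residue field of `V` as an algebra over the constants -/
private lemma res_exists31 {E K X : Type u} [Field E] [Field K] [Algebra E K] [Field X]
    [Algebra K X] [Algebra E X] [IsScalarTower E K X] {O : ValuationSubring K} {t : K}
    {x : X} (hb : Base E O t) {V : ValuationSubring X} (hV : Gauss E O x V) :
    ∃ iA : Algebra E (IsLocalRing.ResidueField V), Res E V (IsLocalRing.residue V) := by
  have hE : ∀ e : E, algebraMap E X e ∈ V := by
    intro e
    rw [IsScalarTower.algebraMap_apply E K X, hV.mem_iff]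
    exact hb.const e
  let iota : E →+* V := (algebraMap E X).codRestrict V.toSubring hE
  let iA : Algebra E (IsLocalRing.ResidueField V) := ((IsLocalRing.residue V).comp iota).toAlgebra
  refine ⟨iA, IsLocalRing.residue_surjective, fun w => ?_, fun e w hw => ?_⟩
  · rw [IsLocalRing.residue_eq_zero_iff, ValuationSubring.coe_mem_nonunits_iff]
  · have h1 : w = iota e := Subtype.ext hw
    rw [h1]
    rfl

end aux31

variable {E K X U R : Type u} [Field E] [IsAlgClosed E] [CharZero E] [Field K] [IsAlgClosed K]
  [Algebra E K] [Field X] [Algebra K X] [Algebra E X] [IsScalarTower E K X] [Field U]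
  [Algebra K U] [Algebra E U] [IsScalarTower E K U] [Algebra U X] [IsScalarTower K U X]
  [IsScalarTower E U X] [Field R] [Algebra E R]
  {O : ValuationSubring K} {t : K} {x : U} {B : Finset K} {L M : IntermediateField K U}
  {V : ValuationSubring U} {ℓ : ℕ} {π : V →+* R}

/-- An automorphism over `K(x)` which is trivial on the residues of `N` is trivial on `N`. -/
theorem CSetupL.fixes_of_residue (h : CSetupL ℓ E X O t B x L M) (hV : Gauss E O x V)
    (g : U ≃ₐ[K] U) (hgx : g x = x) (N : IntermediateField K U) (hxN : x ∈ N)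
    (htriv : ∀ z ∈ V, z ∈ N → g z - z ∈ V.nonunits) : ∀ z ∈ N, g z = z := by
  have hgal := h.set.gal
  obtain ⟨g', hg'⟩ := ext_aut31 (X := X) x inferInstance g hgx
  obtain ⟨V', hV', hcomap⟩ := exists_gauss_ext (X := X) hV
  have h1 := h.set.fixes_of_residue hV' g' (by rw [hg', hgx])
    (N.map (IsScalarTower.toAlgHom K U X)) ⟨x, hxN, rfl⟩ (by
      rintro _ hz ⟨w, hw, rfl⟩
      have hwV : w ∈ V := by
        rw [← hcomap]
        exact hz
      have h2 := htriv w hwV hw
      rw [← hcomap, comap_nonunits, map_sub, ← hg'] at h2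
      exact h2)
  intro z hz
  have h3 := h1 (algebraMap U X z) ⟨z, hz, rfl⟩
  rw [hg'] at h3
  exact (algebraMap U X).injective h3

/-- Automorphisms of the residue field over the residue field of `N ⊇ L` are induced by
automorphisms over `N`. -/
theorem CSetupL.exists_induces_over (h : CSetupL ℓ E X O t B x L M) (hV : Gauss E O x V)
    (hR : Res E V π) (N : IntermediateField K U) (hLN : L ≤ N) (ρ : R ≃ₐ[E] R)
    (hρ : ∀ r ∈ resField hV hR N, ρ r = r) :
    ∃ g : U ≃ₐ[K] U, (∀ m ∈ N, g m = m) ∧ Induces π g ρ := by
  obtain ⟨V', hV', hcomap⟩ := exists_gauss_ext (X := X) hV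
  have hVV' : ∀ z : U, z ∈ V → algebraMap U X z ∈ V' := by
    intro z hz
    rw [← hcomap] at hz
    exact hz
  have hVV'2 : ∀ z : U, algebraMap U X z ∈ V' → z ∈ V := by
    intro z hz
    rw [← hcomap]
    exact hz
  have hVn : ∀ z : U, z ∈ V.nonunits ↔ algebraMap U X z ∈ V'.nonunits := by
    intro z
    rw [← hcomap, comap_nonunits]
  obtain ⟨iA, hR'⟩ := res_exists31 h.set.base hV'
  -- the embedding of the residue fields
  let j : V →+* V' :=
    { toFun := fun z => ⟨algebraMap U X (z : U), hVV' _ z.2⟩
      map_one' := Subtype.ext (map_one (algebraMap U X))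
      map_mul' := fun a b => Subtype.ext (map_mul (algebraMap U X) (a : U) b)
      map_zero' := Subtype.ext (map_zero (algebraMap U X))
      map_add' := fun a b => Subtype.ext (map_add (algebraMap U X) (a : U) b) }
  have hker : RingHom.ker π ≤ RingHom.ker ((IsLocalRing.residue V').comp j) := by
    intro z hz
    rw [RingHom.mem_ker] at hz ⊢
    rw [RingHom.comp_apply, hR'.ker]
    exact (hVn _).1 ((hR.ker z).1 hz)
  let ι : R →+* IsLocalRing.ResidueField V' :=
    π.liftOfSurjective hR.surj ⟨(IsLocalRing.residue V').comp j, hker⟩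
  have hι : ∀ z : V, ι (π z) = IsLocalRing.residue V' (j z) := by
    intro z
    exact RingHom.liftOfSurjective_comp_apply _ _ _ z
  have hιE : ∀ e : E, ι (algebraMap E R e) = algebraMap E (IsLocalRing.ResidueField V') e := by
    intro e
    have hmem : algebraMap E U e ∈ V := by
      rw [IsScalarTower.algebraMap_apply E K U, hV.mem_iff]
      exact h.set.base.const e
    rw [← hR.const e ⟨_, hmem⟩ rfl, hι]
    exact hR'.const e _ (by
      show algebraMap U X (algebraMap E U e) = _
      rw [← IsScalarTower.algebraMap_apply E U X])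
  let iRA : Algebra R (IsLocalRing.ResidueField V') := ι.toAlgebra
  have hst : IsScalarTower E R (IsLocalRing.ResidueField V') :=
    IsScalarTower.of_algebraMap_eq fun e => (hιE e).symm
  have hx' : algebraMap R (IsLocalRing.ResidueField V') (π ⟨x, hV.x_mem⟩) =
      IsLocalRing.residue V' ⟨algebraMap U X x, hV'.x_mem⟩ := hι _
  have hgal' := (h.set.isGalois_residue hV' hR').2
  rw [← hx'] at hgal'
  have hρx : ρ (π ⟨x, hV.x_mem⟩) = π ⟨x, hV.x_mem⟩ :=
    hρ _ ⟨⟨x, hV.x_mem⟩, hLN h.x_mem, rfl⟩
  obtain ⟨ρ', hρ'⟩ := ext_aut31 (X := IsLocalRing.ResidueField V') _ inferInstance ρ hρx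
  obtain ⟨g', hg'N, hg'⟩ := h.set.exists_induces_over hV' hR'
    (N.map (IsScalarTower.toAlgHom K U X)) ⟨x, hLN h.x_mem, rfl⟩ ρ' (by
      rintro _ ⟨z, ⟨w, hw, hwz⟩, rfl⟩
      have hwz' : algebraMap U X w = z := hwz
      have hwV : w ∈ V := hVV'2 w (by rw [hwz']; exact z.2)
      have h1 : IsLocalRing.residue V' z = algebraMap R (IsLocalRing.ResidueField V') (π ⟨w, hwV⟩) := by
        have h2 : z = j ⟨w, hwV⟩ := Subtype.ext hwz'.symm
        rw [h2]
        exact (hι _).symm
      rw [h1, hρ', hρ _ ⟨⟨w, hwV⟩, hw, rfl⟩])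
  have hg'U : ∀ m ∈ N, g' (algebraMap U X m) = algebraMap U X m := fun m hm =>
    hg'N _ ⟨m, hm, rfl⟩
  have hinj := (algebraMap U X).injective
  choose w hw using h.stab g' (fun l hl => hg'U l (hLN hl))
  choose w' hw' using h.stab g'.symm (fun l hl => by
    rw [AlgEquiv.symm_apply_eq, hg'U l (hLN hl)])
  let f : U →+* U :=
    { toFun := w
      map_one' := hinj (by rw [← hw, map_one, map_one])
      map_mul' := fun a b => hinj (by rw [← hw, map_mul, map_mul, map_mul, hw, hw])
      map_zero' := hinj (by rw [← hw, map_zero, map_zero])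
      map_add' := fun a b => hinj (by rw [← hw, map_add, map_add, map_add, hw, hw]) }
  let f' : U →+* U :=
    { toFun := w'
      map_one' := hinj (by rw [← hw', map_one, map_one])
      map_mul' := fun a b => hinj (by rw [← hw', map_mul, map_mul, map_mul, hw', hw'])
      map_zero' := hinj (by rw [← hw', map_zero, map_zero])
      map_add' := fun a b => hinj (by rw [← hw', map_add, map_add, map_add, hw', hw']) }
  have e1 : f'.comp f = RingHom.id U := by
    ext z
    apply hinj
    show algebraMap U X (w' (w z)) = algebraMap U X z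
    rw [← hw', ← hw, AlgEquiv.symm_apply_apply]
  have e2 : f.comp f' = RingHom.id U := by
    ext z
    apply hinj
    show algebraMap U X (w (w' z)) = algebraMap U X z
    rw [← hw, ← hw', AlgEquiv.apply_symm_apply]
  let fe : U ≃+* U := RingEquiv.ofRingHom f f' e2 e1
  have hfe : ∀ z, algebraMap U X (fe z) = g' (algebraMap U X z) := fun z => (hw z).symm
  refine ⟨AlgEquiv.ofRingEquiv (f := fe) ?_, ?_, ?_⟩
  · intro c
    apply hinj
    rw [hfe, ← IsScalarTower.algebraMap_apply K U X, g'.commutes]
  · intro m hm
    apply hinj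
    show algebraMap U X (fe m) = _
    rw [hfe, hg'U m hm]
  · intro z v hv
    apply ι.injective
    have h1 : ι (ρ (π z)) = ρ' (ι (π z)) := (hρ' _).symm
    rw [h1, hι, hι]
    refine hg' (j z) (j v) ?_
    show algebraMap U X (v : U) = g' (algebraMap U X (z : U))
    rw [hv]
    exact hfe z

end Pool.Agent.GCL
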