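import Pool.Agent.Helper45.FF.PR.D1
import Pool.Agent.Helper13.GC.X4

/-!
# Block GC-Y3: the residue field of `U` is Galois over the residue field of `M`

`isGalois_residue`: as `USetup.isGalois_residue` (LT/U4), with `M` in the place of `K(x)`: `U / M` is
Galois (`h.cover.gal`), `V` is stable under the automorphisms over `M` (`CSetupL.stable`, Y0, as `x ∈ M`);
for `r = π z` the minimal polynomial `f` of `z` over `M` has its roots `g z` in `V`, so its coefficients
are in `M ∩ V` and the reduction of `f` is a polynomial over `resField hV hR M` (by definition of `resField`)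
which splits in `R` and has the root `r`; characteristic zero.
-/

universe u

set_option linter.unusedSectionVars false

namespace Pool.Agent.GCL

open VC Polynomial Pool.Agent.LT Pool.Agent Pool.Agent.GC

variable {E K X U R : Type u} [Field E] [IsAlgClosed E] [CharZero E] [Field K] [IsAlgClosed K]
  [Algebra E K] [Field X] [Algebra K X] [Algebra E X] [IsScalarTower E K X] [Field U]
  [Algebra K U] [Algebra E U] [IsScalarTower E K U] [Algebra U X] [IsScalarTower K U X]
  [IsScalarTower E U X] [Field R] [Algebra E R]
  {O : ValuationSubring K} {t : K} {x : U} {B : Finset K} {L M : IntermediateField K U}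
  {V : ValuationSubring U} {ℓ : ℕ} {π : V →+* R}

theorem CSetupL.isGalois_residue (h : CSetupL ℓ E X O t B x L M) (hV : Gauss E O x V)
    (hR : Res E V π) : IsGalois (resField hV hR M) R := by
  have hgal : IsGalois M U := h.cover.gal
  have hst : ∀ (g : U ≃ₐ[M] U) (z : U), g z ∈ V ↔ z ∈ V := fun g z =>
    h.stable hV (g.restrictScalars K : U ≃+* U) (RingEquiv.refl K)
      (fun c => (g.restrictScalars K).commutes c) (fun _ => Iff.rfl)
      (g.commutes ⟨x, h.le h.x_mem⟩) z
  have key : ∀ r : R, ∃ G : (resField hV hR M)[X], G.Monic ∧ aeval r G = 0 ∧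
      (G.map (algebraMap (resField hV hR M) R)).Splits := by
    intro r
    obtain ⟨z, rfl⟩ := hR.surj r
    have hint : IsIntegral M (z : U) := Algebra.IsIntegral.isIntegral _
    set f := minpoly M (z : U) with hf
    have hfm : f.Monic := minpoly.monic hint
    have hfs : (f.map (algebraMap M U)).Splits := Normal.splits inferInstance (z : U)
    have hroots : ∀ a ∈ (f.map (algebraMap M U)).roots, a ∈ V := by
      intro a ha
      have h1 : aeval a f = 0 := by
        have := (mem_roots ((hfm.map _).ne_zero)).1 ha
        rwa [IsRoot.def, eval_map_algebraMap] at this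
      obtain ⟨σ, hσ⟩ := minpoly.exists_algEquiv_of_root' (K := M) (L := U) hint.isAlgebraic h1
      rw [← hσ]
      exact (hst σ z).2 z.2
    set m : Multiset V := (f.map (algebraMap M U)).roots.pmap (fun a h => ⟨a, h⟩) hroots with hm
    have hmm : m.map (fun a : V => (a : U)) = (f.map (algebraMap M U)).roots := by
      rw [hm, Multiset.map_pmap]
      exact (Multiset.pmap_eq_map _ _ _ _).trans (Multiset.map_id' _)
    set F : V[X] := (m.map (fun a => Polynomial.X - C a)).prod with hF
    have hFU : F.map V.subtype = f.map (algebraMap M U) := by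
      rw [hF, Polynomial.map_multiset_prod, Multiset.map_map,
        hfs.eq_prod_roots_of_monic (hfm.map _), ← hmm, Multiset.map_map]
      congr 1
      refine Multiset.map_congr rfl fun a _ => ?_
      simp
    have hFm : F.Monic := monic_multiset_prod_of_monic _ _ fun a _ => monic_X_sub_C a
    have hFπ : F.map π = (m.map (fun a => Polynomial.X - C (π a))).prod := by
      rw [hF, Polynomial.map_multiset_prod, Multiset.map_map]
      congr 1
      refine Multiset.map_congr rfl fun a _ => ?_
      simp
    have hFs : (F.map π).Splits := by
      rw [hFπ]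
      refine Splits.multisetProd fun g hg => ?_
      obtain ⟨a, -, rfl⟩ := Multiset.mem_map.1 hg
      exact Splits.X_sub_C _
    have hFz : F.eval z = 0 := by
      apply Subtype.val_injective
      have h1 : V.subtype (F.eval z) = (F.map V.subtype).eval (V.subtype z) :=
        (eval_map_apply V.subtype z).symm
      have h2 : V.subtype (F.eval z) = 0 := by
        rw [h1, hFU, eval_map_algebraMap]
        exact minpoly.aeval M (z : U)
      exact h2
    have hlift : F.map π ∈ lifts (algebraMap (resField hV hR M) R) := by
      rw [lifts_iff_coeff_lifts]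
      intro i
      rw [coeff_map]
      have h1 : ((F.coeff i : V) : U) = algebraMap M U (f.coeff i) := by
        rw [← coeff_map, ← hFU, coeff_map]
        rfl
      have h2 : π (F.coeff i) ∈ resField hV hR M :=
        (mem_resField hV hR M _).2 ⟨F.coeff i, by rw [h1]; exact (f.coeff i).2, rfl⟩
      exact ⟨⟨_, h2⟩, rfl⟩
    obtain ⟨G, hG⟩ := (mem_lifts _).1 hlift
    refine ⟨G, ?_, ?_, ?_⟩
    · exact monic_of_injective (algebraMap (resField hV hR M) R).injective
        (by rw [hG]; exact hFm.map π)
    · rw [← eval_map_algebraMap, hG, eval_map_apply, hFz, map_zero]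
    · rw [hG]
      exact hFs
  have hnormal : Normal (resField hV hR M) R := by
    rw [normal_iff]
    intro r
    obtain ⟨G, hGm, hG0, hGs⟩ := key r
    refine ⟨⟨G, hGm, by rwa [← aeval_def]⟩, ?_⟩
    exact hGs.of_dvd ((hGm.map _).ne_zero)
      (Polynomial.map_dvd _ (minpoly.dvd (resField hV hR M) r hG0))
  have hch : CharZero (resField hV hR M) :=
    charZero_of_injective_algebraMap (algebraMap E (resField hV hR M)).injective
  have hsep : Algebra.IsSeparable (resField hV hR M) R := inferInstance
  exact IsGalois.mk

theorem CSetupL.isFunctionField_residue (h : CSetupL ℓ E X O t B x L M) (hV : Gauss E O x V)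
    (hR : Res E V π) : IsFunctionField E (resField hV hR M) :=
  isFunctionField_resField h.set.base h.tr hV hR M (h.le h.x_mem) h.cover.ff

end Pool.Agent.GCL
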