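import Pool.Agent.Helper45.FF.PR.D3
import Pool.Agent.Helper13.GC.X6
import Pool.Agent.Helper13.LT.U6

/-!
# Block GC-Y4: an automorphism of the residue field over the residue field of `M` which fixes a place is trivial

Let `V'`, `R'`, `π'`, `ι : R →+* R'` be as in the header of Y1 (`V'` a Gauss extension on `X` inducing
`V`, `R'` its residue field).  Let `Q'` be a valuation ring of `R'` above `Q` (`SC.exists_comap_eq`).
`ρ` extends to `ρ' : R' ≃ₐ[E] R'` (`R' / E(x̄)` is Galois, `XSetup.isGalois_residue`).  The valuation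
rings `Q'` and `{r | ρ' r ∈ Q'}` have the same trace on `R`, and `R' / ι(R)` is Galois, so by
`SC.exists_conj_val` (SC/Cov) they are conjugate over `ι(R)`: changing `ρ'` by an automorphism over `ι(R)` we may
assume `ρ' r ∈ Q' ↔ r ∈ Q'` (and `ρ'` still extends `ρ`).  Let `M'` be the image of `M` in `X`;
`resField M' = ι (resField M)`, so `XSetup.exists_induces_over` (X4b) gives `g' : X ≃ₐ[K] X`
with `g' = id` on `M'` inducing `ρ'`.  By `XSetup.exists_fixed` (X6) `g'` fixes a valuation ring
`P' ≠ ⊤` of `X` containing `K`.  By `h.stab` `g'` induces `g : U ≃ₐ[K] U`, trivial on `M`, and `g` fixes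
`P = P' ∩ U`; `P ≠ ⊤` because `X` is algebraic over `U` and valuation rings are integrally closed.
By `eq_one_of_fixes_place` (LT/U6, with `h.cover`) `g = 1`, so `ρ = 1`.
-/

universe u

set_option linter.unusedSectionVars false

namespace Pool.Agent.GCL

open VC Polynomial Pool.Agent.LT Pool.Agent Pool.Agent.GC

variable {E K X U R : Type u} [Field E] [IsAlgClosed E] [CharZero E] [Field K] [IsAlgClosed K]
  [Algebra E K] [Field X] [Algebra K X] [Algebra E X] [IsScalarTower E K X] [Field U]
  [Algebra K U] [Algebra E U] [IsScalarTower E K U] [Algebra U X] [IsScalarTower K U X]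
  [IsScalarTower E U X] [Field R] [Algebra E R]
  {O : ValuationSubring K} {t : K} {x : U} {B : Finset K} {L M : IntermediateField K U}
  {V : ValuationSubring U} {ℓ : ℕ} {π : V →+* R}

omit [IsAlgClosed E] [CharZero E] [IsAlgClosed K] [Algebra E X] [IsScalarTower E K X] [Algebra E U]
  [IsScalarTower E K U] [IsScalarTower E U X] in
private theorem free_alg52 (h : CSetupL ℓ E X O t B x L M) (z : X) : IsAlgebraic U z := by
  have hgal := h.set.gal
  have h1 : IsAlgebraic (IntermediateField.adjoin K {algebraMap U X x}) z :=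
    Algebra.IsAlgebraic.isAlgebraic _
  refine SC.isAlgebraic_of_range_le (A := IntermediateField.adjoin K {algebraMap U X x})
    (fun v => ?_) h1
  have h2 : (IntermediateField.adjoin K {x}).map (IsScalarTower.toAlgHom K U X) =
      IntermediateField.adjoin K {algebraMap U X x} := by
    rw [IntermediateField.adjoin_map, Set.image_singleton]
    rfl
  have hv : (v : X) ∈ (IntermediateField.adjoin K {x}).map (IsScalarTower.toAlgHom K U X) := by
    rw [h2]
    exact v.2
  obtain ⟨w, -, hwv⟩ := hv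
  exact ⟨w, hwv⟩

omit [IsAlgClosed E] [CharZero E] [IsAlgClosed K] [IsScalarTower E K X]
  [IsScalarTower E K U] [IsScalarTower K U X] in
/-- the embedding of the residue fields -/
private theorem free_iota52 {V' : ValuationSubring X} (hcomap : V'.comap (algebraMap U X) = V)
    (hE : ∀ e : E, algebraMap E U e ∈ V)
    {R' : Type u} [Field R'] [Algebra E R'] {π' : V' →+* R'} (hR : Res E V π)
    (hR' : Res E V' π') : ∃ ι : R →ₐ[E] R', ∀ (z : V) (w : V'),
      (w : X) = algebraMap U X z → ι (π z) = π' w := by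
  have hj : ∀ z : V, algebraMap U X z ∈ V' := by
    intro z
    have h1 : (z : U) ∈ V'.comap (algebraMap U X) := by rw [hcomap]; exact z.2
    exact h1
  let j : V →+* V' := ((algebraMap U X).comp V.subtype).codRestrict V'.toSubring hj
  have hker : RingHom.ker π ≤ RingHom.ker (π'.comp j) := by
    intro z hz
    rw [RingHom.mem_ker] at hz ⊢
    rw [RingHom.comp_apply, hR'.ker]
    rw [hR.ker] at hz
    have hz2 : (z : U) ∈ (V'.comap (algebraMap U X)).nonunits := by
      rw [hcomap]
      exact hz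
    exact (comap_nonunits V' (z : U)).1 hz2
  let ι₀ : R →+* R' := (RingHom.liftOfSurjective π hR.surj) ⟨π'.comp j, hker⟩
  have hι₀ : ∀ z : V, ι₀ (π z) = π' (j z) := fun z =>
    RingHom.liftOfRightInverse_comp_apply π _ (Function.rightInverse_surjInv hR.surj)
      ⟨π'.comp j, hker⟩ z
  let ι : R →ₐ[E] R' := { ι₀ with
    commutes' := by
      intro e
      have h1 : π ⟨algebraMap E U e, hE e⟩ = algebraMap E R e := hR.const e _ rfl
      change ι₀ (algebraMap E R e) = _
      rw [← h1, hι₀]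
      refine hR'.const e _ ?_
      change algebraMap U X (algebraMap E U e) = _
      rw [← IsScalarTower.algebraMap_apply E U X] }
  refine ⟨ι, fun z w hw => ?_⟩
  change ι₀ (π z) = _
  rw [hι₀]
  congr 1
  exact Subtype.ext hw.symm

omit [IsAlgClosed E] [CharZero E] in
/-- extension of an automorphism which fixes a place -/
private theorem free_ext52 {R' : Type u} [Field R'] [Algebra E R'] (ι : R →ₐ[E] R') (y : R)
    (hgal : IsGalois (IntermediateField.adjoin E {ι y}) R') (ρ : R ≃ₐ[E] R) (hy : ρ y = y)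
    (Q : ValuationSubring R) (hρQ : ∀ r, ρ r ∈ Q ↔ r ∈ Q) :
    ∃ (ρ' : R' ≃ₐ[E] R') (Q' : ValuationSubring R'), (∀ r, ρ' (ι r) = ι (ρ r)) ∧
      (∀ r, ι r ∈ Q' ↔ r ∈ Q) ∧ ∀ r, ρ' r ∈ Q' ↔ r ∈ Q' := by
  classical
  let F0 : IntermediateField E R := IntermediateField.adjoin E {y}
  let _ : Algebra R R' := ι.toRingHom.toAlgebra
  have : IsScalarTower E R R' := IsScalarTower.of_algebraMap_eq fun e => (ι.commutes e).symm
  have : IsScalarTower F0 R R' := inferInstance
  have : IsScalarTower E F0 R' := IsScalarTower.of_algebraMap_eq fun e => by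
    change algebraMap E R' e = ι (algebraMap E R e)
    rw [ι.commutes]
  have hmap : F0.map ι = IntermediateField.adjoin E {ι y} := by
    rw [IntermediateField.adjoin_map, Set.image_singleton]
  have hgal1 : IsGalois (F0.map ι) R' := by
    rw [hmap]
    exact hgal
  have hgal0 : IsGalois F0 R' := by
    refine IsGalois.of_equiv_equiv (F := F0.map ι) (E := R')
      (f := ((F0.equivMap ι).symm : (F0.map ι) ≃+* F0)) (g := RingEquiv.refl R') ?_
    ext a
    obtain ⟨b, rfl⟩ := (F0.equivMap ι).surjective a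
    change algebraMap F0 R' ((F0.equivMap ι).symm ((F0.equivMap ι) b)) = _
    rw [AlgEquiv.symm_apply_apply]
    rfl
  have : Normal F0 R' := hgal0.to_normal
  have : IsGalois R R' := IsGalois.tower_top_of_isGalois F0 R R'
  -- `ρ` over `F0`
  have hfix : ∀ a : F0, ρ (a : R) = a := by
    intro a
    have h1 : F0 ≤ IntermediateField.fixedField (Subgroup.zpowers ρ) := by
      rw [IntermediateField.adjoin_le_iff, Set.singleton_subset_iff]
      rintro ⟨g, hg⟩
      obtain ⟨n, rfl⟩ := Subgroup.mem_zpowers_iff.1 hg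
      change (ρ ^ n) y = y
      have h2 : ρ ∈ MulAction.stabilizer (R ≃ₐ[E] R) y := hy
      exact (MulAction.stabilizer (R ≃ₐ[E] R) y).zpow_mem h2 n
    exact h1 a.2 ⟨ρ, Subgroup.mem_zpowers ρ⟩
  let χ : R ≃ₐ[F0] R := AlgEquiv.ofRingEquiv (f := (ρ : R ≃+* R)) hfix
  let ρ₀ : R' ≃ₐ[F0] R' := χ.liftNormal R'
  have hρ₀ : ∀ r, ρ₀ (ι r) = ι (ρ r) := fun r => χ.liftNormal_commutes R' r
  obtain ⟨Q', hQ'⟩ := SC.exists_comap_eq (ι : R →+* R') Q
  let Q'' : ValuationSubring R' := Q'.comap (ρ₀ : R' →+* R')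
  obtain ⟨σ, hσ⟩ := SC.exists_conj_val (L := R) Q' Q'' (by
    intro c
    change ι c ∈ Q' ↔ ρ₀ (ι c) ∈ Q'
    rw [hρ₀]
    have h1 := hQ' c
    have h2 := hQ' (ρ c)
    change ι c ∈ Q' ↔ c ∈ Q at h1
    change ι (ρ c) ∈ Q' ↔ ρ c ∈ Q at h2
    rw [h1, h2, hρQ])
  refine ⟨(σ.restrictScalars E).trans (ρ₀.restrictScalars E), Q', fun r => ?_, hQ', fun r => ?_⟩
  · change ρ₀ (σ (ι r)) = _
    have h1 : σ (ι r) = ι r := σ.commutes r
    rw [h1, hρ₀]
  · exact hσ r

theorem CSetupL.free (h : CSetupL ℓ E X O t B x L M) (hV : Gauss E O x V) (hR : Res E V π)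
    (ρ : R ≃ₐ[E] R) (hρ : ∀ r ∈ resField hV hR M, ρ r = r)
    (Q : ValuationSubring R) (hQE : ∀ e : E, algebraMap E R e ∈ Q) (hQ1 : Q ≠ ⊤)
    (hρQ : ∀ r, ρ r ∈ Q ↔ r ∈ Q) : ρ = 1 := by
  classical
  have hKz : CharZero K := charZero_of_injective_algebraMap (algebraMap E K).injective
  obtain ⟨V', hV', hcomap⟩ := exists_gauss_ext (X := X) hV
  have hE : ∀ e : E, algebraMap E U e ∈ V := by
    intro e
    rw [IsScalarTower.algebraMap_apply E K U, hV.mem_iff]
    exact h.set.base.const e
  have hE' : ∀ e : E, algebraMap E X e ∈ V' := by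
    intro e
    rw [IsScalarTower.algebraMap_apply E K X, hV'.mem_iff]
    exact h.set.base.const e
  -- the residue field of `V'`
  let iota : E →+* V' := (algebraMap E X).codRestrict V'.toSubring hE'
  let iA : Algebra E (IsLocalRing.ResidueField V') :=
    ((IsLocalRing.residue V').comp iota).toAlgebra
  have hR' : Res E V' (IsLocalRing.residue V') := by
    refine ⟨IsLocalRing.residue_surjective, fun w => ?_, fun e w hw => ?_⟩
    · rw [IsLocalRing.residue_eq_zero_iff, ValuationSubring.coe_mem_nonunits_iff]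
    · have h1 : w = iota e := Subtype.ext hw
      rw [h1]
      rfl
  obtain ⟨ι, hι⟩ := free_iota52 hcomap hE hR hR'
  have hιx : ι (π ⟨x, hV.x_mem⟩) = IsLocalRing.residue V' ⟨algebraMap U X x, hV'.x_mem⟩ :=
    hι _ _ rfl
  have hgal := (h.set.isGalois_residue hV' hR').2
  rw [← hιx] at hgal
  obtain ⟨ρ', Q', hρ', hQ', hρQ'⟩ := free_ext52 ι (π ⟨x, hV.x_mem⟩) hgal ρ
    (hρ _ ⟨⟨x, hV.x_mem⟩, h.le h.x_mem, rfl⟩) Q hρQ
  -- `M` in `X`
  have hfix : ∀ r ∈ resField hV' hR' (M.map (IsScalarTower.toAlgHom K U X)), ρ' r = r := by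
    rintro _ ⟨z, ⟨m, hm, hmz⟩, rfl⟩
    have hmz' : (z : X) = algebraMap U X m := hmz.symm
    have hmV : m ∈ V := by
      rw [← hcomap, ValuationSubring.mem_comap, ← hmz']
      exact z.2
    rw [← hι ⟨m, hmV⟩ z hmz', hρ', hρ _ ⟨⟨m, hmV⟩, hm, rfl⟩]
  have hxM : algebraMap U X x ∈ M.map (IsScalarTower.toAlgHom K U X) := ⟨x, h.le h.x_mem, rfl⟩
  obtain ⟨g', hg'M, hg'⟩ := h.set.exists_induces_over hV' hR' _ hxM ρ' hfix
  obtain ⟨P', hP'K, hP'1, hP'⟩ := h.set.exists_fixed hV' hR' g' (hg'M _ hxM) ρ' hg' Q'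
    (fun e => by
      rw [← ι.commutes, hQ']
      exact hQE e)
    (by
      rintro rfl
      apply hQ1
      ext r
      exact ⟨fun _ => ValuationSubring.mem_top _, fun _ => (hQ' r).1 (ValuationSubring.mem_top _)⟩)
    hρQ'
  -- `g'` induces an automorphism of `U`
  have hst1 : ∀ z : U, ∃ w : U, g' (algebraMap U X z) = algebraMap U X w :=
    h.stab g' fun l hl => hg'M _ ⟨l, h.le hl, rfl⟩
  have hst2 : ∀ z : U, ∃ w : U, g'.symm (algebraMap U X z) = algebraMap U X w := by
    refine h.stab g'.symm fun l hl => ?_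
    rw [AlgEquiv.symm_apply_eq]
    exact (hg'M _ ⟨l, h.le hl, rfl⟩).symm
  choose γ hγ using hst1
  have hinj : Function.Injective (algebraMap U X) := (algebraMap U X).injective
  let gA : U →ₐ[K] U :=
    { toFun := γ
      map_one' := hinj (by rw [← hγ, map_one, map_one])
      map_mul' := fun a b => hinj (by rw [← hγ, map_mul, map_mul, map_mul, hγ, hγ])
      map_zero' := hinj (by rw [← hγ, map_zero, map_zero])
      map_add' := fun a b => hinj (by rw [← hγ, map_add, map_add, map_add, hγ, hγ])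
      commutes' := fun c => hinj (by
        rw [← hγ, ← IsScalarTower.algebraMap_apply K U X, g'.commutes]) }
  let g : U ≃ₐ[K] U := AlgEquiv.ofBijective gA ⟨gA.toRingHom.injective, fun w => by
    obtain ⟨z, hz⟩ := hst2 w
    refine ⟨z, hinj ?_⟩
    change algebraMap U X (γ z) = _
    rw [← hγ, ← hz, AlgEquiv.apply_symm_apply]⟩
  have hg : ∀ z, algebraMap U X (g z) = g' (algebraMap U X z) := fun z => (hγ z).symm
  have hgM : ∀ m ∈ M, g m = m := by
    intro m hm
    apply hinj
    rw [hg]
    exact hg'M _ ⟨m, hm, rfl⟩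
  let P : ValuationSubring U := P'.comap (algebraMap U X)
  have hP : ∀ c : K, algebraMap K U c ∈ P := by
    intro c
    change algebraMap U X (algebraMap K U c) ∈ P'
    rw [← IsScalarTower.algebraMap_apply K U X]
    exact hP'K c
  have hP1 : P ≠ ⊤ := by
    intro hP1
    apply hP'1
    refine top_unique fun z _ => ?_
    have hint : IsIntegral U z := (free_alg52 h z).isIntegral
    have hU : ∀ u : U, algebraMap U X u ∈ P' := by
      intro u
      have : u ∈ P := by
        rw [hP1]
        exact ValuationSubring.mem_top _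
      exact this
    obtain ⟨q, hq, hq0⟩ := hint
    have h2 : IsIntegral P' z := by
      let f : U →+* P' := (algebraMap U X).codRestrict P'.toSubring hU
      refine ⟨q.map f, hq.map f, ?_⟩
      rw [eval₂_map]
      exact hq0
    obtain ⟨w, hw⟩ := (IsIntegrallyClosed.isIntegral_iff (R := P') (K := X)).1 h2
    rw [← hw]
    exact w.2
  have hg1 : g = 1 := eq_one_of_fixes_placeL h.cover g hgM hP hP1 fun z => by
    change algebraMap U X (g z) ∈ P' ↔ algebraMap U X z ∈ P'
    rw [hg]
    exact hP' _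
  ext r
  obtain ⟨z, rfl⟩ := hR.surj r
  apply ι.toRingHom.injective
  change ι (ρ (π z)) = ι (π z)
  have hzV' : algebraMap U X (z : U) ∈ V' := by
    have h1 : (z : U) ∈ V'.comap (algebraMap U X) := by rw [hcomap]; exact z.2
    exact h1
  rw [← hρ', hι z ⟨_, hzV'⟩ rfl]
  refine hg' _ _ ?_
  change algebraMap U X (z : U) = g' (algebraMap U X (z : U))
  rw [← hg, hg1]
  rfl

end Pool.Agent.GCL
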