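import Pool.Agent.Helper45.FF.PR.D3
import Pool.Agent.Helper13.LT.U7

/-!
# Divisibility (adapted from LT/U7)
-/

universe u

set_option linter.unusedSectionVars false

namespace Pool.Agent.GCL

open VC Polynomial Pool.Agent.LT Pool.Agent Pool.Agent.GC

variable {E K X U R : Type u} [Field E] [IsAlgClosed E] [CharZero E] [Field K] [IsAlgClosed K]
  [Algebra E K] [Field X] [Algebra K X] [Algebra E X] [IsScalarTower E K X] [Field U]
  [Algebra K U] [Algebra E U] [IsScalarTower E K U] [Algebra U X] [IsScalarTower K U X]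
  [IsScalarTower E U X] [Field R] [Algebra E R]
  {O : ValuationSubring K} {t : K} {x : U} {B : Finset K} {L M : IntermediateField K U}
  {V : ValuationSubring U} {ℓ : ℕ} {π : V →+* R}

/-- The automorphism `g` over `M` induces the automorphism `ρ` over `N`. -/
def Y5.Pair (M : IntermediateField K U) (π : V →+* R) (N : IntermediateField E R)
    (g : U ≃ₐ[K] U) (ρ : R ≃ₐ[E] R) : Prop :=
  (∀ m ∈ M, g m = m) ∧ (∀ s ∈ N, ρ s = s) ∧ Induces π g ρ

theorem Y5.pres (hu : CSetupL ℓ E X O t B x L M) (hV : Gauss E O x V) {g : U ≃ₐ[K] U} (hg : g x = x)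
    (y : U) : g y ∈ V ↔ y ∈ V :=
  hu.stable hV (g : U ≃+* U) (RingEquiv.refl K) (fun c => g.commutes c) (fun _ => Iff.rfl) hg y

theorem Y5.Pair.pres {N : IntermediateField E R} {g : U ≃ₐ[K] U} {ρ : R ≃ₐ[E] R}
    (hp : Y5.Pair M π N g ρ) (hu : CSetupL ℓ E X O t B x L M) (hV : Gauss E O x V) (y : U) :
    g y ∈ V ↔ y ∈ V :=
  Y5.pres hu hV (hp.1 x (hu.le hu.x_mem)) y

omit [IsAlgClosed E] [CharZero E] [IsAlgClosed K] [Algebra E U] [IsScalarTower E K U]
  [Algebra E K] in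
theorem Y5.Pair.rho {N : IntermediateField E R} {g : U ≃ₐ[K] U} {ρ : R ≃ₐ[E] R}
    (hp : Y5.Pair M π N g ρ) {y : U} (hy : y ∈ V) (hgy : g y ∈ V) :
    ρ (π ⟨y, hy⟩) = π ⟨g y, hgy⟩ :=
  hp.2.2 ⟨y, hy⟩ ⟨g y, hgy⟩ rfl

theorem Y5.Pair.mul {N : IntermediateField E R} {g g' : U ≃ₐ[K] U} {ρ ρ' : R ≃ₐ[E] R}
    (hp : Y5.Pair M π N g ρ) (hp' : Y5.Pair M π N g' ρ') (hu : CSetupL ℓ E X O t B x L M)
    (hV : Gauss E O x V) : Y5.Pair M π N (g * g') (ρ * ρ') := by
  refine ⟨fun m hm => ?_, fun s hs => ?_, fun y y' h => ?_⟩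
  · rw [AlgEquiv.mul_apply, hp'.1 m hm, hp.1 m hm]
  · rw [AlgEquiv.mul_apply, hp'.2.1 s hs, hp.2.1 s hs]
  · have h1 : g' (y : U) ∈ V := (hp'.pres hu hV _).mpr y.2
    have h2 : ρ' (π y) = π ⟨g' y, h1⟩ := hp'.2.2 y ⟨g' y, h1⟩ rfl
    rw [AlgEquiv.mul_apply, h2]
    exact hp.2.2 ⟨g' y, h1⟩ y' h

omit [IsAlgClosed E] [CharZero E] [IsAlgClosed K] [Algebra E U] [IsScalarTower E K U]
  [Algebra E K] in
theorem Y5.pair_one {N : IntermediateField E R} : Y5.Pair M π N (1 : U ≃ₐ[K] U) (1 : R ≃ₐ[E] R) :=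
  ⟨fun _ _ => rfl, fun _ _ => rfl, fun _ _ h => congrArg π (Subtype.ext h.symm)⟩

/-- The elements of `R` fixed by the automorphisms over `N` are in `N`. -/
theorem Y5.mem_of_fixed (hu : CSetupL ℓ E X O t B x L M) (hV : Gauss E O x V) (hR : Res E V π)
    {N : IntermediateField E R} (hMN : resField hV hR M ≤ N) {r : R}
    (h : ∀ ρ : R ≃ₐ[E] R, (∀ s ∈ N, ρ s = s) → ρ r = r) : r ∈ N := by
  have hgal := hu.isGalois_residue hV hR
  have hle : resField hV hR M ≤ N := hMN
  have h1 : IsGalois (IntermediateField.extendScalars hle) R := inferInstance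
  have h2 := (InfiniteGalois.mem_range_algebraMap_iff_fixed
    (k := IntermediateField.extendScalars hle) r).mpr (by
    intro f
    exact h (AlgEquiv.ofRingEquiv (f := (f : R ≃+* R)) (fun e =>
      f.commutes (⟨algebraMap E R e, N.algebraMap_mem e⟩ : IntermediateField.extendScalars hle)))
      (fun s hs => f.commutes (⟨s, hs⟩ : IntermediateField.extendScalars hle)))
  obtain ⟨s, hs⟩ := h2
  rw [← hs]
  exact s.2

omit [IsAlgClosed K] [CharZero E] [Algebra E K] [Algebra E U] [IsScalarTower E K U] in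
/-- `ρ w = e w`. -/
theorem Y5.Pair.eigen {N : IntermediateField E R} {g : U ≃ₐ[K] U} {ρ : R ≃ₐ[E] R}
    (hp : Y5.Pair M π N g ρ) {w : R} {a : ℕ} (ha : 0 < a) (hw0 : w ≠ 0) (hw : w ^ a ∈ N) :
    ∃ e : E, e ^ a = 1 ∧ ρ w = algebraMap E R e * w := by
  have h1 : (ρ w / w) ^ a = 1 := by
    rw [div_pow, ← map_pow, hp.2.1 _ hw, div_self (pow_ne_zero a hw0)]
  obtain ⟨e, he, he'⟩ := U7.exists_root_of_unity (K := E) ha h1
  exact ⟨e, he, by rw [he', div_mul_cancel₀ _ hw0]⟩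

/-- A lift of `w` to an eigenvector. -/
theorem Y5.exists_eigen (hu : CSetupL ℓ E X O t B x L M) (hV : Gauss E O x V) (hR : Res E V π)
    {N : IntermediateField E R} {w : R} {a : ℕ} (ha : 0 < a) (hw0 : w ≠ 0) (hw : w ^ a ∈ N) :
    ∃ w₁ : U, w₁ ≠ 0 ∧ ∀ (g : U ≃ₐ[K] U) (ρ : R ≃ₐ[E] R), Y5.Pair M π N g ρ →
      ∀ e : E, ρ w = algebraMap E R e * w → g w₁ = algebraMap E U e * w₁ := by
  classical
  obtain ⟨z, hz⟩ := hR.surj w
  -- the orbit of `z`
  let S : Set U := {y | ∃ (g : U ≃ₐ[K] U) (ρ : R ≃ₐ[E] R), Y5.Pair M π N g ρ ∧ g z = y}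
  have hgal := hu.cover.gal
  have hSfin : S.Finite := by
    apply ((minpoly M (z : U)).rootSet_finite U).subset
    rintro y ⟨g, ρ, hp, rfl⟩
    let gM : U →ₐ[M] U :=
      { (g : U →+* U) with
        commutes' := fun m => hp.1 m m.2 }
    have hint : IsIntegral M (z : U) := (Algebra.IsAlgebraic.isAlgebraic (z : U)).isIntegral
    rw [mem_rootSet]
    refine ⟨minpoly.ne_zero hint, ?_⟩
    have h1 := Polynomial.aeval_algHom_apply gM (z : U) (minpoly M (z : U))
    rw [minpoly.aeval, map_zero] at h1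
    exact h1
  have hSV : ∀ y ∈ S, y ∈ V := by
    rintro y ⟨g, ρ, hp, rfl⟩
    exact (hp.pres hu hV _).mpr z.2
  have hc : ∀ y : U, ∃ e : E, y ∈ S → e ≠ 0 ∧ ∀ hy : y ∈ V, π ⟨y, hy⟩ = algebraMap E R e * w := by
    intro y
    by_cases hy : y ∈ S
    · obtain ⟨g, ρ, hp, rfl⟩ := id hy
      obtain ⟨e, he, he'⟩ := hp.eigen ha hw0 hw
      refine ⟨e, fun _ => ⟨?_, fun hy' => ?_⟩⟩
      · rintro rfl
        rw [zero_pow ha.ne'] at he
        exact zero_ne_one he
      · rw [← he', ← hz]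
        exact (hp.rho z.2 hy').symm
    · exact ⟨0, fun h => absurd h hy⟩
  choose c hc using hc
  have hconst : ∀ e : E, algebraMap E U e ∈ V := by
    intro e
    rw [IsScalarTower.algebraMap_apply E K U]
    exact (hV.mem_iff _).mpr (hu.set.base.const e)
  have hsum : ∀ T : Finset U, (∀ y ∈ T, y ∈ S) →
      ∃ h : (∑ y ∈ T, algebraMap E U (c y)⁻¹ * y) ∈ V,
        π ⟨∑ y ∈ T, algebraMap E U (c y)⁻¹ * y, h⟩ = (T.card : R) * w := by
    intro T
    induction T using Finset.induction_on with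
    | empty =>
      intro _
      refine ⟨by rw [Finset.sum_empty]; exact V.zero_mem, ?_⟩
      simp only [Finset.sum_empty, Finset.card_empty, Nat.cast_zero, zero_mul]
      exact map_zero π
    | insert y T hyT ih =>
      intro hT
      obtain ⟨h1, h2⟩ := ih (fun u hu => hT u (Finset.mem_insert_of_mem hu))
      have hyS := hT y (Finset.mem_insert_self y T)
      obtain ⟨h3, h4⟩ := hc y hyS
      have h5 : algebraMap E U (c y)⁻¹ * y ∈ V := V.mul_mem _ _ (hconst _) (hSV y hyS)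
      have h6 : π ⟨algebraMap E U (c y)⁻¹ * y, h5⟩ = w := by
        have h7 : (⟨algebraMap E U (c y)⁻¹ * y, h5⟩ : V) =
            ⟨algebraMap E U (c y)⁻¹, hconst _⟩ * ⟨y, hSV y hyS⟩ := rfl
        rw [h7, map_mul, h4, hR.const (c y)⁻¹ ⟨algebraMap E U (c y)⁻¹, hconst _⟩ rfl,
          map_inv₀, ← mul_assoc, inv_mul_cancel₀, one_mul]
        exact (_root_.map_ne_zero _).mpr h3
      have h8 : (∑ y ∈ insert y T, algebraMap E U (c y)⁻¹ * y) =
          algebraMap E U (c y)⁻¹ * y + ∑ y ∈ T, algebraMap E U (c y)⁻¹ * y :=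
        Finset.sum_insert hyT
      refine ⟨by rw [h8]; exact V.add_mem _ _ h5 h1, ?_⟩
      have h9 : (⟨∑ y ∈ insert y T, algebraMap E U (c y)⁻¹ * y,
          by rw [h8]; exact V.add_mem _ _ h5 h1⟩ : V) =
          ⟨algebraMap E U (c y)⁻¹ * y, h5⟩ + ⟨∑ y ∈ T, algebraMap E U (c y)⁻¹ * y, h1⟩ :=
        Subtype.ext h8
      rw [h9, map_add, h6, h2, Finset.card_insert_of_notMem hyT]
      push_cast
      ring
  set T := hSfin.toFinset with hT
  have hTS : ∀ y, y ∈ T ↔ y ∈ S := fun y => hSfin.mem_toFinset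
  obtain ⟨h1, h2⟩ := hsum T (fun y hy => (hTS y).mp hy)
  have hzS : (z : U) ∈ S := ⟨1, 1, Y5.pair_one, rfl⟩
  have hcard : (T.card : R) ≠ 0 := by
    have hchar : CharZero R := charZero_of_injective_algebraMap (algebraMap E R).injective
    rw [Nat.cast_ne_zero]
    exact Finset.card_ne_zero.mpr ⟨z, (hTS _).mpr hzS⟩
  refine ⟨∑ y ∈ T, algebraMap E U (c y)⁻¹ * y, ?_, ?_⟩
  · intro h0
    have h3 : (⟨∑ y ∈ T, algebraMap E U (c y)⁻¹ * y, h1⟩ : V) = 0 := Subtype.ext h0
    rw [h3, map_zero] at h2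
    exact mul_ne_zero hcard hw0 h2.symm
  · intro g ρ hp e he
    have hgS : ∀ y ∈ S, g y ∈ S := by
      rintro y ⟨g', ρ', hp', rfl⟩
      exact ⟨g * g', ρ * ρ', hp.mul hp' hu hV, rfl⟩
    have himg : T.image g = T := by
      apply Finset.eq_of_subset_of_card_le
      · intro y hy
        obtain ⟨y', hy', rfl⟩ := Finset.mem_image.mp hy
        exact (hTS _).mpr (hgS y' ((hTS y').mp hy'))
      · rw [Finset.card_image_of_injective _ g.injective]
    have hge : ∀ e : E, g (algebraMap E U e) = algebraMap E U e := by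
      intro e
      rw [IsScalarTower.algebraMap_apply E K U]
      exact g.commutes _
    have h3 : ∀ y ∈ T, g (algebraMap E U (c y)⁻¹ * y) =
        algebraMap E U e * (algebraMap E U (c (g y))⁻¹ * g y) := by
      intro y hy
      have hyS := (hTS y).mp hy
      have hgyS := hgS y hyS
      obtain ⟨h4, h5⟩ := hc y hyS
      obtain ⟨h6, h7⟩ := hc (g y) hgyS
      have h8 := hp.rho (hSV y hyS) (hSV _ hgyS)
      rw [h5, h7, map_mul, he, ← mul_assoc, AlgEquiv.commutes] at h8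
      have h9 := mul_right_cancel₀ hw0 h8
      rw [← map_mul] at h9
      have h10 := (algebraMap E R).injective h9
      rw [map_mul, hge, ← mul_assoc, ← map_mul]
      congr 2
      rw [← h10]
      have he0 : e ≠ 0 := by
        rintro rfl
        rw [mul_zero] at h10
        exact h6 h10.symm
      field_simp
    rw [map_sum, Finset.sum_congr rfl h3, ← Finset.mul_sum]
    congr 1
    conv_rhs => rw [← himg]
    rw [Finset.sum_image (fun a _ b _ h => g.injective h)]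

/-- The same in the residue field. -/
theorem CSetupL.div_residue (hu : CSetupL ℓ E X O t B x L M) (hV : Gauss E O x V) (hR : Res E V π)
    {N : IntermediateField E R} (hMN : resField hV hR M ≤ N) (hN : IsFunctionField E N) {w : R}
    {a b i₀ j₀ : ℕ} (hai : a = ℓ ^ i₀) (hbj : b = ℓ ^ j₀) (hw0 : w ≠ 0)
    (hw : w ^ a ∈ N) : ∃ w' : R, w' ≠ 0 ∧ w' ^ b / w ∈ N := by
  have ha : 0 < a := by rw [hai]; exact pow_pos hu.prime.pos _
  have hb : 0 < b := by rw [hbj]; exact pow_pos hu.prime.pos _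
  have hgal := hu.cover.gal
  obtain ⟨w₁, hw₁0, hw₁⟩ := Y5.exists_eigen hu hV hR ha hw0 hw
  have hint : IsIntegral M (w₁ ^ a) := (Algebra.IsAlgebraic.isAlgebraic (w₁ ^ a)).isIntegral
  let L : IntermediateField M U := IntermediateField.adjoin M {w₁ ^ a}
  have hfd : FiniteDimensional M L := IntermediateField.adjoin.finiteDimensional hint
  have hff : IsFunctionField K L := SC.isFunctionField_of_finite8 (M := M) hu.cover.ff
  let N' : IntermediateField K U := L.restrictScalars K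
  have hff' : IsFunctionField K N' := hff
  have hMN' : M ≤ N' := fun m hm => L.algebraMap_mem ⟨m, hm⟩
  have hwN' : w₁ ^ a ∈ N' := IntermediateField.mem_adjoin_simple_self M (w₁ ^ a)
  have hfix : ∀ (g : U ≃ₐ[K] U) (ρ : R ≃ₐ[E] R), Y5.Pair M π N g ρ → ∀ n ∈ N', g n = n := by
    intro g ρ hp n hn
    have hn' : n ∈ IntermediateField.adjoin M {w₁ ^ a} := hn
    induction hn' using IntermediateField.adjoin_induction with
    | mem u hu' =>
      rw [Set.mem_singleton_iff] at hu'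
      obtain ⟨e, he, he'⟩ := hp.eigen ha hw0 hw
      rw [hu', map_pow, hw₁ g ρ hp e he', mul_pow, ← map_pow, he, map_one, one_mul]
    | algebraMap m => exact hp.1 m m.2
    | add u v _ _ h1 h2 => rw [map_add, h1 (by assumption), h2 (by assumption)]
    | inv u _ h1 => rw [map_inv₀, h1 (by assumption)]
    | mul u v _ _ h1 h2 => rw [map_mul, h1 (by assumption), h2 (by assumption)]
  have hcharK : CharZero K := charZero_of_injective_algebraMap (algebraMap E K).injective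
  obtain ⟨v, hv0, hv⟩ := div_coverL (i := i₀) (j := j₀) hu.prime.pos hu.cover hMN' hff' hw₁0
    (by rw [← hai]; exact hwN')
  rw [← hbj] at hv
  -- normalisation
  have hgalx := hu.alg
  obtain ⟨k, hk, j, hj⟩ := hV.exists_pow hu.set.base hv0 (Algebra.IsAlgebraic.isAlgebraic v)
  obtain ⟨c, hc⟩ := IsAlgClosed.exists_pow_nat_eq (t ^ j) hk
  have hc0 : c ≠ 0 := by
    rintro rfl
    rw [zero_pow hk.ne'] at hc
    exact zpow_ne_zero j hu.set.base.t_ne hc.symm
  have hcU : algebraMap K U c ≠ 0 := (_root_.map_ne_zero _).mpr hc0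
  have hval : V.valuation (v / algebraMap K U c) = 1 := by
    have h1 : V.valuation (v / algebraMap K U c) ^ k = 1 := by
      rw [map_div₀, div_pow, hj, ← map_pow, ← map_pow, hc, map_zpow₀, map_zpow₀, div_self]
      apply zpow_ne_zero
      exact (Valuation.ne_zero_iff _).mpr ((_root_.map_ne_zero _).mpr hu.set.base.t_ne)
    exact (pow_eq_one_iff.mp h1).resolve_right hk.ne'
  set v₁ := v / algebraMap K U c with hv₁
  have hv₁V : v₁ ∈ V := (V.valuation_le_one_iff _).mp hval.le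
  have hv₁0 : v₁ ≠ 0 := div_ne_zero hv0 hcU
  have hv₁N : v₁ ^ b / w₁ ∈ N' := by
    have h1 : v₁ ^ b / w₁ = (v ^ b / w₁) / algebraMap K U (c ^ b) := by
      rw [hv₁, div_pow, map_pow]
      ring
    rw [h1]
    exact N'.div_mem hv (N'.algebraMap_mem _)
  have hw'0 : π ⟨v₁, hv₁V⟩ ≠ 0 := by
    intro h0
    rw [hR.ker] at h0
    rw [ValuationSubring.mem_nonunits_iff] at h0
    change V.valuation v₁ < 1 at h0
    rw [hval] at h0
    exact lt_irrefl _ h0
  refine ⟨π ⟨v₁, hv₁V⟩, hw'0, ?_⟩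
  apply Y5.mem_of_fixed hu hV hR hMN
  intro ρ hρ
  obtain ⟨g, hg, hind⟩ := hu.exists_induces_over hV hR M hu.le ρ (fun r hr => hρ r (hMN hr))
  have hp : Y5.Pair M π N g ρ := ⟨hg, hρ, hind⟩
  obtain ⟨e, he, he'⟩ := hp.eigen ha hw0 hw
  have he0 : e ≠ 0 := by
    rintro rfl
    rw [zero_pow ha.ne'] at he
    exact zero_ne_one he
  have h1 := hfix g ρ hp _ hv₁N
  rw [map_div₀, map_pow, hw₁ g ρ hp e he'] at h1
  have heU : algebraMap E U e ≠ 0 := (_root_.map_ne_zero _).mpr he0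
  have h2 : (g v₁ / v₁) ^ b = algebraMap E U e := by
    rw [div_pow, div_eq_iff (pow_ne_zero b hv₁0)]
    rw [div_eq_div_iff (mul_ne_zero heU hw₁0) hw₁0] at h1
    apply mul_right_cancel₀ hw₁0
    rw [h1]
    ring
  have h3 : (g v₁ / v₁) ^ (b * a) = 1 := by
    rw [pow_mul, h2, ← map_pow, he, map_one]
  obtain ⟨η, _, hη'⟩ := U7.exists_root_of_unity (K := E) (Nat.mul_pos hb ha) h3
  have h4 : η ^ b = e := by
    apply (algebraMap E U).injective
    rw [map_pow, hη', h2]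
  have hgv : g v₁ = algebraMap E U η * v₁ := by
    rw [hη', div_mul_cancel₀ _ hv₁0]
  have hgV : g v₁ ∈ V := (hp.pres hu hV _).mpr hv₁V
  have hconst : algebraMap E U η ∈ V := by
    rw [IsScalarTower.algebraMap_apply E K U]
    exact (hV.mem_iff _).mpr (hu.set.base.const η)
  have h5 : ρ (π ⟨v₁, hv₁V⟩) = algebraMap E R η * π ⟨v₁, hv₁V⟩ := by
    rw [hp.rho hv₁V hgV, ← hR.const η ⟨algebraMap E U η, hconst⟩ rfl, ← map_mul]
    congr 1
    exact Subtype.ext hgv
  rw [map_div₀, map_pow, h5, he', mul_pow, ← map_pow, h4]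
  have heR : algebraMap E R e ≠ 0 := (_root_.map_ne_zero _).mpr he0
  field_simp

end Pool.Agent.GCL
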