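import Pool.Agent.Helper45.FF.PR.D4
import Pool.Agent.Helper45.FF.PR.D5

/-!
# The residue field is a pro-`ℓ` cover in the sense of the weights theorem
-/

universe u

set_option linter.unusedSectionVars false

namespace Pool.Agent.GCL

open VC Polynomial Pool.Agent.LT Pool.Agent Pool.Agent.GC

variable {E K X U R : Type u} [Field E] [IsAlgClosed E] [CharZero E] [Field K] [IsAlgClosed K]
  [Algebra E K] [Field X] [Algebra K X] [Algebra E X] [IsScalarTower E K X] [Field U]
  [Algebra K U] [Algebra E U] [IsScalarTower E K U] [Algebra U X] [IsScalarTower K U X]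
  [IsScalarTower E U X] [Field R] [Algebra E R]
  {O : ValuationSubring K} {t : K} {x : U} {B : Finset K} {L M : IntermediateField K U}
  {V : ValuationSubring U} {ℓ : ℕ} {π : V →+* R}

theorem CSetupL.rcover (hu : CSetupL ℓ E X O t B x L M) (hV : Gauss E O x V) (hR : Res E V π) :
    RCoverL ℓ (resField hV hR M) := by
  refine ⟨hu.isFunctionField_residue hV hR, hu.isGalois_residue hV hR, ?_, ?_, ?_⟩
  · intro ρ Q hQE hQ1 hρQ
    have h1 := hu.free hV hR (ρ.restrictScalars E) (fun r hr => ρ.commutes ⟨r, hr⟩) Q hQE hQ1 hρQ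
    ext r
    exact AlgEquiv.congr_fun h1 r
  · intro N hMN hN w i j hw0 hw
    exact hu.div_residue hV hR hMN hN rfl rfl hw0 hw
  · intro ρ r
    obtain ⟨g, hg, hind⟩ := hu.exists_induces_over hV hR M hu.le (ρ.restrictScalars E)
      (fun r hr => ρ.commutes ⟨r, hr⟩)
    obtain ⟨z, rfl⟩ := hR.surj r
    let σ : U ≃ₐ[M] U := AlgEquiv.ofRingEquiv (f := (g : U ≃+* U)) (fun m => hg m m.2)
    obtain ⟨j, hj⟩ := hu.cover.pro σ z
    refine ⟨j, ?_⟩
    have hgx : g x = x := hg x (hu.le hu.x_mem)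
    have hst : ∀ y : U, g y ∈ V ↔ y ∈ V := fun y => Y5.pres hu hV hgx y
    have hσ : ∀ n : ℕ, ∀ y : V, ∃ h : (σ ^ n) (y : U) ∈ V, (ρ ^ n) (π y) = π ⟨(σ ^ n) (y : U), h⟩ := by
      intro n
      induction n with
      | zero => exact fun y => ⟨y.2, rfl⟩
      | succ n ih =>
        intro y
        obtain ⟨h1, h2⟩ := ih y
        have h3 : g ((σ ^ n) (y : U)) ∈ V := (hst _).2 h1
        refine ⟨by rw [pow_succ', AlgEquiv.mul_apply]; exact h3, ?_⟩
        rw [pow_succ', AlgEquiv.mul_apply, h2]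
        have h4 := hind ⟨_, h1⟩ ⟨_, h3⟩ rfl
        have h5 : ρ (π ⟨(σ ^ n) (y : U), h1⟩) = π ⟨g ((σ ^ n) (y : U)), h3⟩ := h4
        rw [h5]
        congr 1
        apply Subtype.ext
        change g ((σ ^ n) (y : U)) = (σ ^ (n + 1)) (y : U)
        rw [pow_succ', AlgEquiv.mul_apply]
        rfl
    obtain ⟨h1, h2⟩ := hσ (ℓ ^ j) z
    rw [h2]
    congr 1
    exact Subtype.ext hj

end Pool.Agent.GCL
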