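import Pool.Agent.Helper45.FF.PR.C
import Pool.Agent.SC.CoverKur0

/-!
# Project FF, PRO: the maximal pro-`ℓ` subextension of a cover
-/

universe u

set_option linter.unusedSectionVars false

namespace Pool.Agent.GCL

open VC Polynomial Pool.Agent.LT Pool.Agent Pool.Agent.GC

section pow

variable {G A : Type*} [Group G] [MulAction G A]

theorem smul_fix_pow {τ : G} {z : A} (h : τ • z = z) (n : ℕ) : τ ^ n • z = z := by
  induction n with
  | zero => rw [pow_zero, one_smul]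
  | succ n ih => rw [pow_succ, mul_smul, h, ih]

theorem smul_fix_le {σ : G} {z : A} {ℓ i j : ℕ} (hij : i ≤ j) (h : σ ^ ℓ ^ i • z = z) :
    σ ^ ℓ ^ j • z = z := by
  obtain ⟨m, rfl⟩ := Nat.exists_eq_add_of_le hij
  rw [pow_add, pow_mul]
  exact smul_fix_pow h _

end pow

section PLf

variable {K U : Type u} [Field K] [Field U] [Algebra K U]

theorem fix_pow {U : Type*} [Field U] {F : Type*} [Field F] [Algebra F U] {τ : U ≃ₐ[F] U} {z : U}
    (h : τ z = z) (n : ℕ) : (τ ^ n) z = z :=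
  smul_fix_pow (G := U ≃ₐ[F] U) (A := U) h n

theorem fix_le {U : Type*} [Field U] {F : Type*} [Field F] [Algebra F U] {σ : U ≃ₐ[F] U} {z : U}
    {ℓ i j : ℕ} (hij : i ≤ j) (h : (σ ^ ℓ ^ i) z = z) : (σ ^ ℓ ^ j) z = z :=
  smul_fix_le (G := U ≃ₐ[F] U) (A := U) hij h

/-- the elements on which every automorphism over `M` has `ℓ`-power order -/
def PLf (ℓ : ℕ) (M : IntermediateField K U) : IntermediateField K U where
  carrier := {z | ∀ σ : U ≃ₐ[M] U, ∃ j : ℕ, (σ ^ ℓ ^ j) z = z}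
  mul_mem' := by
    intro a b ha hb σ
    obtain ⟨i, hi⟩ := ha σ
    obtain ⟨j, hj⟩ := hb σ
    refine ⟨max i j, ?_⟩
    rw [map_mul, fix_le (le_max_left i j) hi, fix_le (le_max_right i j) hj]
  add_mem' := by
    intro a b ha hb σ
    obtain ⟨i, hi⟩ := ha σ
    obtain ⟨j, hj⟩ := hb σ
    refine ⟨max i j, ?_⟩
    rw [map_add, fix_le (le_max_left i j) hi, fix_le (le_max_right i j) hj]
  algebraMap_mem' := by
    intro c σ
    refine ⟨0, ?_⟩
    exact (σ ^ ℓ ^ 0).commutes (algebraMap K M c)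
  inv_mem' := by
    intro a ha σ
    obtain ⟨i, hi⟩ := ha σ
    refine ⟨i, ?_⟩
    rw [map_inv₀, hi]

theorem mem_PLf {ℓ : ℕ} {M : IntermediateField K U} {z : U} :
    z ∈ PLf ℓ M ↔ ∀ σ : U ≃ₐ[M] U, ∃ j : ℕ, (σ ^ ℓ ^ j) z = z := Iff.rfl

theorem le_PLf (ℓ : ℕ) (M : IntermediateField K U) : M ≤ PLf ℓ M := by
  intro m hm σ
  exact ⟨0, (σ ^ ℓ ^ 0).commutes ⟨m, hm⟩⟩

/-- `PLf` is stable under automorphisms which preserve `M` -/
theorem PLf_stable {ℓ : ℕ} {M : IntermediateField K U} (g : U ≃+* U)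
    (h1 : ∀ m ∈ M, g m ∈ M) {z : U} (hz : z ∈ PLf ℓ M) : g z ∈ PLf ℓ M := by
  intro σ
  let τ : U ≃ₐ[M] U := AlgEquiv.ofRingEquiv (f := (g.trans (σ : U ≃+* U)).trans g.symm) (by
    intro m
    change g.symm (σ (g m)) = m
    rw [show σ (g m) = g m from σ.commutes ⟨g m, h1 m m.2⟩, RingEquiv.symm_apply_apply])
  have hτ : ∀ y, τ y = g.symm (σ (g y)) := fun y => rfl
  have hτn : ∀ n : ℕ, ∀ y, (τ ^ n) y = g.symm ((σ ^ n) (g y)) := by
    intro n
    induction n with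
    | zero =>
      intro y
      rw [pow_zero, pow_zero, AlgEquiv.one_apply, AlgEquiv.one_apply, RingEquiv.symm_apply_apply]
    | succ n ih =>
      intro y
      rw [pow_succ, pow_succ, AlgEquiv.mul_apply, AlgEquiv.mul_apply, ih, hτ,
        RingEquiv.apply_symm_apply]
  obtain ⟨j, hj⟩ := hz τ
  refine ⟨j, ?_⟩
  rw [hτn, RingEquiv.symm_apply_eq] at hj
  exact hj

/-- `M` inside `PLf` -/
def ML (ℓ : ℕ) (M : IntermediateField K U) : IntermediateField K (PLf ℓ M) :=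
  IntermediateField.restrict (le_PLf ℓ M)

theorem mem_ML {ℓ : ℕ} {M : IntermediateField K U} {z : PLf ℓ M} :
    z ∈ ML ℓ M ↔ (z : U) ∈ M := IntermediateField.mem_restrict _ _

variable {ℓ : ℕ} {M : IntermediateField K U}

/-- automorphisms of `PLf` over `M` lift to `U` -/
theorem exists_lift_M [IsGalois M U] (σ : PLf ℓ M ≃ₐ[ML ℓ M] PLf ℓ M) :
    ∃ τ : U ≃ₐ[M] U, ∀ z : PLf ℓ M, τ z = σ z := by
  let i1 : Algebra M (PLf ℓ M) := (IntermediateField.inclusion (le_PLf ℓ M)).toAlgebra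
  have s1 : IsScalarTower M (PLf ℓ M) U := IsScalarTower.of_algebraMap_eq fun c => rfl
  let σ1 : PLf ℓ M ≃ₐ[M] PLf ℓ M := AlgEquiv.ofRingEquiv (f := (σ : PLf ℓ M ≃+* PLf ℓ M)) (by
    intro m
    exact σ.commutes ⟨IntermediateField.inclusion (le_PLf ℓ M) m, mem_ML.2 m.2⟩)
  exact ⟨σ1.liftNormal U, fun z => σ1.liftNormal_commutes U z⟩

theorem normal_PLf [IsGalois M U] : Normal (ML ℓ M) (PLf ℓ M) := by
  let F1 : IntermediateField M U := IntermediateField.extendScalars (le_PLf ℓ M)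
  have hF1 : Normal M F1 := by
    rw [IntermediateField.normal_iff_forall_map_le']
    intro σ
    rintro _ ⟨z, hz, rfl⟩
    exact PLf_stable (σ : U ≃+* U) (fun m hm => by
      rw [show (σ : U ≃+* U) m = m from σ.commutes ⟨m, hm⟩]
      exact hm) hz
  let e : F1 ≃+* PLf ℓ M :=
    { toFun := fun z => ⟨z.1, z.2⟩
      invFun := fun z => ⟨z.1, z.2⟩
      left_inv := fun z => rfl
      right_inv := fun z => rfl
      map_mul' := fun a b => rfl
      map_add' := fun a b => rfl }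
  refine Normal.of_equiv_equiv (F := M) (E := F1)
    (f := (IntermediateField.restrictAlgEquiv (le_PLf ℓ M)).toRingEquiv) (g := e) ?_
  ext a
  rfl

theorem isGalois_PLf [CharZero K] [IsGalois M U] : IsGalois (ML ℓ M) (PLf ℓ M) := by
  have h1 : Normal (ML ℓ M) (PLf ℓ M) := normal_PLf
  have h2 : Algebra.IsAlgebraic (ML ℓ M) (PLf ℓ M) := inferInstance
  have h3 : CharZero (ML ℓ M) := charZero_of_injective_algebraMap (algebraMap K (ML ℓ M)).injective
  exact { }

/-- roots of unity lie in the constants -/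
theorem mem_const_of_pow [IsAlgClosed K] {ζ : U} {n : ℕ} (hn : 0 < n) (h : ζ ^ n = 1) :
    ∃ c : K, algebraMap K U c = ζ := by
  have h1 : (X ^ n - C (1 : K) : K[X]) ≠ 0 := X_pow_sub_C_ne_zero hn 1
  have h2 : IsIntegral K ζ := ⟨X ^ n - C (1 : K), monic_X_pow_sub_C 1 hn.ne', by
    simp [h]⟩
  exact IntermediateField.mem_bot.1 (by
    have h3 := IsAlgClosed.splits (minpoly K ζ)
    have h4 : Algebra.IsIntegral K (IntermediateField.adjoin K {ζ}) :=
      (IntermediateField.isAlgebraic_adjoin (fun x hx => by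
        rw [Set.mem_singleton_iff] at hx
        rw [hx]
        exact h2)).isIntegral
    obtain ⟨c, hc⟩ := (IsAlgClosed.algebraMap_bijective_of_isIntegral (k := K)
      (K := IntermediateField.adjoin K {ζ})).2 ⟨ζ, IntermediateField.mem_adjoin_simple_self K ζ⟩
    rw [IntermediateField.mem_bot]
    exact ⟨c, congrArg Subtype.val hc⟩)

/-- roots of elements of `PLf` lie in `PLf` -/
theorem root_mem_PLf [IsAlgClosed K] (hℓ : 0 < ℓ) {w : U} {n : ℕ} (h : w ^ ℓ ^ n ∈ PLf ℓ M) :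
    w ∈ PLf ℓ M := by
  intro σ
  by_cases hw0 : w = 0
  · exact ⟨0, by rw [hw0, map_zero]⟩
  obtain ⟨j, hj⟩ := h σ
  obtain ⟨τ, hτ⟩ : ∃ τ : U ≃ₐ[M] U, τ = σ ^ ℓ ^ j := ⟨_, rfl⟩
  rw [← hτ, map_pow] at hj
  obtain ⟨c, hc⟩ := mem_const_of_pow (K := K) (ζ := τ w / w) (n := ℓ ^ n) (pow_pos hℓ n) (by
    rw [div_pow, hj, div_self (pow_ne_zero _ hw0)])
  have h1 : τ w = algebraMap K U c * w := by
    rw [hc, div_mul_cancel₀ _ hw0]
  have h2 : ∀ m : ℕ, (τ ^ m) w = algebraMap K U c ^ m * w := by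
    intro m
    induction m with
    | zero => rw [pow_zero, pow_zero, one_mul, AlgEquiv.one_apply]
    | succ m ih =>
      rw [pow_succ, AlgEquiv.mul_apply, h1, map_mul, ih]
      rw [show (τ ^ m) (algebraMap K U c) = algebraMap K U c from
        (τ ^ m).commutes (algebraMap K M c)]
      ring
  refine ⟨j + n, ?_⟩
  rw [pow_add, pow_mul, ← hτ, h2, hc, div_pow, hj, div_self (pow_ne_zero _ hw0), one_mul]

/-- `PLf` is a maximal unramified pro-`ℓ` extension. -/
theorem covL_of_isCover [IsAlgClosed K] [CharZero K] (hℓ : 0 < ℓ) (hc : SC.IsCover M) :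
    CovL ℓ (ML ℓ M) where
  ff := SC.isFunctionField_of_equiv (IntermediateField.restrictAlgEquiv (le_PLf ℓ M)) hc.ff
  gal := by
    have := hc.gal
    exact isGalois_PLf
  unr := by
    intro W hW u
    obtain ⟨V, hV⟩ := SC.exists_comap_eq (algebraMap (PLf ℓ M) U) W
    obtain ⟨m, hm, hum⟩ := hc.unr V (fun c => (hV (algebraMap K (PLf ℓ M) c)).2 (hW c)) u
    exact ⟨⟨m, le_PLf ℓ M hm⟩, mem_ML.2 hm, SC.val_eq_of_map (algebraMap (PLf ℓ M) U) hV hum⟩
  root := by
    intro n u hu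
    obtain ⟨w, hw⟩ := hc.root (u : U) (ℓ ^ n) (pow_pos hℓ n) (by
      intro W hW
      obtain ⟨v, hv⟩ := hu (W.comap (algebraMap (PLf ℓ M) U)) (fun c => hW c)
      refine ⟨v, ?_⟩
      have h1 := SC.val_map_eq (algebraMap (PLf ℓ M) U) (V := W) (fun _ => Iff.rfl) hv
      rw [map_pow] at h1
      exact h1)
    exact ⟨⟨w, root_mem_PLf hℓ (by rw [hw]; exact u.2)⟩, Subtype.ext hw⟩
  pro := by
    intro σ z
    have := hc.gal
    obtain ⟨τ, hτ⟩ := exists_lift_M σ
    obtain ⟨j, hj⟩ := z.2 τ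
    refine ⟨j, Subtype.ext ?_⟩
    have h1 : ∀ n : ℕ, (τ ^ n) (z : U) = ((σ ^ n) z : PLf ℓ M) := by
      intro n
      induction n with
      | zero => rw [pow_zero, pow_zero, AlgEquiv.one_apply, AlgEquiv.one_apply]
      | succ n ih =>
        rw [pow_succ', pow_succ', AlgEquiv.mul_apply, AlgEquiv.mul_apply, ih, hτ]
    rw [← h1]
    exact hj

end PLf

end Pool.Agent.GCL
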