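import Pool.Agent.Helper45.FF.PR.F

/-!
# Project FF, PRO: the setup of a cover gives the setup of its maximal pro-`ℓ` subextension
-/

universe u

set_option linter.unusedSectionVars false

namespace Pool.Agent.GCL

open VC Polynomial Pool.Agent.LT Pool.Agent Pool.Agent.GC

section aux

/-- automorphisms over `K(x)` extend to normal extensions -/
theorem ext_autL {K U X : Type u} [Field K] [Field U] [Field X] [Algebra K U] [Algebra K X]
    [Algebra U X] [IsScalarTower K U X] (x : U)
    (hn : Normal (IntermediateField.adjoin K {algebraMap U X x}) X) (g : U ≃ₐ[K] U)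
    (hgx : g x = x) :
    ∃ g' : X ≃ₐ[K] X, ∀ z : U, g' (algebraMap U X z) = algebraMap U X (g z) := by
  let φ : U →ₐ[K] X := IsScalarTower.toAlgHom K U X
  let F := IntermediateField.adjoin K {x}
  have h2 : F.map φ = IntermediateField.adjoin K {algebraMap U X x} := by
    rw [IntermediateField.adjoin_map, Set.image_singleton]
    rfl
  let e : IntermediateField.adjoin K {algebraMap U X x} ≃ₐ[K] F :=
    (IntermediateField.equivOfEq h2.symm).trans (IntermediateField.equivMap F φ).symm
  have hnF : Normal F X := by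
    refine Normal.of_equiv_equiv (F := IntermediateField.adjoin K {algebraMap U X x}) (E := X)
      (f := (e : _ ≃+* F)) (g := RingEquiv.refl X) ?_
    ext a
    have h3 : algebraMap U X ((e a : F) : U) = (a : X) := by
      have h4 := IntermediateField.coe_equivMap_apply F φ (e a)
      have h5 : IntermediateField.equivMap F φ (e a) = IntermediateField.equivOfEq h2.symm a := by
        exact (IntermediateField.equivMap F φ).apply_symm_apply _
      rw [h5] at h4
      exact h4.symm
    exact h3
  let Fx : IntermediateField K U :=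
    { carrier := {y | g y = y}
      mul_mem' := fun {a b} ha hb => by
        change g (a * b) = a * b
        rw [map_mul, show g a = a from ha, show g b = b from hb]
      add_mem' := fun {a b} ha hb => by
        change g (a + b) = a + b
        rw [map_add, show g a = a from ha, show g b = b from hb]
      algebraMap_mem' := fun c => g.commutes c
      inv_mem' := fun a ha => by
        change g a⁻¹ = a⁻¹
        rw [map_inv₀, show g a = a from ha] }
  have hle : F ≤ Fx := by
    rw [IntermediateField.adjoin_le_iff, Set.singleton_subset_iff]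
    exact hgx
  let a : U ≃ₐ[F] U := AlgEquiv.ofRingEquiv (f := (g : U ≃+* U)) (fun m => hle m.2)
  let a' : X ≃ₐ[F] X := a.liftNormal X
  refine ⟨a'.restrictScalars K, fun z => ?_⟩
  exact a.liftNormal_commutes X z

/-- an automorphism which preserves a subfield restricts to it -/
theorem restr_autL {K U X : Type u} [Field K] [Field U] [Field X] [Algebra K U] [Algebra K X]
    [Algebra U X] [IsScalarTower K U X] (g' : X ≃ₐ[K] X)
    (h1 : ∀ z : U, ∃ w : U, g' (algebraMap U X z) = algebraMap U X w)
    (h2 : ∀ z : U, ∃ w : U, g'.symm (algebraMap U X z) = algebraMap U X w) :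
    ∃ g : U ≃ₐ[K] U, ∀ z : U, g' (algebraMap U X z) = algebraMap U X (g z) := by
  have hinj := (algebraMap U X).injective
  choose w hw using h1
  choose w' hw' using h2
  let f : U →+* U :=
    { toFun := w
      map_one' := hinj (by rw [← hw, map_one, map_one])
      map_mul' := fun a b => hinj (by rw [← hw, map_mul, map_mul, map_mul, hw, hw])
      map_zero' := hinj (by rw [← hw, map_zero, map_zero])
      map_add' := fun a b => hinj (by rw [← hw, map_add, map_add, map_add, hw, hw]) }
  let f' : U →+* U :=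
    { toFun := w'
      map_one' := hinj (by rw [← hw', map_one, map_one])
      map_mul' := fun a b => hinj (by rw [← hw', map_mul, map_mul, map_mul, hw', hw'])
      map_zero' := hinj (by rw [← hw', map_zero, map_zero])
      map_add' := fun a b => hinj (by rw [← hw', map_add, map_add, map_add, hw', hw']) }
  have e1 : f'.comp f = RingHom.id U := by
    ext z
    apply hinj
    show algebraMap U X (w' (w z)) = algebraMap U X z
    rw [← hw', ← hw, AlgEquiv.symm_apply_apply]
  have e2 : f.comp f' = RingHom.id U := by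
    ext z
    apply hinj
    show algebraMap U X (w (w' z)) = algebraMap U X z
    rw [← hw, ← hw', AlgEquiv.apply_symm_apply]
  let fe : U ≃+* U := RingEquiv.ofRingHom f f' e2 e1
  have hfe : ∀ z, algebraMap U X (fe z) = g' (algebraMap U X z) := fun z => (hw z).symm
  refine ⟨AlgEquiv.ofRingEquiv (f := fe) ?_, ?_⟩
  · intro c
    apply hinj
    rw [hfe, ← IsScalarTower.algebraMap_apply K U X, g'.commutes]
  · intro z
    exact (hfe z).symm

/-- `L` inside `PLf` -/
def LL' {K U : Type u} [Field K] [Field U] [Algebra K U] {L M : IntermediateField K U}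
    (ℓ : ℕ) (h : L ≤ M) : IntermediateField K (PLf ℓ M) :=
  IntermediateField.restrict (h.trans (le_PLf ℓ M))

theorem mem_LL' {K U : Type u} [Field K] [Field U] [Algebra K U] {L M : IntermediateField K U}
    {ℓ : ℕ} {h : L ≤ M} {z : PLf ℓ M} : z ∈ LL' ℓ h ↔ (z : U) ∈ L :=
  IntermediateField.mem_restrict _ _

end aux

variable {E K X U : Type u} [Field E] [IsAlgClosed E] [CharZero E] [Field K] [IsAlgClosed K]
  [Algebra E K] [Field X] [Algebra K X] [Algebra E X] [IsScalarTower E K X] [Field U]
  [Algebra K U] [Algebra E U] [IsScalarTower E K U] [Algebra U X] [IsScalarTower K U X]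
  {O : ValuationSubring K} {t : K} {x : U} {B : Finset K} {L M : IntermediateField K U}
  {V : ValuationSubring U} {ℓ : ℕ}

omit [IsAlgClosed E] [CharZero E] [IsAlgClosed K] [Algebra E X] [IsScalarTower E K X]
  [Algebra E U] [IsScalarTower E K U] in
/-- automorphisms of `X` over `L` restrict to `U` -/
theorem restr_XU (hu : CSetup E X O t B x L M) (g' : X ≃ₐ[K] X)
    (hg' : ∀ l ∈ L, g' (algebraMap U X l) = algebraMap U X l) :
    ∃ g : U ≃ₐ[K] U, (∀ z : U, g' (algebraMap U X z) = algebraMap U X (g z)) ∧ (∀ l ∈ L, g l = l) := by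
  obtain ⟨g, hg⟩ := restr_autL g' (hu.stab g' hg') (hu.stab g'.symm (fun l hl => by
    rw [AlgEquiv.symm_apply_eq, hg' l hl]))
  refine ⟨g, hg, fun l hl => ?_⟩
  apply (algebraMap U X).injective
  rw [← hg, hg' l hl]

omit [IsAlgClosed E] [CharZero E] [IsAlgClosed K] [Algebra E X] [IsScalarTower E K X]
  [Algebra E U] [IsScalarTower E K U] in
/-- automorphisms of `PLf` over `L` lift to `U` -/
theorem exists_lift_L (hu : CSetup E X O t B x L M) (g : PLf ℓ M ≃ₐ[K] PLf ℓ M)
    (hg : ∀ l ∈ LL' ℓ hu.le, g l = l) :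
    ∃ g' : U ≃ₐ[K] U, (∀ z : PLf ℓ M, g' z = g z) ∧ (∀ l ∈ L, g' l = l) := by
  have hgal := hu.set.gal
  have hxP : x ∈ PLf ℓ M := le_PLf ℓ M (hu.le hu.x_mem)
  obtain ⟨h, hh⟩ := ext_autL (U := PLf ℓ M) (X := X) ⟨x, hxP⟩
    (show Normal (IntermediateField.adjoin K {algebraMap U X x}) X from inferInstance) g
    (hg ⟨x, hxP⟩ (mem_LL'.2 hu.x_mem))
  have hh2 : ∀ z : PLf ℓ M, h (algebraMap U X z) = algebraMap U X (g z) := hh
  obtain ⟨g', hg', hg'L⟩ := restr_XU hu h (fun l hl => by
    have h1 := hh2 ⟨l, le_PLf ℓ M (hu.le hl)⟩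
    rw [hg _ (mem_LL'.2 hl)] at h1
    exact h1)
  refine ⟨g', fun z => ?_, hg'L⟩
  apply (algebraMap U X).injective
  rw [← hg', hh2]

omit [IsAlgClosed E] [CharZero E] [IsAlgClosed K] [Algebra E X] [IsScalarTower E K X]
  [Algebra E U] [IsScalarTower E K U] in
theorem stabM_symm (hu : CSetup E X O t B x L M) (g : U ≃ₐ[K] U) (hg : ∀ l ∈ L, g l = l) :
    ∀ m ∈ M, g.symm m ∈ M :=
  hu.stabM g.symm (fun l hl => by rw [AlgEquiv.symm_apply_eq, hg l hl])

/-- the setup for the maximal pro-`ℓ` subextension -/
theorem csetupL (hu : CSetup E X O t B x L M) (hℓ : ℓ.Prime)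
    (hexp : ∀ g : U ≃ₐ[K] U, (∀ l ∈ L, g l = l) → ∀ m ∈ M, (g ^ ℓ) m = m)
    (x' : PLf ℓ M) (hx' : (x' : U) = x) :
    CSetupL ℓ E X O t B x' (LL' ℓ hu.le) (ML ℓ M) where
  set := by
    have h1 : algebraMap (PLf ℓ M) X x' = algebraMap U X x := by
      rw [← hx']
      rfl
    rw [h1]
    exact hu.set
  x_mem := mem_LL'.2 (by rw [hx']; exact hu.x_mem)
  le := fun z hz => mem_ML.2 (hu.le (mem_LL'.1 hz))
  cover := by
    have h0 : CharZero K := charZero_of_injective_algebraMap (algebraMap E K).injective
    exact covL_of_isCover hℓ.pos hu.cover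
  prime := hℓ
  stab := by
    intro g hg z
    obtain ⟨g', hg', hg'L⟩ := restr_XU hu g (fun l hl =>
      hg ⟨l, le_PLf ℓ M (hu.le hl)⟩ (mem_LL'.2 hl))
    refine ⟨⟨g' z, PLf_stable (g' : U ≃+* U) (fun m hm => hu.stabM g' hg'L m hm) z.2⟩, ?_⟩
    exact hg' z
  stabM := by
    intro g hg m hm
    obtain ⟨g', hg', hg'L⟩ := exists_lift_L hu g hg
    rw [mem_ML, ← hg']
    exact hu.stabM g' hg'L _ (mem_ML.1 hm)
  expM := by
    intro g hg m hm
    obtain ⟨g', hg', hg'L⟩ := exists_lift_L hu g hg
    have h1 : ∀ n : ℕ, (g' ^ n) (m : U) = ((g ^ n) m : PLf ℓ M) := by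
      intro n
      induction n with
      | zero => rw [pow_zero, pow_zero, AlgEquiv.one_apply, AlgEquiv.one_apply]
      | succ n ih =>
        rw [pow_succ', pow_succ', AlgEquiv.mul_apply, AlgEquiv.mul_apply, ih, hg']
    apply Subtype.ext
    rw [← h1]
    exact hexp g' hg'L _ (mem_ML.1 hm)

end Pool.Agent.GCL
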