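import Pool.Agent.Helper45.FF.PR.Defs

/-!
# Project FF, PRO: the action of the decomposition group of a place on the maximal pro-`ℓ` extension
-/

universe u

set_option autoImplicit false
set_option linter.unusedSectionVars false

namespace Pool.Agent.GCL

open VC Polynomial Pool.Agent.LT Pool.Agent.SC Pool.Agent.Helper91.Sect Pool.Agent Pool.Agent.GC

section fin

variable {k K : Type u} [Field k] [Field K] [Algebra k K] {ℓ : ℕ}
  {a : Gk k K →* (PLf ℓ (MM k K) ≃+* PLf ℓ (MM k K))}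

theorem ActK.fin_finset (A : ActK ℓ a) (Z : Finset (PLf ℓ (MM k K))) :
    ∃ L : IntermediateField k (kbar k K), FiniteDimensional k L ∧
      ∀ σ ∈ L.fixingSubgroup, ∀ w ∈ Z, a σ w = w := by
  classical
  induction Z using Finset.induction_on with
  | empty =>
    exact ⟨⊥, inferInstance, fun σ _ w hw => absurd hw (by simp)⟩
  | insert b Z _ ih =>
    obtain ⟨L, hL, h1⟩ := ih
    obtain ⟨L', hL', h2⟩ := A.fin b
    refine ⟨L ⊔ L', IntermediateField.finiteDimensional_sup L L', fun σ hσ w hw => ?_⟩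
    rw [IntermediateField.mem_fixingSubgroup_iff] at hσ
    rcases Finset.mem_insert.1 hw with rfl | hw
    · refine h2 σ ?_
      rw [IntermediateField.mem_fixingSubgroup_iff]
      exact fun z hz => hσ z (le_sup_right (a := L) (b := L') hz)
    · refine h1 σ ?_ w hw
      rw [IntermediateField.mem_fixingSubgroup_iff]
      exact fun z hz => hσ z (le_sup_left (a := L) (b := L') hz)

theorem coe_toL (c : K) : ((toL (k := k) ℓ c : PLf ℓ (MM k K)) : UU k K) =
    toU (k := k) (K := K) c := rfl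

theorem toL_mem (c : K) : toL (k := k) ℓ c ∈ ML ℓ (MM k K) := mem_ML.2 (toU_mem c)

/-- the action preserves `ML` -/
theorem ActK.stab (A : ActK ℓ a) (γ : Gk k K) (m : PLf ℓ (MM k K)) (hm : m ∈ ML ℓ (MM k K)) :
    a γ m ∈ ML ℓ (MM k K) := by
  rw [mem_ML, IntermediateField.mem_restrict] at hm
  let T : IntermediateField (kbar k K) (AlgebraicClosure K) :=
    { carrier := {z | ∃ w : PLf ℓ (MM k K), ((w : UU k K) : AlgebraicClosure K) = z ∧
        a γ w ∈ ML ℓ (MM k K)}
      mul_mem' := by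
        rintro _ _ ⟨v, rfl, hv⟩ ⟨w, rfl, hw⟩
        exact ⟨v * w, rfl, by rw [map_mul]; exact mul_mem hv hw⟩
      add_mem' := by
        rintro _ _ ⟨v, rfl, hv⟩ ⟨w, rfl, hw⟩
        exact ⟨v + w, rfl, by rw [map_add]; exact add_mem hv hw⟩
      algebraMap_mem' := fun c => ⟨algebraMap (kbar k K) _ c, rfl, by
        rw [A.const]
        exact (ML ℓ (MM k K)).algebraMap_mem _⟩
      inv_mem' := by
        rintro _ ⟨v, rfl, hv⟩
        exact ⟨v⁻¹, rfl, by rw [map_inv₀]; exact inv_mem hv⟩ }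
  have h1 : KK k K ≤ T := by
    refine IntermediateField.adjoin_le_iff.2 ?_
    rintro _ ⟨c, rfl⟩
    exact ⟨toL ℓ c, rfl, by rw [A.base]; exact toL_mem c⟩
  obtain ⟨w, hw, hw'⟩ := h1 hm
  have h2 : w = m := Subtype.ext (Subtype.ext hw)
  rwa [h2] at hw'

end fin

variable {k₁ k K : Type u} [Field k₁] [CharZero k₁] [Field k] [Field K] [Algebra k₁ k]
  [Algebra k K] [Algebra k₁ K] [IsScalarTower k₁ k K] {ℓ : ℕ}
  {a : Gk k K →* (PLf ℓ (MM k K) ≃+* PLf ℓ (MM k K))}

theorem locActL (A : ActK ℓ a)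
    (hF : ∃ S : Finset k₁, Subfield.closure (S : Set k₁) = ⊤)
    (t : k) (hfin : FiniteDimensional (IntermediateField.adjoin k₁ {t}) k)
    {W : ValuationSubring (kbar k K)} (hW : W ≠ ⊤)
    (hk₁ : ∀ c : k₁, algebraMap k₁ (kbar k K) c ∈ W) (x : K) :
    LocAct (algebraicClosure k₁ (kbar k K)) W (ML ℓ (MM k K)) (toL ℓ x) a (phi k K) (decW W)
      (inertW W) := by
  classical
  have hchar : CharZero k := charZero_of_injective_algebraMap (algebraMap k₁ k).injective
  have hFO : ∀ c : k₁, algebraMap k₁ k c ∈ W.comap (algebraMap k (kbar k K)) := fun c => by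
    rw [ValuationSubring.mem_comap, ← IsScalarTower.algebraMap_apply]
    exact hk₁ c
  have hres := resid_fg_gen (k := k) hF t hfin hW hk₁
  refine ⟨fun γ c => A.const γ c, fun γ => A.base γ x, A.stab, ?_, ?_, ?_, ?_, ?_, ?_, ?_⟩
  · intro γ e
    refine ⟨⟨γ e, mem_algebraicClosure_iff.2 ?_⟩, rfl⟩
    exact (mem_algebraicClosure_iff.1 e.2).algHom
      ((γ : kbar k K →ₐ[k] kbar k K).restrictScalars k₁)
  · intro γ hγ c
    exact hγ c
  · intro γ hγ
    exact hγ.1
  · intro γ hγ τ hτ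
    refine ⟨(decW W).mul_mem ((decW W).mul_mem hγ hτ.1) ((decW W).inv_mem hγ), fun z hz => ?_⟩
    have h1 : γ (γ⁻¹ z) = z := γ.apply_symm_apply z
    have h2 : γ⁻¹ z ∈ W := ((decW W).inv_mem hγ z).2 hz
    have h3 : (γ * τ * γ⁻¹) z - z = γ (τ (γ⁻¹ z) - γ⁻¹ z) := by
      rw [map_sub, h1]
      rfl
    rw [h3, InDecomp.nonunits_iff hγ]
    exact hτ.2 _ h2
  · intro τ hτ c hc
    exact hτ.2 c hc
  · intro Z S hS
    obtain ⟨L, hL, hLfix⟩ := A.fin_finset Z
    obtain ⟨γ, V, p, f, σ, hγL, hγ, hσ, hp, hf, hpV, -, hSV, hrk, hst', hfr⟩ :=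
      SC.FR.exists_frob_gen hFO hres (H1.cen k W) (H1.above_cen W) L S hS 1 one_pos
    refine ⟨γ, F1.mem_decW_of_inD hγ, fun z hz => hLfix γ hγL z hz, V,
      (σ : algebraicClosure k₁ (kbar k K) ≃+* algebraicClosure k₁ (kbar k K)), p, f,
      ⟨hp, hf, hrk, hpV, hst', hfr, ?_⟩, fun c => hσ c, hSV⟩
    intro z
    obtain ⟨m, hm, hmz⟩ := exists_autpow_fix σ (z := z)
      (Algebra.IsAlgebraic.isAlgebraic (R := k₁) z)
    refine ⟨m, hm, ?_⟩
    have h1 : ∀ i : ℕ, ((σ : algebraicClosure k₁ (kbar k K) ≃+* algebraicClosure k₁ (kbar k K)) :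
        algebraicClosure k₁ (kbar k K) → algebraicClosure k₁ (kbar k K))^[i] z = (σ ^ i) z := by
      intro i
      induction i with
      | zero => rfl
      | succ i ih =>
        rw [Function.iterate_succ_apply', ih, pow_succ', AlgEquiv.mul_apply]
        rfl
    rw [h1, hmz]
  · intro γ hγ τ hτ z m hm
    obtain ⟨L, hL, hfix⟩ := A.fin z
    obtain ⟨L', hL'⟩ : ∃ L' : IntermediateField k (kbar k K),
        L' = IntermediateField.normalClosure k L (kbar k K) := ⟨_, rfl⟩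
    have hle : L ≤ L' := by rw [hL']; exact IntermediateField.le_normalClosure L
    have hfd : FiniteDimensional k L' := by
      rw [hL']; exact normalClosure.is_finiteDimensional k L (kbar k K)
    have hnorm : Normal k L' := by
      rw [hL']; exact normalClosure.normal k L (kbar k K)
    obtain ⟨j, hj1, hj2⟩ := tame_relation (H1.cen k W) (residue_unit hFO (H1.cen k W))
      (InDecomp.inD hγ) (InInert.inI hτ) L' m hm
    refine ⟨j, hj1, ?_⟩
    obtain ⟨σ, hσ⟩ : ∃ σ, σ = (τ ^ j)⁻¹ * (γ * τ * γ⁻¹) := ⟨_, rfl⟩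
    have hσL : σ ∈ L.fixingSubgroup := by
      rw [IntermediateField.mem_fixingSubgroup_iff]
      intro z hz
      have h1 := hj2 z (hle hz)
      rw [hσ]
      change (τ ^ j)⁻¹ ((γ * τ * γ⁻¹) z) = z
      rw [h1]
      change ((τ ^ j)⁻¹ * (τ ^ j)) z = z
      rw [inv_mul_cancel]; rfl
    have h2 : γ * τ * γ⁻¹ = τ ^ j * σ := by rw [hσ, mul_inv_cancel_left]
    rw [h2, map_mul]
    change a (τ ^ j) (a σ z) = _
    rw [hfix σ hσL]

end Pool.Agent.GCL
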