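import Pool.Agent.Helper45.FF.PR.G1
import Pool.Agent.Helper13.GC.C7

/-!
# Project FF, PRO: inertia is trivial on the residue field of `LL` (compare `Helper13/GC/C7.lean`)
-/

universe u

set_option linter.unusedSectionVars false

namespace Pool.Agent.GCL

open VC Polynomial Pool.Agent.LT Pool.Agent.SC Pool.Agent.Helper91.Sect Pool.Agent Pool.Agent.GC

variable {k₁ k K₀ K : Type u} [Field k₁] [CharZero k₁] [Field k] [Field K₀] [Field K]
  [Algebra k₁ k] [Algebra k K₀] [Algebra k K] [Algebra K₀ K] [IsScalarTower k K₀ K]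
  [Algebra k₁ K] [IsScalarTower k₁ k K]
  {n : ℕ} {c : k} {g x z₀ : K₀} {f : k[X]} {S : Finset k} {y : K}

section auxG2

private lemma toU_constG2 (a : k) : toU (k := k) (K := K) (algebraMap k K a) =
    algebraMap (kbar k K) (UU k K) (algebraMap k (kbar k K) a) := by
  apply Subtype.ext
  rw [coe_toU]
  exact (IsScalarTower.algebraMap_apply k K (AlgebraicClosure K) a).symm

private lemma nonunitsWG2 {U : Type u} [Field U] {V : ValuationSubring U} {g : U ≃+* U}
    (hst : ∀ z, g z ∈ V ↔ z ∈ V) (z : U) : g z ∈ V.nonunits ↔ z ∈ V.nonunits := by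
  rw [ValuationSubring.mem_nonunits_iff_or, ValuationSubring.mem_nonunits_iff_or, ← map_inv₀, hst,
    map_eq_zero_iff g g.injective]

private lemma ind_homWG2 {E U R : Type u} [Field E] [Field U] [Algebra E U] [Field R]
    [Algebra E R] {V : ValuationSubring U} {π : V →+* R} (hR : Res E V π) (g : U ≃+* U)
    (hst : ∀ z, g z ∈ V ↔ z ∈ V) :
    ∃ ρ : R →+* R, ∀ z w : V, (w : U) = g (z : U) → ρ (π z) = π w := by
  let f : V →+* V :=
    { toFun := fun z => ⟨g (z : U), (hst z).2 z.2⟩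
      map_one' := Subtype.ext (map_one g)
      map_mul' := fun a b => Subtype.ext (map_mul g (a : U) b)
      map_zero' := Subtype.ext (map_zero g)
      map_add' := fun a b => Subtype.ext (map_add g (a : U) b) }
  have hker : RingHom.ker π ≤ RingHom.ker (π.comp f) := by
    intro z hz
    rw [RingHom.mem_ker] at hz ⊢
    rw [RingHom.comp_apply, hR.ker]
    exact (nonunitsWG2 hst z).2 ((hR.ker z).1 hz)
  refine ⟨π.liftOfSurjective hR.surj ⟨π.comp f, hker⟩, fun z w hw => ?_⟩
  rw [RingHom.liftOfSurjective_comp_apply]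
  show π (f z) = π w
  congr 1
  exact Subtype.ext hw.symm

/-- an automorphism which is trivial on the residues of `E` induces an automorphism over `E` -/
private lemma indWG2 {E U R : Type u} [Field E] [Field U] [Algebra E U] [Field R]
    [Algebra E R] {V : ValuationSubring U} {π : V →+* R} (hR : Res E V π) (g : U ≃+* U)
    (hst : ∀ z, g z ∈ V ↔ z ∈ V) (hE : ∀ e : E, algebraMap E U e ∈ V)
    (hEg : ∀ e : E, g (algebraMap E U e) - algebraMap E U e ∈ V.nonunits) :
    ∃ ρ : R ≃ₐ[E] R, Induces π g ρ := by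
  have hst' : ∀ z, g.symm z ∈ V ↔ z ∈ V := by
    intro z
    rw [← hst, g.apply_symm_apply]
  obtain ⟨ρ1, h1⟩ := ind_homWG2 hR g hst
  obtain ⟨ρ2, h2⟩ := ind_homWG2 hR g.symm hst'
  have e1 : ρ2.comp ρ1 = RingHom.id R := by
    ext r
    obtain ⟨z, rfl⟩ := hR.surj r
    rw [RingHom.comp_apply, h1 z ⟨g z, (hst z).2 z.2⟩ rfl, h2 _ z (g.symm_apply_apply (z : U)).symm]
    rfl
  have e2 : ρ1.comp ρ2 = RingHom.id R := by
    ext r
    obtain ⟨z, rfl⟩ := hR.surj r
    rw [RingHom.comp_apply, h2 z ⟨g.symm z, (hst' z).2 z.2⟩ rfl,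
      h1 _ z (g.apply_symm_apply (z : U)).symm]
    rfl
  let ρ : R ≃+* R := RingEquiv.ofRingHom ρ1 ρ2 e2 e1
  refine ⟨AlgEquiv.ofRingEquiv (f := ρ) ?_, ?_⟩
  · intro e
    have hgE : g (algebraMap E U e) ∈ V := (hst _).2 (hE e)
    have h3 : ρ (π ⟨_, hE e⟩) = π ⟨_, hgE⟩ := h1 _ _ rfl
    have h4 : π ⟨_, hgE⟩ - π ⟨_, hE e⟩ = 0 := by
      rw [← map_sub]
      exact (hR.ker _).2 (hEg e)
    rw [← hR.const e ⟨_, hE e⟩ rfl, h3]
    exact sub_eq_zero.1 h4
  · intro z w hw
    exact h1 z w hw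

end auxG2

/-- the consequences of `h.good` at a Gauss extension -/
theorem goodG2 (h : CycE n c g x z₀ f S y) {W : ValuationSubring (kbar k K)}
    {t' : kbar k K}
    (hb : Base (algebraicClosure k₁ (kbar k K)) W t') (hf : GoodRed W f)
    (hS : ∀ c ∈ S, algebraMap k (kbar k K) c ∈ W) {N : Type u} [Field N]
    [Algebra (kbar k K) N] (i : UU k K →ₐ[kbar k K] N)
    {V : ValuationSubring N}
    (hV : Gauss (algebraicClosure k₁ (kbar k K)) W (i (toU (k := k) (K := K) (algebraMap K₀ K x))) V) :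
    i (toU (k := k) (K := K) (algebraMap K₀ K g)) ∈ V ∧ i (toU (k := k) (K := K) (algebraMap K₀ K g)) ∉ V.nonunits ∧
      i (toU (k := k) (K := K) (algebraMap K₀ K z₀)) ∈ V ∧
      ∀ σ : N →+* N, (∀ c : kbar k K, σ (algebraMap (kbar k K) N c) = algebraMap (kbar k K) N c) →
        σ (i (toU (k := k) (K := K) (algebraMap K₀ K x))) = i (toU (k := k) (K := K) (algebraMap K₀ K x)) →
        σ (i (toU (k := k) (K := K) (algebraMap K₀ K z₀))) - i (toU (k := k) (K := K) (algebraMap K₀ K z₀)) ∈ V.nonunits →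
        σ (i (toU (k := k) (K := K) (algebraMap K₀ K z₀))) = i (toU (k := k) (K := K) (algebraMap K₀ K z₀)) := by
  let j : K₀ →+* N := (i : UU k K →+* N).comp ((toU (k := k) (K := K)).comp (algebraMap K₀ K))
  let _ : Algebra K₀ N := j.toAlgebra
  have hj : ∀ w : K₀, algebraMap K₀ N w = i (toU (k := k) (K := K) (algebraMap K₀ K w)) := fun _ => rfl
  have hjc : ∀ c : k, algebraMap K₀ N (algebraMap k K₀ c) =
      algebraMap (kbar k K) N (algebraMap k (kbar k K) c) := by
    intro c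
    rw [hj, ← IsScalarTower.algebraMap_apply k K₀ K, toU_constG2, AlgHom.commutes]
  have hjf : algebraMap K₀ N (aeval x f) =
      aeval (i (toU (k := k) (K := K) (algebraMap K₀ K x))) (f.map (algebraMap k (kbar k K))) := by
    rw [aeval_def, hom_eval₂, aeval_def, eval₂_map]
    have e : (algebraMap K₀ N).comp (algebraMap k K₀) =
        (algebraMap (kbar k K) N).comp (algebraMap k (kbar k K)) := RingHom.ext hjc
    rw [e, hj]
  have c1 : ∀ c ∈ S, algebraMap K₀ N (algebraMap k K₀ c) ∈ V := by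
    intro c hc
    rw [hjc, hV.mem_iff]
    exact hS c hc
  have c2 : algebraMap K₀ N x ∈ V := hV.x_mem
  have c3 : algebraMap K₀ N (aeval x f) ∉ V.nonunits := by
    rw [hjf, ValuationSubring.mem_nonunits_iff, val_f (x := algebraMap K₀ K x) hb hf hV]
    exact lt_irrefl _
  have h1 := h.good N V c1 c2 c3
  refine ⟨h1.1, h1.2.1, h1.2.2.1, fun σ hσ hσx hσz => h1.2.2.2 σ (fun c => ?_) hσx hσz⟩
  rw [hjc, hσ]


/-- The action extends to `XX`. -/
theorem exists_extXL {ℓ : ℕ} {a : Gk k K →* (PLf ℓ (MM k K) ≃+* PLf ℓ (MM k K))}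
    (h : CycE n c g x z₀ f S y) (hk : CharZero k) (A : ActK ℓ a) (γ : Gk k K) :
    ∃ σ' : XX (algebraMap K₀ K x) (rootsB K f) ≃+* XX (algebraMap K₀ K x) (rootsB K f),
      (∀ z : PLf ℓ (MM k K), (σ' ⟨(z : UU k K), h.UU_le (z : UU k K).2⟩ : AlgebraicClosure K) =
        ((a γ z : PLf ℓ (MM k K)) : UU k K)) ∧
      ∀ c : kbar k K, σ' (algebraMap (kbar k K) _ c) = algebraMap (kbar k K) _ (γ c) := by
  let i1 : Algebra K (PLf ℓ (MM k K)) := ((toU (k := k) (K := K)).codRestrict
    (PLf ℓ (MM k K)).toSubring (fun c => le_PLf ℓ (MM k K) (toU_mem c))).toAlgebra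
  have s1 : IsScalarTower K (PLf ℓ (MM k K)) (AlgebraicClosure K) :=
    IsScalarTower.of_algebraMap_eq fun _ => rfl
  let aK : PLf ℓ (MM k K) ≃ₐ[K] PLf ℓ (MM k K) :=
    AlgEquiv.ofRingEquiv (f := a γ) (fun c => A.base γ c)
  obtain ⟨ρ, hρ⟩ : ∃ ρ : AlgebraicClosure K ≃ₐ[K] AlgebraicClosure K,
      ∀ z : PLf ℓ (MM k K), ρ ((z : UU k K) : AlgebraicClosure K) =
        ((a γ z : PLf ℓ (MM k K)) : UU k K) :=
    ⟨aK.liftNormal (AlgebraicClosure K), fun z => aK.liftNormal_commutes (AlgebraicClosure K) z⟩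
  have hc : ∀ c : kbar k K, ρ c = γ c := fun c => by
    have h1 := hρ (algebraMap (kbar k K) (PLf ℓ (MM k K)) c)
    rw [A.const] at h1
    exact h1
  have hc' : ∀ c : kbar k K, ρ.symm c = (γ.symm c : kbar k K) := by
    intro c
    rw [AlgEquiv.symm_apply_eq, hc, AlgEquiv.apply_symm_apply]
  have hB : ∀ (δ : Gk k K) (b : kbar k K), phi k K δ b ∈ rootsB K f → b ∈ rootsB K f := by
    intro δ b hb
    have h1 := phi_rootsB (f := f) δ⁻¹ hb
    have h2 : phi k K δ⁻¹ (phi k K δ b) = b := δ.symm_apply_apply b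
    rwa [h2] at h1
  have m1 : ∀ z ∈ XX (algebraMap K₀ K x) (rootsB K f),
      ρ z ∈ XX (algebraMap K₀ K x) (rootsB K f) := by
    intro z hz
    exact XX_stable (ρ : AlgebraicClosure K ≃+* AlgebraicClosure K) (phi k K γ) hc
      (ρ.commutes _) (fun b => hB γ b) (fun b hb => phi_rootsB γ hb) hz
  have m2 : ∀ z ∈ XX (algebraMap K₀ K x) (rootsB K f),
      ρ.symm z ∈ XX (algebraMap K₀ K x) (rootsB K f) := by
    intro z hz
    exact XX_stable (ρ.symm : AlgebraicClosure K ≃+* AlgebraicClosure K) (phi k K γ⁻¹) hc'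
      (ρ.symm.commutes _) (fun b => hB γ⁻¹ b) (fun b hb => phi_rootsB γ⁻¹ hb) hz
  refine ⟨{ toFun := fun z => ⟨ρ z, m1 z z.2⟩
            invFun := fun z => ⟨ρ.symm z, m2 z z.2⟩
            left_inv := fun z => Subtype.ext (ρ.symm_apply_apply (z : AlgebraicClosure K))
            right_inv := fun z => Subtype.ext (ρ.apply_symm_apply (z : AlgebraicClosure K))
            map_mul' := fun a b => Subtype.ext (map_mul ρ (a : AlgebraicClosure K) b)
            map_add' := fun a b => Subtype.ext (map_add ρ (a : AlgebraicClosure K) b) },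
    fun z => hρ z, fun c => ?_⟩
  apply Subtype.ext
  exact hc c

/-- Inertia is trivial on the residue field of `LL`. -/
theorem inert_trivial_LLL {ℓ : ℕ} {a : Gk k K →* (PLf ℓ (MM k K) ≃+* PLf ℓ (MM k K))}
    (h : CycE n c g x z₀ f S y) (A : ActK ℓ a)
    {W : ValuationSubring (kbar k K)} {t' : kbar k K}
    (hb : Base (algebraicClosure k₁ (kbar k K)) W t') (hf : GoodRed W f)
    (hS : ∀ c ∈ S, algebraMap k (kbar k K) c ∈ W)
    {V : ValuationSubring (PLf ℓ (MM k K))}
    (hV : Gauss (algebraicClosure k₁ (kbar k K)) W (toL (k := k) ℓ (algebraMap K₀ K x)) V) {τ : Gk k K}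
    (hτ : InInert W τ) {z : PLf ℓ (MM k K)} (hz : z ∈ V) (hzL : (z : UU k K) ∈ LL k K₀ K) :
    a τ z - z ∈ V.nonunits := by
  have hac : IsAlgClosed (algebraicClosure k₁ (kbar k K)) :=
    (inferInstance : IsAlgClosure k₁ (algebraicClosure k₁ (kbar k K))).isAlgClosed
  have hk0 : CharZero k := charZero_of_injective_algebraMap (algebraMap k₁ k).injective
  let iUX : Algebra (UU k K) (XX (algebraMap K₀ K x) (rootsB K f)) := algUX h.UU_le
  have st1 : IsScalarTower (kbar k K) (UU k K) (XX (algebraMap K₀ K x) (rootsB K f)) :=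
    IsScalarTower.of_algebraMap_eq fun _ => rfl
  have st2 : IsScalarTower (algebraicClosure k₁ (kbar k K)) (UU k K)
      (XX (algebraMap K₀ K x) (rootsB K f)) := IsScalarTower.of_algebraMap_eq fun _ => rfl
  have st3 : IsScalarTower (kbar k K) (PLf ℓ (MM k K)) (XX (algebraMap K₀ K x) (rootsB K f)) :=
    IsScalarTower.of_algebraMap_eq fun _ => rfl
  have st4 : IsScalarTower (algebraicClosure k₁ (kbar k K)) (PLf ℓ (MM k K))
      (XX (algebraMap K₀ K x) (rootsB K f)) := IsScalarTower.of_algebraMap_eq fun _ => rfl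
  have hu := h.csetup hb hf hk0
  -- the embedding
  let i : UU k K →ₐ[kbar k K] XX (algebraMap K₀ K x) (rootsB K f) :=
    IsScalarTower.toAlgHom (kbar k K) (UU k K) (XX (algebraMap K₀ K x) (rootsB K f))
  obtain ⟨V', hV', hcomap⟩ := exists_gauss_ext (X := XX (algebraMap K₀ K x) (rootsB K f)) hV
  obtain ⟨σ', hσU, hσc⟩ := exists_extXL h hk0 A τ
  have hσi : ∀ w : PLf ℓ (MM k K), σ' (i w) = i (a τ w : PLf ℓ (MM k K)) := fun w =>
    Subtype.ext (hσU w)
  have hσK : ∀ w : K, σ' (i (toU (k := k) (K := K) w)) = i (toU (k := k) (K := K) w) := by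
    intro w
    have h1 := hσi (toL ℓ w)
    rw [A.base] at h1
    exact h1
  have hσx : σ' (i (toU (k := k) (K := K) (algebraMap K₀ K x))) =
      i (toU (k := k) (K := K) (algebraMap K₀ K x)) := hσK _
  have hV'2 : Gauss (algebraicClosure k₁ (kbar k K)) W
      (i (toU (k := k) (K := K) (algebraMap K₀ K x))) V' := hV'
  have hst : ∀ w, σ' w ∈ V' ↔ w ∈ V' := fun w =>
    hu.set.stable hV'2 σ' (phi k K τ) hσc (fun a => hτ.1 a) hσx w
  have hE : ∀ e : algebraicClosure k₁ (kbar k K),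
      algebraMap (algebraicClosure k₁ (kbar k K)) (XX (algebraMap K₀ K x) (rootsB K f)) e ∈
        V' := by
    intro e
    have h1 : algebraMap (algebraicClosure k₁ (kbar k K))
        (XX (algebraMap K₀ K x) (rootsB K f)) e =
      algebraMap (kbar k K) (XX (algebraMap K₀ K x) (rootsB K f))
        (algebraMap _ (kbar k K) e) := rfl
    rw [h1, hV'.mem_iff]
    exact hb.const e
  -- the residue field
  let iota : algebraicClosure k₁ (kbar k K) →+* V' :=
    (algebraMap (algebraicClosure k₁ (kbar k K))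
      (XX (algebraMap K₀ K x) (rootsB K f))).codRestrict V'.toSubring hE
  let iA : Algebra (algebraicClosure k₁ (kbar k K)) (IsLocalRing.ResidueField V') :=
    ((IsLocalRing.residue V').comp iota).toAlgebra
  have hR : Res (algebraicClosure k₁ (kbar k K)) V' (IsLocalRing.residue V') := by
    refine ⟨IsLocalRing.residue_surjective, fun w => ?_, fun e w hw => ?_⟩
    · rw [IsLocalRing.residue_eq_zero_iff, ValuationSubring.coe_mem_nonunits_iff]
    · have h1 : w = iota e := Subtype.ext hw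
      rw [h1]
      rfl
  obtain ⟨ρ, hρ⟩ := indWG2 hR σ' hst hE (by
    intro e
    have h1 : algebraMap (algebraicClosure k₁ (kbar k K))
        (XX (algebraMap K₀ K x) (rootsB K f)) e =
      algebraMap (kbar k K) (XX (algebraMap K₀ K x) (rootsB K f))
        (algebraMap _ (kbar k K) e) := rfl
    rw [h1, hσc, ← map_sub, ValuationSubring.mem_nonunits_iff, A1.val_lt_one_iff hV',
      ← ValuationSubring.mem_nonunits_iff]
    exact hτ.2 _ (hb.const e))
  obtain ⟨g', hgx, hg⟩ := hu.set.exists_induces hV'2 hR ρ (hρ _ _ hσx.symm)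
  have hgst : ∀ w, w ∈ V' → g' w ∈ V' := fun w hw =>
    (hu.set.stable hV'2 (g' : XX (algebraMap K₀ K x) (rootsB K f) ≃+*
        XX (algebraMap K₀ K x) (rootsB K f)) (RingEquiv.refl _) (fun a => g'.commutes a)
      (fun _ => Iff.rfl) hgx w).2 hw
  have hcmp : ∀ w (hw : w ∈ V'), σ' w - g' w ∈ V'.nonunits := by
    intro w hw
    have h1 := hρ ⟨w, hw⟩ ⟨σ' w, (hst w).2 hw⟩ rfl
    have h2 := hg ⟨w, hw⟩ ⟨g' w, hgst w hw⟩ rfl
    have h3 : IsLocalRing.residue V' (⟨σ' w, (hst w).2 hw⟩ - ⟨g' w, hgst w hw⟩) = 0 := by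
      rw [map_sub, ← h1, ← h2, sub_self]
    exact (hR.ker _).1 h3
  obtain ⟨-, -, hz0, hrig⟩ := goodG2 h hb hf hS i hV'2
  have hgz : g' (i (toU (k := k) (K := K) (algebraMap K₀ K z₀))) = i (toU (k := k) (K := K) (algebraMap K₀ K z₀)) := by
    refine hrig (g' : XX (algebraMap K₀ K x) (rootsB K f) →+*
        XX (algebraMap K₀ K x) (rootsB K f)) (fun c => g'.commutes c) hgx ?_
    have h1 := hcmp _ hz0
    rw [hσK, ValuationSubring.mem_nonunits_iff] at h1
    rw [ValuationSubring.mem_nonunits_iff, ← Valuation.map_neg, neg_sub]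
    exact h1
  have hfix : g' (i z) = i z := h.fix_LL i
    ((g' : XX (algebraMap K₀ K x) (rootsB K f) →ₐ[kbar k K]
        XX (algebraMap K₀ K x) (rootsB K f)).comp i) hgx hgz z hzL
  have hiz : i z ∈ V' := by
    rw [← hcomap] at hz
    exact hz
  have h1 := hcmp _ hiz
  rw [hσi, hfix, ← map_sub] at h1
  rw [← hcomap, comap_nonunits]
  exact h1

/-- `g` is a unit at the Gauss extension. -/
theorem val_gL {ℓ : ℕ} (h : CycE n c g x z₀ f S y)
    {W : ValuationSubring (kbar k K)} {t' : kbar k K}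
    (hb : Base (algebraicClosure k₁ (kbar k K)) W t') (hf : GoodRed W f)
    (hS : ∀ c ∈ S, algebraMap k (kbar k K) c ∈ W)
    {V : ValuationSubring (PLf ℓ (MM k K))}
    (hV : Gauss (algebraicClosure k₁ (kbar k K)) W (toL (k := k) ℓ (algebraMap K₀ K x)) V) :
    V.valuation (toL (k := k) ℓ (algebraMap K₀ K g)) = 1 := by
  have hac : IsAlgClosed (algebraicClosure k₁ (kbar k K)) :=
    (inferInstance : IsAlgClosure k₁ (algebraicClosure k₁ (kbar k K))).isAlgClosed
  have st4 : IsScalarTower (algebraicClosure k₁ (kbar k K)) (PLf ℓ (MM k K))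
      (UU k K) := IsScalarTower.of_algebraMap_eq fun _ => rfl
  obtain ⟨V', hV', hcomap⟩ := exists_gauss_ext (X := UU k K) hV
  have h1 := h.val_g hb hf hS (V := V') hV'
  have h2 := SC.val_eq_of_map (algebraMap (PLf ℓ (MM k K)) (UU k K)) (W := V) (V := V')
    (u := toL (k := k) ℓ (algebraMap K₀ K g)) (v := 1) (fun u => by rw [← hcomap]; rfl) (by
      rw [map_one, map_one]
      exact h1)
  rw [h2, map_one]

end Pool.Agent.GCL
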