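import Pool.Agent.Helper45.FF.PR.G2
import Pool.Agent.Helper13.GC.C8
import Pool.Agent.Helper45.FF.PR.D7

/-!
# Project FF, PRO: inertia is trivial on the residue field of `ML` if `c` is a unit
(compare `Helper13/GC/C8.lean`)
-/

universe u

set_option linter.unusedSectionVars false

namespace Pool.Agent.GCL

open VC Polynomial Pool.Agent.LT Pool.Agent.SC Pool.Agent.Helper91.Sect Pool.Agent Pool.Agent.GC

variable {k₁ k K₀ K : Type u} [Field k₁] [CharZero k₁] [Field k] [Field K₀] [Field K]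
  [Algebra k₁ k] [Algebra k K₀] [Algebra k K] [Algebra K₀ K] [IsScalarTower k K₀ K]
  [Algebra k₁ K] [IsScalarTower k₁ k K]
  {n : ℕ} {c : k} {g x z₀ : K₀} {f : k[X]} {S : Finset k} {y : K}

section auxG3

private lemma g3_val_eq_oneG3 {ℓ : ℕ} {V : ValuationSubring (PLf ℓ (MM k K))} {W : ValuationSubring (kbar k K)} {x : K}
    (hV : Gauss (algebraicClosure k₁ (kbar k K)) W (toL (k := k) ℓ x) V) {a : kbar k K} (ha : W.valuation a = 1) :
    V.valuation (algebraMap (kbar k K) (PLf ℓ (MM k K)) a) = 1 := by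
  have h1 := A1.val_congr hV (c := a) (d := 1) (by rw [ha, map_one])
  rw [h1, map_one, map_one]

private lemma g3_val_unitG3 {W : ValuationSubring (kbar k K)} {a : kbar k K} (h1 : a ∈ W)
    (h2 : a ∉ W.nonunits) : W.valuation a = 1 := by
  rw [ValuationSubring.mem_nonunits_iff] at h2
  exact le_antisymm ((W.valuation_le_one_iff _).2 h1) (not_lt.1 h2)

private lemma g3_pow_eq_oneG3 {F : Type u} [Field F] (V : ValuationSubring F) {a : F} {m : ℕ}
    (hm : m ≠ 0) (h : V.valuation a ^ m = 1) : V.valuation a = 1 :=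
  (pow_eq_one_iff_of_nonneg zero_le hm).1 h

private lemma g3_root_EG3 {ζ : kbar k K} {m : ℕ} (hm : m ≠ 0) (h : ζ ^ m = 1) :
    ∃ e : (algebraicClosure k₁ (kbar k K)), algebraMap (algebraicClosure k₁ (kbar k K)) (kbar k K) e = ζ := by
  have h1 : IsIntegral k₁ ζ := IsIntegral.of_pow (Nat.pos_of_ne_zero hm) (by
    rw [h]
    exact isIntegral_one)
  exact ⟨⟨ζ, mem_algebraicClosure_iff.2 h1.isAlgebraic⟩, rfl⟩

private lemma g3_root_unitG3 {W : ValuationSubring (kbar k K)} {t' : kbar k K}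
    (hb : Base (algebraicClosure k₁ (kbar k K)) W t') {ζ : kbar k K} {m : ℕ} (hm : m ≠ 0) (h : ζ ^ m = 1) (h1 : ζ ≠ 1) :
    W.valuation (ζ - 1) = 1 := by
  obtain ⟨e, rfl⟩ := g3_root_EG3 (k₁ := k₁) hm h
  have h2 : e - 1 ≠ 0 := by
    intro h0
    apply h1
    rw [sub_eq_zero.1 h0, map_one]
  have h3 := A1.val_const hb h2
  rwa [map_sub, map_one] at h3

private lemma g3_nonunitsG3 {U : Type u} [Field U] {V : ValuationSubring U} {g : U ≃+* U}
    (hst : ∀ z, g z ∈ V ↔ z ∈ V) (z : U) : g z ∈ V.nonunits ↔ z ∈ V.nonunits := by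
  rw [ValuationSubring.mem_nonunits_iff_or, ValuationSubring.mem_nonunits_iff_or, ← map_inv₀, hst,
    map_eq_zero_iff g g.injective]

private lemma g3_ind_homG3 {E U R : Type u} [Field E] [Field U] [Algebra E U] [Field R]
    [Algebra E R] {V : ValuationSubring U} {π : V →+* R} (hR : Res E V π) (g : U ≃+* U)
    (hst : ∀ z, g z ∈ V ↔ z ∈ V) :
    ∃ ρ : R →+* R, ∀ z w : V, (w : U) = g (z : U) → ρ (π z) = π w := by
  let f : V →+* V :=
    { toFun := fun z => ⟨g (z : U), (hst z).2 z.2⟩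
      map_one' := Subtype.ext (map_one g)
      map_mul' := fun a b => Subtype.ext (map_mul g (a : U) b)
      map_zero' := Subtype.ext (map_zero g)
      map_add' := fun a b => Subtype.ext (map_add g (a : U) b) }
  have hker : RingHom.ker π ≤ RingHom.ker (π.comp f) := by
    intro z hz
    rw [RingHom.mem_ker] at hz ⊢
    rw [RingHom.comp_apply, hR.ker]
    exact (g3_nonunitsG3 hst z).2 ((hR.ker z).1 hz)
  refine ⟨π.liftOfSurjective hR.surj ⟨π.comp f, hker⟩, fun z w hw => ?_⟩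
  rw [RingHom.liftOfSurjective_comp_apply]
  show π (f z) = π w
  congr 1
  exact Subtype.ext hw.symm

private lemma g3_indG3 {E U R : Type u} [Field E] [Field U] [Algebra E U] [Field R]
    [Algebra E R] {V : ValuationSubring U} {π : V →+* R} (hR : Res E V π) (g : U ≃+* U)
    (hst : ∀ z, g z ∈ V ↔ z ∈ V) (hE : ∀ e : E, algebraMap E U e ∈ V)
    (hEg : ∀ e : E, g (algebraMap E U e) - algebraMap E U e ∈ V.nonunits) :
    ∃ ρ : R ≃ₐ[E] R, Induces π g ρ := by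
  have hst' : ∀ z, g.symm z ∈ V ↔ z ∈ V := by
    intro z
    rw [← hst, g.apply_symm_apply]
  obtain ⟨ρ1, h1⟩ := g3_ind_homG3 hR g hst
  obtain ⟨ρ2, h2⟩ := g3_ind_homG3 hR g.symm hst'
  have e1 : ρ2.comp ρ1 = RingHom.id R := by
    ext r
    obtain ⟨z, rfl⟩ := hR.surj r
    rw [RingHom.comp_apply, h1 z ⟨g z, (hst z).2 z.2⟩ rfl, h2 _ z (g.symm_apply_apply (z : U)).symm]
    rfl
  have e2 : ρ1.comp ρ2 = RingHom.id R := by
    ext r
    obtain ⟨z, rfl⟩ := hR.surj r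
    rw [RingHom.comp_apply, h2 z ⟨g.symm z, (hst' z).2 z.2⟩ rfl,
      h1 _ z (g.apply_symm_apply (z : U)).symm]
    rfl
  let ρ : R ≃+* R := RingEquiv.ofRingHom ρ1 ρ2 e2 e1
  refine ⟨AlgEquiv.ofRingEquiv (f := ρ) ?_, ?_⟩
  · intro e
    have hgE : g (algebraMap E U e) ∈ V := (hst _).2 (hE e)
    have h3 : ρ (π ⟨_, hE e⟩) = π ⟨_, hgE⟩ := h1 _ _ rfl
    have h4 : π ⟨_, hgE⟩ - π ⟨_, hE e⟩ = 0 := by
      rw [← map_sub]
      exact (hR.ker _).2 (hEg e)
    rw [← hR.const e ⟨_, hE e⟩ rfl, h3]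
    exact sub_eq_zero.1 h4
  · intro z w hw
    exact h1 z w hw

end auxG3

/-- automorphisms over `LL` multiply `y` with a root of unity -/
theorem exists_zetaL {ℓ : ℕ} [CharZero k] (h : CycE n c g x z₀ f S y)
    (σ : PLf ℓ (MM k K) ≃ₐ[kbar k K] PLf ℓ (MM k K))
    (hσ : ∀ l : PLf ℓ (MM k K), (l : UU k K) ∈ LL k K₀ K → σ l = l) :
    ∃ ζ : kbar k K, ζ ^ n = 1 ∧ σ (toL ℓ y) = algebraMap (kbar k K) (PLf ℓ (MM k K)) ζ * toL ℓ y := by
  have heq : algebraMap (kbar k K) (PLf ℓ (MM k K)) (algebraMap k (kbar k K) c) * toL ℓ y ^ n =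
      toL (k := k) ℓ (algebraMap K₀ K g) := Subtype.ext h.eqU
  have hy0 : (toL ℓ y : PLf ℓ (MM k K)) ≠ 0 := by
    intro h0
    have h1 : toU (k := k) (K := K) y = 0 := congrArg Subtype.val h0
    rw [map_eq_zero] at h1
    exact h.y_ne_C5 h1
  have hc0 : algebraMap (kbar k K) (PLf ℓ (MM k K)) (algebraMap k (kbar k K) c) ≠ 0 := by
    rw [Ne, map_eq_zero, map_eq_zero]; exact h.c_ne
  have h1 : σ (toL ℓ y) ^ n = toL ℓ y ^ n := by
    have h2 := congrArg σ heq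
    rw [map_mul, AlgEquiv.commutes, map_pow,
      hσ (toL (k := k) ℓ (algebraMap K₀ K g)) (toU_mem_LL g), ← heq] at h2
    exact mul_left_cancel₀ hc0 h2
  obtain ⟨ζ, hζ⟩ := mem_const_of_pow (K := kbar k K) (ζ := σ (toL ℓ y) / toL ℓ y) h.n_pos (by
    rw [div_pow, h1, div_self (pow_ne_zero _ hy0)])
  refine ⟨ζ, ?_, ?_⟩
  · apply (algebraMap (kbar k K) (PLf ℓ (MM k K))).injective
    rw [map_pow, hζ, div_pow, h1, div_self (pow_ne_zero _ hy0), map_one]
  · rw [hζ, div_mul_cancel₀ _ hy0]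

/-- an automorphism fixing `LL` and `y` fixes `ML` -/
theorem fixML {ℓ : ℕ} [CharZero k] (h : CycE n c g x z₀ f S y)
    (σ : PLf ℓ (MM k K) ≃ₐ[kbar k K] PLf ℓ (MM k K))
    (hσ : ∀ l : PLf ℓ (MM k K), (l : UU k K) ∈ LL k K₀ K → σ l = l)
    (hy : σ (toL ℓ y) = toL ℓ y) : ∀ z ∈ ML ℓ (MM k K), σ z = z := by
  let T : IntermediateField (kbar k K) (UU k K) :=
    { carrier := {z | ∃ w : PLf ℓ (MM k K), (w : UU k K) = z ∧ σ w = w}
      mul_mem' := by
        rintro _ _ ⟨v, rfl, hv⟩ ⟨w, rfl, hw⟩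
        exact ⟨v * w, rfl, by rw [map_mul, hv, hw]⟩
      add_mem' := by
        rintro _ _ ⟨v, rfl, hv⟩ ⟨w, rfl, hw⟩
        exact ⟨v + w, rfl, by rw [map_add, hv, hw]⟩
      algebraMap_mem' := fun c => ⟨algebraMap (kbar k K) _ c, rfl, σ.commutes c⟩
      inv_mem' := by
        rintro _ ⟨v, rfl, hv⟩
        exact ⟨v⁻¹, rfl, by rw [map_inv₀, hv]⟩ }
  have h1 : MM k K ≤ T := by
    rw [h.MM_eq, IntermediateField.adjoin_le_iff]
    rintro z (hz | hz)
    · exact ⟨⟨z, le_PLf ℓ (MM k K) (LL_le_MM hz)⟩, rfl, hσ _ hz⟩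
    · rw [Set.mem_singleton_iff.1 hz]
      exact ⟨toL ℓ y, rfl, hy⟩
  intro z hz
  obtain ⟨w, hw, hw'⟩ := h1 (mem_ML.1 hz)
  have h2 : w = z := Subtype.ext hw
  rwa [h2] at hw'

/-- the exponent of the group of `MM` over `LL` -/
theorem exp_MM {ℓ : ℕ} [CharZero k] (h : CycE ℓ c g x z₀ f S y) (σ : UU k K ≃ₐ[kbar k K] UU k K)
    (hσ : ∀ l ∈ LL k K₀ K, σ l = l) : ∀ m ∈ MM k K, (σ ^ ℓ) m = m := by
  obtain ⟨ζ, hζ, hσy⟩ := h.exists_zeta σ hσ
  have hn : ∀ i : ℕ, (σ ^ i) (toU (k := k) (K := K) y) =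
      algebraMap (kbar k K) (UU k K) (ζ ^ i) * toU (k := k) (K := K) y := by
    intro i
    induction i with
    | zero => rw [pow_zero, pow_zero, map_one, one_mul, AlgEquiv.one_apply]
    | succ i ih => rw [pow_succ, AlgEquiv.mul_apply, hσy, map_mul, ih, AlgEquiv.commutes, pow_succ,
        map_mul, ← mul_assoc, mul_comm (algebraMap _ _ ζ)]
  have hl : ∀ i : ℕ, ∀ l ∈ LL k K₀ K, (σ ^ i) l = l := fun i l hl => fix_pow (hσ l hl) i
  let F : IntermediateField (kbar k K) (UU k K) :=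
    { carrier := {z | (σ ^ ℓ) z = z}
      mul_mem' := fun {a b} ha hb => by
        show (σ ^ ℓ) (a * b) = a * b
        rw [map_mul, ha, hb]
      add_mem' := fun {a b} ha hb => by
        show (σ ^ ℓ) (a + b) = a + b
        rw [map_add, ha, hb]
      algebraMap_mem' := fun a => (σ ^ ℓ).commutes a
      inv_mem' := fun a ha => by
        show (σ ^ ℓ) a⁻¹ = a⁻¹
        rw [map_inv₀, ha] }
  have h1 : MM k K ≤ F := by
    rw [h.MM_eq, IntermediateField.adjoin_le_iff]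
    rintro z (hz | hz)
    · exact hl ℓ z hz
    · rw [Set.mem_singleton_iff.1 hz]
      show (σ ^ ℓ) _ = _
      rw [hn, hζ, map_one, one_mul]
  exact fun z hz => h1 hz

/-- If `c` is a unit then inertia acts trivially on the residue field of `MM`. -/
theorem inert_trivialL {ℓ : ℕ} {a : Gk k K →* (PLf ℓ (MM k K) ≃+* PLf ℓ (MM k K))}
    (h : CycE ℓ c g x z₀ f S y) (hℓ : ℓ.Prime) (A : ActK ℓ a)
    {W : ValuationSubring (kbar k K)} {t' : kbar k K}
    (hb : Base (algebraicClosure k₁ (kbar k K)) W t') (hf : GoodRed W f)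
    (hS : ∀ c ∈ S, algebraMap k (kbar k K) c ∈ W)
    (hc : algebraMap k (kbar k K) c ∈ W) (hc1 : algebraMap k (kbar k K) c ∉ W.nonunits)
    {V : ValuationSubring (PLf ℓ (MM k K))}
    (hV : Gauss (algebraicClosure k₁ (kbar k K)) W (toL (k := k) ℓ (algebraMap K₀ K x)) V) {τ : Gk k K}
    (hτ : InInert W τ) {z : PLf ℓ (MM k K)} (hz : z ∈ V) (hzM : z ∈ ML ℓ (MM k K)) :
    a τ z - z ∈ V.nonunits := by
  have hac : IsAlgClosed (algebraicClosure k₁ (kbar k K)) :=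
    (inferInstance : IsAlgClosure k₁ (algebraicClosure k₁ (kbar k K))).isAlgClosed
  have hk0 : CharZero k := charZero_of_injective_algebraMap (algebraMap k₁ k).injective
  have hn0 : ℓ ≠ 0 := h.n_pos.ne'
  let iUX : Algebra (UU k K) (XX (algebraMap K₀ K x) (rootsB K f)) := algUX h.UU_le
  have s1 : IsScalarTower (kbar k K) (UU k K) (XX (algebraMap K₀ K x) (rootsB K f)) :=
    IsScalarTower.of_algebraMap_eq fun _ => rfl
  have s2 : IsScalarTower (algebraicClosure k₁ (kbar k K)) (UU k K)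
      (XX (algebraMap K₀ K x) (rootsB K f)) := IsScalarTower.of_algebraMap_eq fun _ => rfl
  have s3 : IsScalarTower (kbar k K) (PLf ℓ (MM k K)) (XX (algebraMap K₀ K x) (rootsB K f)) :=
    IsScalarTower.of_algebraMap_eq fun _ => rfl
  have s4 : IsScalarTower (algebraicClosure k₁ (kbar k K)) (PLf ℓ (MM k K))
      (XX (algebraMap K₀ K x) (rootsB K f)) := IsScalarTower.of_algebraMap_eq fun _ => rfl
  have hu0 : CSetup (algebraicClosure k₁ (kbar k K)) (XX (algebraMap K₀ K x) (rootsB K f)) W t'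
    (rootsB K f) (toU (k := k) (K := K) (algebraMap K₀ K x)) (LL k K₀ K) (MM k K) := h.csetup hb hf hk0
  have hu := csetupL hu0 hℓ (exp_MM h) (toL (k := k) ℓ (algebraMap K₀ K x)) rfl
  have hE : ∀ e : algebraicClosure k₁ (kbar k K),
      algebraMap (algebraicClosure k₁ (kbar k K)) (PLf ℓ (MM k K)) e ∈ V := by
    intro e
    have h1 : algebraMap (algebraicClosure k₁ (kbar k K)) (PLf ℓ (MM k K)) e =
      algebraMap (kbar k K) (PLf ℓ (MM k K)) (algebraMap _ (kbar k K) e) := rfl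
    rw [h1, hV.mem_iff]
    exact hb.const e
  -- the residue field
  let iota : algebraicClosure k₁ (kbar k K) →+* V :=
    (algebraMap (algebraicClosure k₁ (kbar k K)) (PLf ℓ (MM k K))).codRestrict V.toSubring hE
  let iA : Algebra (algebraicClosure k₁ (kbar k K)) (IsLocalRing.ResidueField V) :=
    ((IsLocalRing.residue V).comp iota).toAlgebra
  have hR : Res (algebraicClosure k₁ (kbar k K)) V (IsLocalRing.residue V) := by
    refine ⟨IsLocalRing.residue_surjective, fun w => ?_, fun e w hw => ?_⟩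
    · rw [IsLocalRing.residue_eq_zero_iff, ValuationSubring.coe_mem_nonunits_iff]
    · have h1 : w = iota e := Subtype.ext hw
      rw [h1]
      rfl
  have hst : ∀ w, a τ w ∈ V ↔ w ∈ V := fun w =>
    hu.stable hV (a τ) (phi k K τ) (A.const τ) (fun a => hτ.1 a) (A.base τ _) w
  obtain ⟨ρ, hρ⟩ := g3_indG3 hR (a τ) hst hE (by
    intro e
    have h1 : algebraMap (algebraicClosure k₁ (kbar k K)) (PLf ℓ (MM k K)) e =
      algebraMap (kbar k K) (PLf ℓ (MM k K)) (algebraMap _ (kbar k K) e) := rfl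
    rw [h1, A.const, ← map_sub, ValuationSubring.mem_nonunits_iff, A1.val_lt_one_iff hV,
      ← ValuationSubring.mem_nonunits_iff]
    exact hτ.2 _ (hb.const e))
  have hρL : ∀ r ∈ resField hV hR (LL' ℓ hu0.le), ρ r = r := by
    rintro r ⟨w, hwL, rfl⟩
    have h1 := hρ w ⟨a τ w, (hst _).2 w.2⟩ rfl
    rw [h1, ← sub_eq_zero, ← map_sub]
    exact (hR.ker _).2 (inert_trivial_LLL h A hb hf hS hV hτ w.2 (mem_LL'.1 hwL))
  obtain ⟨σ, hσL0, hσ⟩ := hu.exists_induces_over hV hR (LL' ℓ hu0.le) le_rfl ρ hρL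
  have hσL : ∀ l : PLf ℓ (MM k K), (l : UU k K) ∈ LL k K₀ K → σ l = l := fun l hl =>
    hσL0 l (mem_LL'.2 hl)
  -- `y` is a unit
  have hcv : V.valuation (algebraMap (kbar k K) (PLf ℓ (MM k K)) (algebraMap k (kbar k K) c)) = 1 :=
    g3_val_eq_oneG3 hV (g3_val_unitG3 hc hc1)
  have hyn : V.valuation (toL ℓ y : PLf ℓ (MM k K)) ^ ℓ = 1 := by
    have h1 := val_gL h hb hf hS hV
    have heq : algebraMap (kbar k K) (PLf ℓ (MM k K)) (algebraMap k (kbar k K) c) *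
        (toL ℓ y : PLf ℓ (MM k K)) ^ ℓ = toL (k := k) ℓ (algebraMap K₀ K g) := Subtype.ext h.eqU
    rw [← heq, map_mul, map_pow, hcv, one_mul] at h1
    exact h1
  have hyv : V.valuation ((toL ℓ y : PLf ℓ (MM k K))) = 1 := g3_pow_eq_oneG3 V hn0 hyn
  have hyV : (toL ℓ y : PLf ℓ (MM k K)) ∈ V := (V.valuation_le_one_iff _).1 hyv.le
  obtain ⟨ζ, hζn, hσy⟩ := exists_zetaL h σ hσL
  have hσx : σ (toL (k := k) ℓ (algebraMap K₀ K x)) = toL (k := k) ℓ (algebraMap K₀ K x) :=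
    hσL _ (toU_mem_LL x)
  have hσst : ∀ w, w ∈ V → σ w ∈ V := fun w hw =>
    (hu.stable hV (σ : PLf ℓ (MM k K) ≃+* PLf ℓ (MM k K)) (RingEquiv.refl _) (fun a => σ.commutes a)
      (fun _ => Iff.rfl) hσx w).2 hw
  have hcmp : ∀ w (hw : w ∈ V), a τ w - σ w ∈ V.nonunits := by
    intro w hw
    have h1 := hρ ⟨w, hw⟩ ⟨a τ w, (hst w).2 hw⟩ rfl
    have h2 := hσ ⟨w, hw⟩ ⟨σ w, hσst w hw⟩ rfl
    have h3 : IsLocalRing.residue V (⟨a τ w, (hst w).2 hw⟩ - ⟨σ w, hσst w hw⟩) = 0 := by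
      rw [map_sub, ← h1, ← h2, sub_self]
    exact (hR.ker _).1 h3
  have hζ1 : ζ = 1 := by
    by_contra hne
    have h1 := hcmp _ hyV
    rw [A.base, hσy, ValuationSubring.mem_nonunits_iff] at h1
    have h2 : (toL ℓ y : PLf ℓ (MM k K)) - algebraMap (kbar k K) (PLf ℓ (MM k K)) ζ * (toL ℓ y : PLf ℓ (MM k K)) =
        -(algebraMap (kbar k K) (PLf ℓ (MM k K)) (ζ - 1) * (toL ℓ y : PLf ℓ (MM k K))) := by
      rw [map_sub, map_one]
      ring
    rw [h2, Valuation.map_neg, map_mul, hyv, mul_one,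
      g3_val_eq_oneG3 hV (g3_root_unitG3 hb hn0 hζn hne)] at h1
    exact lt_irrefl _ h1
  have hσy1 : σ ((toL ℓ y : PLf ℓ (MM k K))) = (toL ℓ y : PLf ℓ (MM k K)) := by
    rw [hσy, hζ1, map_one, one_mul]
  have h1 := hcmp z hz
  rwa [fixML h σ hσL hσy1 z hzM] at h1


end Pool.Agent.GCL
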