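import Pool.Agent.Helper45.FF.PR.G3
import Pool.Agent.Helper13.GC.C9

/-!
# Project FF, PRO: nontrivial inertia (compare `Helper13/GC/C9.lean`)
-/

universe u

set_option linter.unusedSectionVars false

namespace Pool.Agent.GCL

open VC Polynomial Pool.Agent.LT Pool.Agent.SC Pool.Agent.Helper91.Sect Pool.Agent Pool.Agent.GC

section g4aux

variable {k₁ k K : Type u} [Field k₁] [CharZero k₁] [Field k] [Field K] [Algebra k₁ k]
  [Algebra k K] [Algebra k₁ K] [IsScalarTower k₁ k K] {x : K}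

private theorem g4_val_eq_one {ℓ : ℕ} {V : ValuationSubring (PLf ℓ (MM k K))} {W : ValuationSubring (kbar k K)}
    (hV : Gauss (algebraicClosure k₁ (kbar k K)) W (toL (k := k) ℓ x) V) {a : kbar k K} (ha : W.valuation a = 1) :
    V.valuation (algebraMap (kbar k K) (PLf ℓ (MM k K)) a) = 1 := by
  have h1 := A1.val_congr hV (c := a) (d := 1) (by rw [ha, map_one])
  rw [h1, map_one, map_one]

private theorem g4_val_unit {W : ValuationSubring (kbar k K)} {a : kbar k K} (h1 : a ∈ W)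
    (h2 : a ∉ W.nonunits) : W.valuation a = 1 := by
  rw [ValuationSubring.mem_nonunits_iff] at h2
  exact le_antisymm ((W.valuation_le_one_iff _).2 h1) (not_lt.1 h2)

private theorem g4_pow_eq_one_val {F : Type u} [Field F] (V : ValuationSubring F) {a : F} {m : ℕ}
    (hm : m ≠ 0) (h : V.valuation a ^ m = 1) : V.valuation a = 1 :=
  (pow_eq_one_iff_of_nonneg zero_le hm).1 h

private theorem g4_root_E {ζ : kbar k K} {m : ℕ} (hm : m ≠ 0) (h : ζ ^ m = 1) :
    ∃ e : (algebraicClosure k₁ (kbar k K)), algebraMap (algebraicClosure k₁ (kbar k K)) (kbar k K) e = ζ := by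
  have h1 : IsIntegral k₁ ζ := IsIntegral.of_pow (Nat.pos_of_ne_zero hm) (by
    rw [h]
    exact isIntegral_one)
  exact ⟨⟨ζ, mem_algebraicClosure_iff.2 h1.isAlgebraic⟩, rfl⟩

private theorem g4_root_unit {W : ValuationSubring (kbar k K)} {t' : kbar k K}
    (hb : Base (algebraicClosure k₁ (kbar k K)) W t') {ζ : kbar k K} {m : ℕ} (hm : m ≠ 0) (h : ζ ^ m = 1) (h1 : ζ ≠ 1) :
    W.valuation (ζ - 1) = 1 := by
  obtain ⟨e, rfl⟩ := g4_root_E (k₁ := k₁) hm h
  have h2 : e - 1 ≠ 0 := by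
    intro h0
    apply h1
    rw [sub_eq_zero.1 h0, map_one]
  have h3 := A1.val_const hb h2
  rwa [map_sub, map_one] at h3

/-- the values of the trace of `W` on `k` -/
private theorem g4_val_comap (W : ValuationSubring (kbar k K)) {a b : k} (hb : b ≠ 0) :
    (W.comap (algebraMap k (kbar k K))).valuation a =
      (W.comap (algebraMap k (kbar k K))).valuation b ↔
    W.valuation (algebraMap k (kbar k K) a) = W.valuation (algebraMap k (kbar k K) b) := by
  set O : ValuationSubring k := W.comap (algebraMap k (kbar k K)) with hO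
  have key : ∀ a b : k, b ≠ 0 → (O.valuation a ≤ O.valuation b ↔
      W.valuation (algebraMap k (kbar k K) a) ≤ W.valuation (algebraMap k (kbar k K) b)) := by
    intro a b hb
    have h1 : O.valuation b ≠ 0 := (Valuation.ne_zero_iff _).2 hb
    have h2 : W.valuation (algebraMap k (kbar k K) b) ≠ 0 :=
      (Valuation.ne_zero_iff _).2 ((_root_.map_ne_zero _).2 hb)
    rw [← div_le_one₀ (zero_lt_iff.2 h1), ← div_le_one₀ (zero_lt_iff.2 h2), ← map_div₀,
      ← map_div₀, ← map_div₀, O.valuation_le_one_iff, W.valuation_le_one_iff]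
    exact Iff.rfl
  rcases eq_or_ne a 0 with rfl | ha
  · rw [map_zero, map_zero, map_zero, eq_comm, Valuation.zero_iff, eq_comm (a := (0 : W.ValueGroup)),
      Valuation.zero_iff, map_eq_zero]
  · constructor
    · intro h
      exact le_antisymm ((key a b hb).1 h.le) ((key b a ha).1 h.ge)
    · intro h
      exact le_antisymm ((key a b hb).2 h.le) ((key b a ha).2 h.ge)

/-- the inertia group of the centre of `W` is the inertia group of `W` -/
private theorem g4_inInert [CharZero k] {W : ValuationSubring (kbar k K)} {τ : Gk k K}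
    (hτ : InI (H1.cen k W) τ) : InInert W τ := by
  have hV : ∀ c ∈ W.comap (algebraMap k (kbar k K)), algebraMap k (kbar k K) c ∈ W :=
    fun c hc => hc
  have h1 : H1.cen k W = cenV W hV := by
    ext b
    rw [H1.mem_cen, mem_cenV, ValuationSubring.mem_nonunits_iff]
  have h2 : locW (H1.cen k W) = W := by
    ext z
    have h3 := mem_iff_locW hV z
    have h4 : z ∈ locW (H1.cen k W) ↔ z ∈ locW (cenV W hV) := by
      rw [mem_locW, mem_locW]
      constructor
      · rintro ⟨b, hb, hb'⟩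
        exact ⟨b, by rwa [← h1], hb'⟩
      · rintro ⟨b, hb, hb'⟩
        exact ⟨b, by rwa [h1], hb'⟩
    exact h4.trans h3
  have h5 : ∀ z, τ z ∈ locW (H1.cen k W) ↔ z ∈ locW (H1.cen k W) := stab_locW (H1.cen k W) hτ.1
  have h6 : ∀ z, (locW (H1.cen k W)).valuation z ≤ 1 → (locW (H1.cen k W)).valuation (τ z - z) < 1 :=
    fun z hz => val_inertia (H1.cen k W) hτ hz
  rw [h2] at h5 h6
  refine ⟨h5, fun z hz => ?_⟩
  rw [ValuationSubring.mem_nonunits_iff]
  exact h6 z ((W.valuation_le_one_iff z).2 hz)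

end g4aux

variable {k₁ k K₀ K : Type u} [Field k₁] [CharZero k₁] [Field k] [Field K₀] [Field K]
  [Algebra k₁ k] [Algebra k K₀] [Algebra k K] [Algebra K₀ K] [IsScalarTower k K₀ K]
  [Algebra k₁ K] [IsScalarTower k₁ k K]
  {n : ℕ} {c : k} {g x z₀ : K₀} {f : k[X]} {S : Finset k} {y : K}

/-- If the order of `c` is not divisible by `n` then some inertia element acts nontrivially. -/
theorem inert_nontrivialL {ℓ : ℕ} {a : Gk k K →* (PLf ℓ (MM k K) ≃+* PLf ℓ (MM k K))}
    (h : CycE n c g x z₀ f S y) (A : ActK ℓ a)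
    {W : ValuationSubring (kbar k K)} {t' : kbar k K}
    (hb : Base (algebraicClosure k₁ (kbar k K)) W t') (hf : GoodRed W f)
    (hS : ∀ c ∈ S, algebraMap k (kbar k K) c ∈ W)
    {ϖ c₁ : k} {j : ℕ} (hϖ : algebraMap k (kbar k K) ϖ ∈ W.nonunits) (hϖ0 : ϖ ≠ 0)
    (hdisc : ∀ z : k, z ≠ 0 → ∃ i : ℤ, W.valuation (algebraMap k (kbar k K) z) =
      W.valuation (algebraMap k (kbar k K) ϖ) ^ i)
    (hcj : c = ϖ ^ j * c₁) (hj : ¬ n ∣ j) (hc₁ : algebraMap k (kbar k K) c₁ ∈ W)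
    (hc₁u : algebraMap k (kbar k K) c₁ ∉ W.nonunits)
    {V : ValuationSubring (PLf ℓ (MM k K))}
    (hV : Gauss (algebraicClosure k₁ (kbar k K)) W (toL (k := k) ℓ (algebraMap K₀ K x)) V) :
    ∃ τ : Gk k K, InInert W τ ∧ ∃ z ∈ V, z ∈ ML ℓ (MM k K) ∧ a τ z - z ∉ V.nonunits := by
  have hac : IsAlgClosed (algebraicClosure k₁ (kbar k K)) :=
    (inferInstance : IsAlgClosure k₁ (algebraicClosure k₁ (kbar k K))).isAlgClosed
  have hk0 : CharZero k := charZero_of_injective_algebraMap (algebraMap k₁ k).injective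
  have hn0 : n ≠ 0 := h.n_pos.ne'
  -- `j = g j'`, `n = g n'`
  obtain ⟨n', hn'⟩ : Nat.gcd n j ∣ n := Nat.gcd_dvd_left n j
  obtain ⟨j', hj'⟩ : Nat.gcd n j ∣ j := Nat.gcd_dvd_right n j
  have hgpos : 0 < Nat.gcd n j := Nat.gcd_pos_of_pos_left _ (Nat.pos_of_ne_zero hn0)
  have hgj : Nat.gcd n j ∣ j := Nat.gcd_dvd_right n j
  have hgg : Nat.gcd n j = Nat.gcd (Nat.gcd n j * n') (Nat.gcd n j * j') := by
    rw [← hn', ← hj']
  generalize Nat.gcd n j = g1 at hn' hj' hgpos hgj hgg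
  have hcop : Nat.gcd n' j' = 1 := by
    rw [Nat.gcd_mul_left] at hgg
    exact Nat.eq_of_mul_eq_mul_left hgpos (by rw [← hgg, mul_one])
  have hn'1 : n' ≠ 1 := by
    intro h1
    apply hj
    rw [h1, mul_one] at hn'
    rw [hn']
    exact hgj
  obtain ⟨p, hp, hpn⟩ := Nat.exists_prime_and_dvd hn'1
  obtain ⟨m, hm⟩ := hpn
  have hpj : ¬ p ∣ j' := by
    intro h1
    have h2 : p ∣ Nat.gcd n' j' := Nat.dvd_gcd ⟨m, hm⟩ h1
    rw [hcop] at h2
    exact hp.one_lt.ne' (Nat.dvd_one.1 h2)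
  -- the roots
  obtain ⟨ϖ', hϖ'⟩ := IsAlgClosed.exists_pow_nat_eq (algebraMap k (kbar k K) ϖ)
    (Nat.pos_of_ne_zero hn0)
  obtain ⟨c', hc'⟩ := IsAlgClosed.exists_pow_nat_eq (algebraMap k (kbar k K) c₁)
    (Nat.pos_of_ne_zero hn0)
  obtain ⟨u, hu⟩ : ∃ u : kbar k K, u = ϖ' ^ j := ⟨_, rfl⟩
  have hu1 : (u ^ m) ^ p = algebraMap k (kbar k K) (ϖ ^ j') := by
    rw [hu, map_pow, ← hϖ', ← pow_mul, ← pow_mul, ← pow_mul]
    congr 1
    calc j * (m * p) = (g1 * j') * (m * p) := by rw [← hj']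
      _ = (g1 * (p * m)) * j' := by ring
      _ = n * j' := by rw [← hm, ← hn']
  have hϖ0' : algebraMap k (kbar k K) ϖ ≠ 0 := (_root_.map_ne_zero _).2 hϖ0
  have hϖ'0 : ϖ' ≠ 0 := by
    rintro rfl
    rw [zero_pow hn0] at hϖ'
    exact hϖ0' hϖ'.symm
  have hu0 : u ≠ 0 := by
    rw [hu]
    exact pow_ne_zero _ hϖ'0
  have hϖW : W.valuation (algebraMap k (kbar k K) ϖ) < 1 :=
    (ValuationSubring.mem_nonunits_iff _).1 hϖ
  have hϖ0W : W.valuation (algebraMap k (kbar k K) ϖ) ≠ 0 := (Valuation.ne_zero_iff _).2 hϖ0'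
  have hodd : ∀ d : k, (W.comap (algebraMap k (kbar k K))).valuation (ϖ ^ j') ≠
      (W.comap (algebraMap k (kbar k K))).valuation d ^ p := by
    intro d hd
    have hd0 : d ≠ 0 := by
      rintro rfl
      rw [map_zero, zero_pow hp.ne_zero, Valuation.zero_iff] at hd
      exact pow_ne_zero _ hϖ0 hd
    rw [← map_pow] at hd
    have h1 := (g4_val_comap W (pow_ne_zero p hd0)).1 hd
    rw [map_pow, map_pow, map_pow, map_pow] at h1
    obtain ⟨i, hi⟩ := hdisc d hd0
    rw [hi, ← zpow_natCast, ← zpow_natCast, ← zpow_mul] at h1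
    have h2 := zpow_right_injective₀ (zero_lt_iff.2 hϖ0W) hϖW.ne h1
    apply hpj
    have h3 : (p : ℤ) ∣ (j' : ℤ) := ⟨i, by rw [h2, mul_comm]⟩
    exact_mod_cast h3
  have : NeZero (p : kbar k K) := ⟨by exact_mod_cast hp.ne_zero⟩
  obtain ⟨ζ, hζ⟩ := HasEnoughRootsOfUnity.exists_primitiveRoot (kbar k K) p
  obtain ⟨τ, hτI, hτu⟩ := Pool.Agent.Helper91.SE.exists_inertia_ne (H1.cen k W) (H1.above_cen W) hp hodd
    hu1 hζ
  have hτ : InInert W τ := g4_inInert hτI
  have hτne : τ u ≠ u := by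
    intro h1
    apply hτu
    rw [map_pow, h1]
  -- `τ u = η u`
  have hun : u ^ n = algebraMap k (kbar k K) (ϖ ^ j) := by
    rw [hu, ← pow_mul, mul_comm, pow_mul, hϖ', map_pow]
  obtain ⟨η, hη⟩ : ∃ η : kbar k K, η = τ u / u := ⟨_, rfl⟩
  have hτη : τ u = η * u := by rw [hη, div_mul_cancel₀ _ hu0]
  have hηn : η ^ n = 1 := by
    rw [hη, div_pow, ← map_pow, hun, AlgEquiv.commutes, ← hun]
    exact div_self (pow_ne_zero _ hu0)
  have hη1 : η ≠ 1 := by
    intro h1
    apply hτne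
    rw [hτη, h1, one_mul]
  -- `τ c' = c'`
  have hc₁W : W.valuation (algebraMap k (kbar k K) c₁) = 1 := g4_val_unit hc₁ hc₁u
  have hc'W : W.valuation c' = 1 := g4_pow_eq_one_val W hn0 (by rw [← map_pow, hc', hc₁W])
  have hc'0 : c' ≠ 0 := by
    rintro rfl
    rw [map_zero] at hc'W
    exact zero_ne_one hc'W
  have hτc' : τ c' = c' := by
    have h1 : (τ c' / c') ^ n = 1 := by
      rw [div_pow, ← map_pow, hc', AlgEquiv.commutes, ← hc']
      exact div_self (pow_ne_zero _ hc'0)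
    by_contra hne
    have h2 : τ c' / c' ≠ 1 := by
      intro h3
      rw [div_eq_one_iff_eq hc'0] at h3
      exact hne h3
    have h3 := g4_root_unit hb hn0 h1 h2
    have h4 := hτ.2 c' ((W.valuation_le_one_iff _).1 hc'W.le)
    rw [ValuationSubring.mem_nonunits_iff] at h4
    have h5 : τ c' - c' = (τ c' / c' - 1) * c' := by
      rw [sub_mul, div_mul_cancel₀ _ hc'0, one_mul]
    rw [h5, map_mul, h3, hc'W, one_mul] at h4
    exact lt_irrefl _ h4
  obtain ⟨w, hw⟩ : ∃ w : PLf ℓ (MM k K), w = algebraMap (kbar k K) (PLf ℓ (MM k K)) (u * c') * toL ℓ y :=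
    ⟨_, rfl⟩
  have hwn : w ^ n = toL (k := k) ℓ (algebraMap K₀ K g) := by
    have heq : algebraMap (kbar k K) (PLf ℓ (MM k K)) (algebraMap k (kbar k K) c) *
        (toL ℓ y : PLf ℓ (MM k K)) ^ n = toL (k := k) ℓ (algebraMap K₀ K g) := Subtype.ext h.eqU
    rw [hw, mul_pow, ← map_pow, mul_pow, hun, hc', ← map_mul, ← hcj, heq]
  have hwv : V.valuation w = 1 := g4_pow_eq_one_val V hn0 (by
    rw [← map_pow, hwn]
    exact val_gL h hb hf hS hV)
  have hτw : a τ w = algebraMap (kbar k K) (PLf ℓ (MM k K)) η * w := by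
    rw [hw, map_mul, A.const, A.base, map_mul τ, hτη, hτc', ← mul_assoc, ← map_mul, mul_assoc]
  refine ⟨τ, hτ, w, (V.valuation_le_one_iff _).1 hwv.le, ?_, ?_⟩
  · rw [hw]
    exact (ML ℓ (MM k K)).mul_mem ((ML ℓ (MM k K)).algebraMap_mem _) (toL_mem y)
  · intro h1
    rw [ValuationSubring.mem_nonunits_iff, hτw] at h1
    have h2 : algebraMap (kbar k K) (PLf ℓ (MM k K)) η * w - w =
        algebraMap (kbar k K) (PLf ℓ (MM k K)) (η - 1) * w := by
      rw [map_sub, map_one, sub_mul, one_mul]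
    rw [h2, map_mul, hwv, mul_one, g4_val_eq_one hV (g4_root_unit hb hn0 hηn hη1)] at h1
    exact lt_irrefl _ h1


end Pool.Agent.GCL
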