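import Pool.Agent.Helper45.FF.PR.G3
import Pool.Agent.SC.Final

/-!
# Project FF, PRO: uniqueness of the fixed place if there are three branch places
-/

universe u

set_option autoImplicit false
set_option linter.unusedSectionVars false

namespace Pool.Agent.GCL

open VC Polynomial Pool.Agent.LT Pool.Agent.SC Pool.Agent.Helper91.Sect Pool.Agent Pool.Agent.GC

section val

variable {Ω Γ₀ : Type*} [Field Ω] [LinearOrderedCommGroupWithZero Γ₀] (v : Valuation Ω Γ₀)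

/-- the value of a sum of elements of different values -/
theorem exists_val_sum {ι : Type*} [DecidableEq ι] {s : Finset ι} (hs : s.Nonempty) (f : ι → Ω)
    (hf : ∀ i ∈ s, ∀ j ∈ s, i ≠ j → f i ≠ 0 → f j ≠ 0 → v (f i) ≠ v (f j)) :
    ∃ j ∈ s, (∀ i ∈ s, v (f i) ≤ v (f j)) ∧ v (∑ i ∈ s, f i) = v (f j) := by
  obtain ⟨j, hj, hmax⟩ := Finset.exists_max_image s (fun i => v (f i)) hs
  refine ⟨j, hj, hmax, ?_⟩
  by_cases h0 : f j = 0
  · have h1 : ∀ i ∈ s, f i = 0 := by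
      intro i hi
      have h2 := hmax i hi
      rw [h0, map_zero] at h2
      exact (Valuation.zero_iff v).1 (le_antisymm h2 zero_le)
    rw [Finset.sum_congr rfl h1, Finset.sum_const_zero, h0]
  · have hv0 : v (f j) ≠ 0 := (Valuation.ne_zero_iff v).2 h0
    rw [← Finset.add_sum_erase s f hj]
    refine Valuation.map_add_eq_of_lt_left v ?_
    refine Valuation.map_sum_lt v hv0 fun i hi => ?_
    rw [Finset.mem_erase] at hi
    by_cases hi0 : f i = 0
    · rw [hi0, map_zero]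
      exact zero_lt_iff.2 hv0
    · exact lt_of_le_of_ne (hmax i hi.2) (hf i hi.2 j hj hi.1 hi0 h0)

/-- automorphisms which multiply `w` with a root of unity do not change the value, if the value of `w` is
not the value of an element of the fixed field -/
theorem val_aut_eq {ℓ : ℕ} (hℓ : ℓ.Prime) (F : Subfield Ω) {w : Ω} (hw0 : w ≠ 0) (hwℓ : w ^ ℓ ∈ F)
    (hne : ∀ u ∈ F, v w ≠ v u) (σ : Ω →+* Ω) (hσF : ∀ u ∈ F, σ u = u) {ζ : Ω} (hζ : v ζ = 1)
    (hσw : σ w = ζ * w) {x : Ω} (u : ℕ → Ω) (hu : ∀ i, u i ∈ F)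
    (hx : x = ∑ i ∈ Finset.range ℓ, u i * w ^ i) : v (σ x) = v x := by
  classical
  have hvw : v w ≠ 0 := (Valuation.ne_zero_iff v).2 hw0
  have hdist : ∀ i ∈ Finset.range ℓ, ∀ j ∈ Finset.range ℓ, i < j → u i ≠ 0 → u j ≠ 0 →
      v (u i * w ^ i) ≠ v (u j * w ^ j) := by
    intro i _ j hj hij hi0 hj0 heq
    rw [Finset.mem_range] at hj
    obtain ⟨d, hd⟩ := Nat.exists_eq_add_of_lt hij
    have h1 : v (w ^ (d + 1)) = v (u i / u j) := by
      have hd' : w ^ j = w ^ i * w ^ (d + 1) := by rw [hd, add_assoc, pow_add]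
      rw [map_mul, map_mul, hd', map_mul] at heq
      have hi1 : v (w ^ i) ≠ 0 := (Valuation.ne_zero_iff v).2 (pow_ne_zero _ hw0)
      have hj1 : v (u j) ≠ 0 := (Valuation.ne_zero_iff v).2 hj0
      rw [map_div₀, eq_div_iff hj1]
      apply mul_right_cancel₀ hi1
      rw [heq]
      ac_rfl
    have hcop : Nat.Coprime (d + 1) ℓ := by
      rw [Nat.coprime_comm, Nat.Prime.coprime_iff_not_dvd hℓ]
      intro h2
      have h3 := Nat.le_of_dvd (Nat.succ_pos d) h2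
      omega
    obtain ⟨a, b, hab⟩ : ∃ a b : ℤ, ((d + 1 : ℕ) : ℤ) * a + (ℓ : ℤ) * b = 1 := by
      refine ⟨Nat.gcdA (d + 1) ℓ, Nat.gcdB (d + 1) ℓ, ?_⟩
      have h2 := Nat.gcd_eq_gcd_ab (d + 1) ℓ
      rw [hcop] at h2
      exact_mod_cast h2.symm
    refine hne ((u i / u j) ^ a * (w ^ ℓ) ^ b) (F.mul_mem (F.zpow_mem (F.div_mem (hu i) (hu j)) a)
      (F.zpow_mem hwℓ b)) ?_
    rw [map_mul, map_zpow₀, ← h1, ← map_zpow₀, ← map_mul]
    congr 1
    rw [← zpow_natCast, ← zpow_natCast, ← zpow_mul, ← zpow_mul, ← zpow_add₀ hw0, hab, zpow_one]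
  have hf : ∀ i ∈ Finset.range ℓ, ∀ j ∈ Finset.range ℓ, i ≠ j → u i * w ^ i ≠ 0 →
      u j * w ^ j ≠ 0 → v (u i * w ^ i) ≠ v (u j * w ^ j) := by
    intro i hi j hj hij hi0 hj0
    rcases lt_or_gt_of_ne hij with h1 | h1
    · exact hdist i hi j hj h1 (left_ne_zero_of_mul hi0) (left_ne_zero_of_mul hj0)
    · exact (hdist j hj i hi h1 (left_ne_zero_of_mul hj0) (left_ne_zero_of_mul hi0)).symm
  have hs : (Finset.range ℓ).Nonempty := ⟨0, Finset.mem_range.2 hℓ.pos⟩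
  have hσ : ∀ i, σ (u i * w ^ i) = ζ ^ i * (u i * w ^ i) := by
    intro i
    rw [map_mul, hσF _ (hu i), map_pow, hσw]
    ring
  have hvσ : ∀ i, v (σ (u i * w ^ i)) = v (u i * w ^ i) := by
    intro i
    rw [hσ, map_mul, map_pow, hζ, one_pow, one_mul]
  obtain ⟨j, hj, hj1, hj2⟩ := exists_val_sum v hs (fun i => u i * w ^ i) hf
  obtain ⟨j', hj', hj1', hj2'⟩ := exists_val_sum v hs (fun i => σ (u i * w ^ i)) (by
    intro i hi i' hi' hne hi0 hi0'
    simp only [hvσ]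
    refine hf i hi i' hi' hne ?_ ?_
    · rintro h0
      exact hi0 (by rw [h0, map_zero])
    · rintro h0
      exact hi0' (by rw [h0, map_zero]))
  have h1 : σ x = ∑ i ∈ Finset.range ℓ, σ (u i * w ^ i) := by
    rw [hx, map_sum]
  rw [h1, hj2', hx, hj2]
  simp only [hvσ] at hj1' ⊢
  exact le_antisymm (hj1 j' hj') (hj1' j hj)

end val

variable {k K₀ K : Type u} [Field k] [CharZero k] [Field K₀] [Field K] [Algebra k K₀]
  [Algebra k K] [Algebra K₀ K] [IsScalarTower k K₀ K]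
  {n : ℕ} {c : k} {g x z₀ : K₀} {f : k[X]} {S : Finset k} {y : K}

/-- elements of `MM` are polynomials in `y` of degree less than `n` -/
theorem exists_repr (h : CycE n c g x z₀ f S y) {z : UU k K} (hz : z ∈ MM k K) :
    ∃ u : ℕ → UU k K, (∀ i, u i ∈ LL k K₀ K) ∧
      z = ∑ i ∈ Finset.range n, u i * (toU (k := k) (K := K) y) ^ i := by
  obtain ⟨w, hw⟩ : ∃ w : UU k K, w = toU (k := k) (K := K) y := ⟨_, rfl⟩
  have hcU : algebraMap (kbar k K) (UU k K) (algebraMap k (kbar k K) c) ≠ 0 := by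
    rw [Ne, map_eq_zero, map_eq_zero]; exact h.c_ne
  have hwn : w ^ n ∈ LL k K₀ K := by
    have h1 := h.eqU
    have h2 : w ^ n = (algebraMap (kbar k K) (UU k K) (algebraMap k (kbar k K) c))⁻¹ *
        toU (k := k) (K := K) (algebraMap K₀ K g) := by
      rw [hw, ← h1, inv_mul_cancel_left₀ hcU]
    rw [h2]
    exact mul_mem (inv_mem ((LL k K₀ K).algebraMap_mem _)) (toU_mem_LL g)
  obtain ⟨q, hq⟩ : ∃ q : (LL k K₀ K)[X], q = X ^ n - C ⟨w ^ n, hwn⟩ := ⟨_, rfl⟩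
  have hqm : q.Monic := by rw [hq]; exact monic_X_pow_sub_C _ h.n_pos.ne'
  have hqw : aeval w q = 0 := by
    rw [hq, map_sub, map_pow, aeval_X, aeval_C]
    exact sub_self _
  have hint : IsIntegral (LL k K₀ K) w := ⟨q, hqm, hqw⟩
  have h1 : MM k K ≤ (IntermediateField.adjoin (LL k K₀ K) {w}).restrictScalars (kbar k K) := by
    rw [h.MM_eq, IntermediateField.adjoin_le_iff]
    rintro z (hz | hz)
    · exact (IntermediateField.adjoin (LL k K₀ K) {w}).algebraMap_mem ⟨z, hz⟩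
    · rw [Set.mem_singleton_iff.1 hz, ← hw]
      exact IntermediateField.mem_adjoin_simple_self _ w
  have h2 : z ∈ (IntermediateField.adjoin (LL k K₀ K) {w}).toSubalgebra := h1 hz
  rw [IntermediateField.adjoin_simple_toSubalgebra_of_isAlgebraic hint.isAlgebraic,
    Algebra.adjoin_singleton_eq_range_aeval] at h2
  obtain ⟨p, hp⟩ := h2
  have hp2 : aeval w (p %ₘ q) = z := by
    rw [aeval_modByMonic_eq_self_of_root hqw]
    exact hp
  have hdeg : (p %ₘ q).natDegree < n := by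
    have h3 : q.natDegree = n := by rw [hq]; exact natDegree_X_pow_sub_C
    have h4 := natDegree_modByMonic_lt p hqm (by
      intro h5
      rw [h5, natDegree_one] at h3
      have := h.n_pos
      omega)
    rwa [h3] at h4
  refine ⟨fun i => ((p %ₘ q).coeff i : UU k K), fun i => ((p %ₘ q).coeff i).2, ?_⟩
  rw [← hp2, aeval_eq_sum_range' hdeg, ← hw]
  rfl

/-- automorphisms over `LL` preserve `ML` -/
theorem map_ML {ℓ : ℕ} (h : CycE n c g x z₀ f S y)
    (σ : PLf ℓ (MM k K) ≃ₐ[kbar k K] PLf ℓ (MM k K))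
    (hσ : ∀ l : PLf ℓ (MM k K), (l : UU k K) ∈ LL k K₀ K → σ l = l) :
    ∀ z ∈ ML ℓ (MM k K), σ z ∈ ML ℓ (MM k K) := by
  obtain ⟨ζ, -, hζ⟩ := exists_zetaL h σ hσ
  let T : IntermediateField (kbar k K) (UU k K) :=
    { carrier := {z | ∃ w : PLf ℓ (MM k K), (w : UU k K) = z ∧ σ w ∈ ML ℓ (MM k K)}
      mul_mem' := by
        rintro _ _ ⟨v, rfl, hv⟩ ⟨w, rfl, hw⟩
        exact ⟨v * w, rfl, by rw [map_mul]; exact mul_mem hv hw⟩
      add_mem' := by
        rintro _ _ ⟨v, rfl, hv⟩ ⟨w, rfl, hw⟩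
        exact ⟨v + w, rfl, by rw [map_add]; exact add_mem hv hw⟩
      algebraMap_mem' := fun c => ⟨algebraMap (kbar k K) _ c, rfl, by
        rw [σ.commutes]
        exact (ML ℓ (MM k K)).algebraMap_mem _⟩
      inv_mem' := by
        rintro _ ⟨v, rfl, hv⟩
        exact ⟨v⁻¹, rfl, by rw [map_inv₀]; exact inv_mem hv⟩ }
  have h1 : MM k K ≤ T := by
    rw [h.MM_eq, IntermediateField.adjoin_le_iff]
    rintro z (hz | hz)
    · refine ⟨⟨z, le_PLf ℓ (MM k K) (LL_le_MM hz)⟩, rfl, ?_⟩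
      rw [hσ _ hz]
      exact mem_ML.2 (LL_le_MM hz)
    · rw [Set.mem_singleton_iff.1 hz]
      refine ⟨toL ℓ y, rfl, ?_⟩
      rw [hζ]
      exact mul_mem ((ML ℓ (MM k K)).algebraMap_mem _) (toL_mem y)
  intro z hz
  obtain ⟨w, hw, hw'⟩ := h1 (mem_ML.1 hz)
  have h2 : w = z := Subtype.ext hw
  rwa [h2] at hw'

/-- The uniqueness of the fixed place if there are three branch places. -/
theorem fixed_unique3 {ℓ : ℕ} (h : CycE ℓ c g x z₀ f S y) (hℓ : ℓ.Prime) (h3 : Br3 ℓ K₀ k y)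
    (σ : PLf ℓ (MM k K) ≃ₐ[kbar k K] PLf ℓ (MM k K))
    (hσ : ∀ l : PLf ℓ (MM k K), (l : UU k K) ∈ LL k K₀ K → σ l = l) (hσℓ : σ ^ ℓ = 1)
    (hne : ∃ m ∈ ML ℓ (MM k K), σ m ≠ m)
    {P P' : ValuationSubring (PLf ℓ (MM k K))}
    (hP : ∀ c : kbar k K, algebraMap (kbar k K) (PLf ℓ (MM k K)) c ∈ P) (hP1 : P ≠ ⊤)
    (hPσ : ∀ z, σ z ∈ P ↔ z ∈ P)
    (hP' : ∀ c : kbar k K, algebraMap (kbar k K) (PLf ℓ (MM k K)) c ∈ P') (hP1' : P' ≠ ⊤)
    (hPσ' : ∀ z, σ z ∈ P' ↔ z ∈ P') : P = P' := by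
  have hk0 : CharZero (kbar k K) := charZero_of_injective_algebraMap (algebraMap k (kbar k K)).injective
  have hac : IsAlgClosed (kbar k K) :=
    (inferInstance : IsAlgClosure k (kbar k K)).isAlgClosed
  have hcov : CovL ℓ (ML ℓ (MM k K)) := covL_of_isCover hℓ.pos (isCover_UU h.isFunctionField)
  have hσs : ∀ l : PLf ℓ (MM k K), (l : UU k K) ∈ LL k K₀ K → σ.symm l = l := fun l hl => by
    rw [AlgEquiv.symm_apply_eq, hσ l hl]
  have hyne : (toL ℓ y : PLf ℓ (MM k K)) ≠ 0 := by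
    intro h0
    have h1 : toU (k := k) (K := K) y = 0 := congrArg Subtype.val h0
    rw [map_eq_zero] at h1
    exact h.y_ne_C5 h1
  have hyℓ : (toL ℓ y : PLf ℓ (MM k K)) ^ ℓ ∈ ML ℓ (MM k K) := pow_mem (toL_mem y) ℓ
  obtain ⟨ζ, hζ, hζy⟩ := exists_zetaL h σ hσ
  obtain ⟨Q, hQc, hQy, hQd⟩ := h3
  let F : Subfield (PLf ℓ (MM k K)) := (LL k K₀ K).toSubfield.comap (algebraMap (PLf ℓ (MM k K)) (UU k K))
  have hF : ∀ u, u ∈ F ↔ (u : UU k K) ∈ LL k K₀ K := fun u => Iff.rfl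
  have hyF : (toL ℓ y : PLf ℓ (MM k K)) ^ ℓ ∈ F := by
    rw [hF]
    have hcU : algebraMap (kbar k K) (UU k K) (algebraMap k (kbar k K) c) ≠ 0 := by
      rw [Ne, map_eq_zero, map_eq_zero]; exact h.c_ne
    have h2 : (toU (k := k) (K := K) y) ^ ℓ =
        (algebraMap (kbar k K) (UU k K) (algebraMap k (kbar k K) c))⁻¹ *
        toU (k := k) (K := K) (algebraMap K₀ K g) := by
      rw [← h.eqU, inv_mul_cancel_left₀ hcU]
    change (toU (k := k) (K := K) y) ^ ℓ ∈ LL k K₀ K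
    rw [h2]
    exact mul_mem (inv_mem ((LL k K₀ K).algebraMap_mem _)) (toU_mem_LL g)
  have hval : ∀ i, ∀ z ∈ ML ℓ (MM k K), (Q i).valuation (σ z) = (Q i).valuation z := by
    intro i z hz
    obtain ⟨u, hu, hzu⟩ := exists_repr h (mem_ML.1 hz)
    let u' : ℕ → PLf ℓ (MM k K) := fun j => ⟨u j, le_PLf ℓ (MM k K) (LL_le_MM (hu j))⟩
    refine val_aut_eq (Q i).valuation hℓ F hyne hyF (fun u hu => hQy i u hu)
      (σ : PLf ℓ (MM k K) →+* PLf ℓ (MM k K)) (fun u hu => hσ u hu)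
      (ζ := algebraMap (kbar k K) (PLf ℓ (MM k K)) ζ) ?_ hζy (x := z) u' (fun j => hu j) ?_
    · apply le_antisymm
      · exact ((Q i).valuation_le_one_iff _).2 (hQc i ζ)
      · have h1 := ((Q i).valuation_le_one_iff _).2 (hQc i ζ⁻¹)
        have hζ0 : (Q i).valuation (algebraMap (kbar k K) (PLf ℓ (MM k K)) ζ) ≠ 0 := by
          rw [Valuation.ne_zero_iff, Ne, map_eq_zero]
          rintro rfl
          rw [zero_pow hℓ.ne_zero] at hζ
          exact zero_ne_one hζ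
        rw [map_inv₀, map_inv₀] at h1
        exact (inv_le_one₀ (zero_lt_iff.2 hζ0)).1 h1
    · apply Subtype.ext
      rw [hzu]
      have h1 : ((∑ j ∈ Finset.range ℓ, u' j * (toL ℓ y : PLf ℓ (MM k K)) ^ j :
          PLf ℓ (MM k K)) : UU k K) =
          ∑ j ∈ Finset.range ℓ, ((u' j * (toL ℓ y : PLf ℓ (MM k K)) ^ j : PLf ℓ (MM k K)) : UU k K) :=
        map_sum (algebraMap (PLf ℓ (MM k K)) (UU k K)) _ _
      rw [h1]
      rfl
  have hnt : ∀ i, ∃ z : ML ℓ (MM k K), (z : PLf ℓ (MM k K)) ∉ Q i := by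
    intro i
    by_contra hcon
    push Not at hcon
    refine hQy i 1 ((hF 1).1 F.one_mem) ?_
    rw [map_one]
    apply le_antisymm
    · exact ((Q i).valuation_le_one_iff _).2 (hcon ⟨_, toL_mem y⟩)
    · have h1 := ((Q i).valuation_le_one_iff _).2 (hcon ⟨_, inv_mem (toL_mem y)⟩)
      rw [map_inv₀] at h1
      exact (inv_le_one₀ (zero_lt_iff.2 ((Valuation.ne_zero_iff _).2 hyne))).1 h1
  let R : Fin 3 → Place (kbar k K) (ML ℓ (MM k K)) := fun i =>
    ⟨(Q i).comap (algebraMap (ML ℓ (MM k K)) (PLf ℓ (MM k K))), fun c => hQc i c, fun htop => by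
      obtain ⟨z, hz⟩ := hnt i
      apply hz
      have h1 : z ∈ (Q i).comap (algebraMap (ML ℓ (MM k K)) (PLf ℓ (MM k K))) := by
        rw [htop]
        trivial
      exact h1⟩
  have hR : ∀ i (z : ML ℓ (MM k K)), z ∈ (R i).ring ↔ (z : PLf ℓ (MM k K)) ∈ Q i :=
    fun i z => Iff.rfl
  refine fixed_uniqueL (ML ℓ (MM k K)) hcov (fun N hN => FF.picDiv hN) hℓ σ (fun z => ?_) hσℓ hne
    ⟨R, ?_, ?_⟩ hP hP1 hPσ hP' hP1' hPσ'
  · refine ⟨map_ML h σ hσ z, fun hz => ?_⟩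
    have h1 := map_ML h σ.symm hσs _ hz
    rwa [AlgEquiv.symm_apply_apply] at h1
  · intro i j hij
    by_contra hne
    obtain ⟨u, hu, hu'⟩ := hQd i j hne
    apply hu'
    have h1 := hR i ⟨u, mem_ML.2 (LL_le_MM hu)⟩
    have h2 := hR j ⟨u, mem_ML.2 (LL_le_MM hu)⟩
    rw [← hij] at h2
    exact h1.symm.trans h2
  · intro i a b hab
    rw [hR, hR, hab, ← (Q i).valuation_le_one_iff, ← (Q i).valuation_le_one_iff, hval i a a.2]

end Pool.Agent.GCL
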