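import Pool.Agent.Helper45.FF.PR.G4
import Pool.Agent.Helper45.FF.PR.G5
import Pool.Agent.Helper45.FF.PR.E2
import Pool.Agent.Helper13.TW.FP2

/-!
# Project FF, PRO: block LP, good places and the bad place for actions on the maximal pro-`ℓ` extension
-/

universe u

set_option autoImplicit false
set_option linter.unusedSectionVars false

namespace Pool.Agent.GCL

open VC Polynomial Pool.Agent.LT Pool.Agent.SC Pool.Agent.Helper91.Sect Pool.Agent Pool.Agent.GC

section base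

variable {k K₀ K : Type u} [Field k] [CharZero k] [Field K₀] [Field K] [Algebra k K₀]
  [Algebra k K] [Algebra K₀ K] [IsScalarTower k K₀ K]
  {n : ℕ} {c : k} {g x z₀ : K₀} {f : k[X]} {S : Finset k} {y : K} {ℓ : ℕ}

theorem val_one_of_memL {F : Type*} [Field F] {P : ValuationSubring F} {z : F} (h1 : z ∈ P)
    (h2 : z⁻¹ ∈ P) (h0 : z ≠ 0) : P.valuation z = 1 := by
  have h3 := (P.valuation_le_one_iff _).2 h1
  have h4 := (P.valuation_le_one_iff _).2 h2
  rw [map_inv₀] at h4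
  exact le_antisymm h3 ((inv_le_one₀ (zero_lt_iff.2 ((Valuation.ne_zero_iff _).2 h0))).1 h4)

theorem toL_ne (h : CycE n c g x z₀ f S y) : (toL ℓ y : PLf ℓ (MM k K)) ≠ 0 := by
  intro h0
  have h1 : toU (k := k) (K := K) y = 0 := congrArg Subtype.val h0
  rw [map_eq_zero] at h1
  exact h.y_ne_C5 h1

/-- A place `P` fixed by a nontrivial automorphism over the compositum: `y` has not the value of an element of the
compositum. -/
theorem val_ne_of_fixedL (hℓ : 0 < ℓ) (h : CycE n c g x z₀ f S y)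
    {P : ValuationSubring (PLf ℓ (MM k K))}
    (hPK : ∀ c : kbar k K, algebraMap (kbar k K) (PLf ℓ (MM k K)) c ∈ P)
    (hP1 : P ≠ ⊤) {σ : PLf ℓ (MM k K) ≃ₐ[kbar k K] PLf ℓ (MM k K)}
    (hσL : ∀ l : PLf ℓ (MM k K), (l : UU k K) ∈ LL k K₀ K → σ l = l)
    (hσM : ∃ m ∈ ML ℓ (MM k K), σ m ≠ m) (hPσ : ∀ z, σ z ∈ P ↔ z ∈ P) {u : PLf ℓ (MM k K)}
    (hu : (u : UU k K) ∈ LL k K₀ K) : P.valuation (toL ℓ y) ≠ P.valuation u := by
  intro heq
  have hac : IsAlgClosed (kbar k K) :=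
    (inferInstance : IsAlgClosure k (kbar k K)).isAlgClosed
  have hk0 : CharZero (kbar k K) := charZero_of_injective_algebraMap (algebraMap k (kbar k K)).injective
  have hy0 := toL_ne (ℓ := ℓ) h
  have hu0 : u ≠ 0 := by
    rintro rfl
    rw [map_zero, Valuation.zero_iff] at heq
    exact hy0 heq
  obtain ⟨ζ, -, hζ⟩ := exists_zetaL h σ hσL
  have hζ1 : ζ ≠ 1 := by
    rintro rfl
    rw [map_one, one_mul] at hζ
    obtain ⟨m, hm, hm'⟩ := hσM
    exact hm' (fixML h σ hσL hζ m hm)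
  have hval : P.valuation (toL ℓ y / u) = 1 := by
    rw [map_div₀, heq]
    exact div_self ((Valuation.ne_zero_iff _).2 hu0)
  have hcov : CovL ℓ (ML ℓ (MM k K)) := covL_of_isCover hℓ (isCover_UU h.isFunctionField)
  have hgal := hcov.gal
  refine not_unit_of_fixed (E := kbar k K) (R := P) (σ := σ) (v := toL ℓ y / u)
    (ξ := ζ) ?_ hPK ?_ ?_ hζ1 ?_ ?_ ?_
  · intro c x
    rw [map_add, σ.commutes]
  · intro z hz
    exact exists_const_residue_abs (M := ML ℓ (MM k K)) hcov.ff hPK hP1 hz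
  · intro z hz
    rw [ValuationSubring.mem_nonunits_iff_or] at hz ⊢
    rw [← map_inv₀, hPσ, map_eq_zero_iff σ σ.injective]
    exact hz
  · rw [map_div₀, hσL u hu, hζ, mul_div_assoc]
  · rw [← P.valuation_le_one_iff, hval]
  · rw [ValuationSubring.mem_nonunits_iff, hval]
    exact lt_irrefl _

/-- A place at which `g` is no unit lies above a root of `f` or above infinity. -/
theorem above_of_val_neL (hℓ : 0 < ℓ) (h : CycE n c g x z₀ f S y)
    {P : ValuationSubring (PLf ℓ (MM k K))}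
    (hPK : ∀ c : kbar k K, algebraMap (kbar k K) (PLf ℓ (MM k K)) c ∈ P)
    (hg : P.valuation (toL (k := k) ℓ (algebraMap K₀ K g)) ≠ 1) :
    toL (k := k) ℓ (algebraMap K₀ K x) ∉ P ∨
      ∃ b ∈ rootsB K f, toL (k := k) ℓ (algebraMap K₀ K x) -
        algebraMap (kbar k K) (PLf ℓ (MM k K)) b ∈ P.nonunits := by
  classical
  by_contra hcon
  push Not at hcon
  obtain ⟨hx, hB⟩ := hcon
  have hac : IsAlgClosed (kbar k K) :=
    (inferInstance : IsAlgClosure k (kbar k K)).isAlgClosed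
  have hk0 : CharZero (kbar k K) := charZero_of_injective_algebraMap (algebraMap k (kbar k K)).injective
  let iA : Algebra K₀ (PLf ℓ (MM k K)) := (((toU (k := k) (K := K)).codRestrict
    (PLf ℓ (MM k K)).toSubring (fun c => le_PLf ℓ (MM k K) (toU_mem c))).comp
      (algebraMap K₀ K)).toAlgebra
  have hal : ∀ z : K₀, algebraMap K₀ (PLf ℓ (MM k K)) z = toL (k := k) ℓ (algebraMap K₀ K z) :=
    fun _ => rfl
  have hc : ∀ c : k, algebraMap K₀ (PLf ℓ (MM k K)) (algebraMap k K₀ c) =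
      algebraMap (kbar k K) (PLf ℓ (MM k K)) (algebraMap k (kbar k K) c) := by
    intro c
    rw [hal, ← IsScalarTower.algebraMap_apply k K₀ K]
    exact Subtype.ext (F2_toU_algebraMap c)
  have hf0 : f ≠ 0 := by
    rintro rfl
    have := h.deg
    simp at this
  have hcov : CovL ℓ (ML ℓ (MM k K)) := covL_of_isCover hℓ (isCover_UU h.isFunctionField)
  have hgal := hcov.gal
  have hg0 : toL (k := k) ℓ (algebraMap K₀ K g) ≠ 0 := by
    intro h0
    have h1 : toU (k := k) (K := K) (algebraMap K₀ K g) = 0 := congrArg Subtype.val h0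
    rw [map_eq_zero, map_eq_zero] at h1
    exact h.g_ne h1
  have hP1 : P ≠ ⊤ := fun hP => hg (val_one_of_memL (by rw [hP]; trivial) (by rw [hP]; trivial) hg0)
  obtain ⟨b, hb⟩ := exists_const_residue_abs (M := ML ℓ (MM k K)) hcov.ff hPK hP1 hx
  have hb' : toL (k := k) ℓ (algebraMap K₀ K x) -
      algebraMap (kbar k K) (PLf ℓ (MM k K)) b ∈ P.nonunits :=
    (ValuationSubring.mem_nonunits_iff P).2 hb
  have hfb : aeval b f ≠ 0 := fun h0 => hB b ((mem_rootsB hf0).2 h0) hb'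
  have hfx : algebraMap K₀ (PLf ℓ (MM k K)) (aeval x f) ∉ P.nonunits := by
    intro hfx
    have e1 : algebraMap K₀ (PLf ℓ (MM k K)) (aeval x f) = aeval (toL (k := k) ℓ (algebraMap K₀ K x))
        (f.map (algebraMap k (kbar k K))) := by
      rw [aeval_def, hom_eval₂, ← hal, aeval_def, eval₂_map]
      congr 1
      apply RingHom.ext
      intro c
      exact hc c
    have h1 := TW.aeval_sub_mem P hPK hb' (f.map (algebraMap k (kbar k K)))
    rw [← e1] at h1
    have h2 : algebraMap (kbar k K) (PLf ℓ (MM k K)) (eval b (f.map (algebraMap k (kbar k K)))) ∈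
        P.nonunits := by
      rw [ValuationSubring.mem_nonunits_iff] at h1 hfx ⊢
      have h3 := P.valuation.map_sub_lt hfx h1
      rwa [sub_sub_cancel] at h3
    rw [ValuationSubring.mem_nonunits_iff_or, ← map_inv₀] at h2
    rcases h2 with h2 | h2
    · apply hfb
      rw [map_eq_zero, eval_map] at h2
      exact h2
    · exact h2 (hPK _)
  obtain ⟨h1, h2, -, -⟩ := h.good (PLf ℓ (MM k K)) P (fun c _ => by rw [hc]; exact hPK _) hx hfx
  apply hg
  rw [← hal]
  refine le_antisymm ((P.valuation_le_one_iff _).2 h1) ?_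
  rw [ValuationSubring.mem_nonunits_iff, not_lt] at h2
  exact h2

end base

variable {k₁ k K₀ K : Type u} [Field k₁] [CharZero k₁] [Field k] [Field K₀] [Field K]
  [Algebra k₁ k] [Algebra k K₀] [Algebra k K] [Algebra K₀ K] [IsScalarTower k K₀ K]
  [Algebra k₁ K] [IsScalarTower k₁ k K] {ℓ : ℕ}
  {a : Gk k K →* (PLf ℓ (MM k K) ≃+* PLf ℓ (MM k K))}
  {c : k} {g x z₀ : K₀} {f : k[X]} {S : Finset k} {y : K}

/-- At a good place inertia fixes the places at which `g` is no unit. -/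
theorem fixes_of_goodL (h : CycE ℓ c g x z₀ f S y) (hℓ : ℓ.Prime) (A : ActK ℓ a)
    (hF : ∃ S : Finset k₁, Subfield.closure (S : Set k₁) = ⊤)
    (t : k) (hfin : FiniteDimensional (IntermediateField.adjoin k₁ {t}) k)
    {W : ValuationSubring (kbar k K)} (hW : W ≠ ⊤)
    (hk₁ : ∀ c : k₁, algebraMap k₁ (kbar k K) c ∈ W) (hf : GoodRed W f)
    (hS : ∀ c ∈ S, algebraMap k (kbar k K) c ∈ W)
    (hc : algebraMap k (kbar k K) c ∈ W) (hc1 : algebraMap k (kbar k K) c ∉ W.nonunits)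
    {P : ValuationSubring (PLf ℓ (MM k K))}
    (hP : ∀ c : kbar k K, algebraMap (kbar k K) (PLf ℓ (MM k K)) c ∈ P)
    (hP1 : P ≠ ⊤) (hPg : P.valuation (toL (k := k) ℓ (algebraMap K₀ K g)) ≠ 1)
    {τ : Gk k K} (hτ : InInert W τ) (z : PLf ℓ (MM k K)) : a τ z ∈ P ↔ z ∈ P := by
  have hac : IsAlgClosed (algebraicClosure k₁ (kbar k K)) :=
    (inferInstance : IsAlgClosure k₁ (algebraicClosure k₁ (kbar k K))).isAlgClosed
  have hk0 : CharZero k := charZero_of_injective_algebraMap (algebraMap k₁ k).injective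
  obtain ⟨t', hb⟩ := exists_base' (K := K) t hfin hW hk₁
  let iUX : Algebra (UU k K) (XX (algebraMap K₀ K x) (rootsB K f)) := algUX h.UU_le
  have s1 : IsScalarTower (kbar k K) (UU k K) (XX (algebraMap K₀ K x) (rootsB K f)) :=
    IsScalarTower.of_algebraMap_eq fun _ => rfl
  have s2 : IsScalarTower (algebraicClosure k₁ (kbar k K)) (UU k K)
      (XX (algebraMap K₀ K x) (rootsB K f)) := IsScalarTower.of_algebraMap_eq fun _ => rfl
  have s3 : IsScalarTower (kbar k K) (PLf ℓ (MM k K)) (XX (algebraMap K₀ K x) (rootsB K f)) :=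
    IsScalarTower.of_algebraMap_eq fun _ => rfl
  have s4 : IsScalarTower (algebraicClosure k₁ (kbar k K)) (PLf ℓ (MM k K))
      (XX (algebraMap K₀ K x) (rootsB K f)) := IsScalarTower.of_algebraMap_eq fun _ => rfl
  have hu0 : CSetup (algebraicClosure k₁ (kbar k K)) (XX (algebraMap K₀ K x) (rootsB K f)) W t'
    (rootsB K f) (toU (k := k) (K := K) (algebraMap K₀ K x)) (LL k K₀ K) (MM k K) := h.csetup hb hf hk0
  have hu := csetupL hu0 hℓ (exp_MM h) (toL (k := k) ℓ (algebraMap K₀ K x)) rfl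
  obtain ⟨V, hV⟩ := exists_gauss (N := PLf ℓ (MM k K)) hb hu.tr
  have ha := locActL A hF t hfin hW hk₁ (algebraMap K₀ K x)
  have hres := trivialC ha hu hV (τ := τ) hτ (fun z hz hzM =>
    inert_trivialL h hℓ A hb hf hS hc hc1 hV hτ hz hzM)
  obtain ⟨σ', hσ', -⟩ := exists_extXL h hk0 A τ
  exact hu.fixes_place hV (a τ) σ' (fun z => Subtype.ext (hσ' z)) (phi k K τ)
    (A.const τ) (fun c => hτ.1 c) (fun c hc => hτ.2 c hc)
    (A.base τ _) hres (fun b hb => phi_rootsB τ hb) hP hP1 (above_of_val_neL hℓ.pos h hP hPg) z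

/-- At a bad place there is a branch place stable under the decomposition group. -/
theorem place_of_badL (h : CycE ℓ c g x z₀ f S y) (hℓ : ℓ.Prime) (A : ActK ℓ a)
    (h3 : Br3 ℓ K₀ k y)
    (hF : ∃ S : Finset k₁, Subfield.closure (S : Set k₁) = ⊤)
    (t : k) (hfin : FiniteDimensional (IntermediateField.adjoin k₁ {t}) k)
    {W : ValuationSubring (kbar k K)} (hW : W ≠ ⊤)
    (hk₁ : ∀ c : k₁, algebraMap k₁ (kbar k K) c ∈ W) (hf : GoodRed W f)
    (hS : ∀ c ∈ S, algebraMap k (kbar k K) c ∈ W)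
    {ϖ c₁ : k} {j : ℕ} (hϖ : algebraMap k (kbar k K) ϖ ∈ W.nonunits) (hϖ0 : ϖ ≠ 0)
    (hdisc : ∀ z : k, z ≠ 0 → ∃ i : ℤ, W.valuation (algebraMap k (kbar k K) z) =
      W.valuation (algebraMap k (kbar k K) ϖ) ^ i)
    (hcj : c = ϖ ^ j * c₁) (hj : ¬ ℓ ∣ j) (hc₁ : algebraMap k (kbar k K) c₁ ∈ W)
    (hc₁u : algebraMap k (kbar k K) c₁ ∉ W.nonunits) :
    ∃ P : ValuationSubring (PLf ℓ (MM k K)),
      (∀ c : kbar k K, algebraMap (kbar k K) (PLf ℓ (MM k K)) c ∈ P) ∧
      P ≠ ⊤ ∧ (∀ γ : Gk k K, InDecomp W γ → ∀ z, a γ z ∈ P ↔ z ∈ P) ∧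
      ∀ u : PLf ℓ (MM k K), (u : UU k K) ∈ LL k K₀ K →
        P.valuation (toL ℓ y) ≠ P.valuation u := by
  have hac : IsAlgClosed (algebraicClosure k₁ (kbar k K)) :=
    (inferInstance : IsAlgClosure k₁ (algebraicClosure k₁ (kbar k K))).isAlgClosed
  have hk0 : CharZero k := charZero_of_injective_algebraMap (algebraMap k₁ k).injective
  obtain ⟨t', hb⟩ := exists_base' (K := K) t hfin hW hk₁
  let iUX : Algebra (UU k K) (XX (algebraMap K₀ K x) (rootsB K f)) := algUX h.UU_le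
  have s1 : IsScalarTower (kbar k K) (UU k K) (XX (algebraMap K₀ K x) (rootsB K f)) :=
    IsScalarTower.of_algebraMap_eq fun _ => rfl
  have s2 : IsScalarTower (algebraicClosure k₁ (kbar k K)) (UU k K)
      (XX (algebraMap K₀ K x) (rootsB K f)) := IsScalarTower.of_algebraMap_eq fun _ => rfl
  have s3 : IsScalarTower (kbar k K) (PLf ℓ (MM k K)) (XX (algebraMap K₀ K x) (rootsB K f)) :=
    IsScalarTower.of_algebraMap_eq fun _ => rfl
  have s4 : IsScalarTower (algebraicClosure k₁ (kbar k K)) (PLf ℓ (MM k K))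
      (XX (algebraMap K₀ K x) (rootsB K f)) := IsScalarTower.of_algebraMap_eq fun _ => rfl
  have hu0 : CSetup (algebraicClosure k₁ (kbar k K)) (XX (algebraMap K₀ K x) (rootsB K f)) W t'
    (rootsB K f) (toU (k := k) (K := K) (algebraMap K₀ K x)) (LL k K₀ K) (MM k K) := h.csetup hb hf hk0
  have hu := csetupL hu0 hℓ (exp_MM h) (toL (k := k) ℓ (algebraMap K₀ K x)) rfl
  obtain ⟨V, hV⟩ := exists_gauss (N := PLf ℓ (MM k K)) hb hu.tr
  have ha := locActL A hF t hfin hW hk₁ (algebraMap K₀ K x)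
  obtain ⟨τ, hτ, z, hzV, hzM, hz⟩ :=
    inert_nontrivialL h A hb hf hS hϖ hϖ0 hdisc hcj hj hc₁ hc₁u hV
  obtain ⟨P, h1, h2, h4, -, σ, hσL, -, hσM, hσP⟩ := exists_placeC ha hu hV
    (fun τ hτ z hz hzL => inert_trivial_LLL h A hb hf hS hV hτ hz (mem_LL'.1 hzL))
    ⟨τ, hτ, z, hzV, hzM, hz⟩
    (fun g hgL hg hne P P' hP hP1 hPg hP' hP1' hPg' =>
      fixed_unique3 h hℓ h3 g (fun l hl => hgL l (mem_LL'.2 hl)) hg hne hP hP1 hPg hP' hP1' hPg')
  exact ⟨P, h1, h2, h4, fun u hu => val_ne_of_fixedL hℓ.pos h h1 h2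
    (fun l hl => hσL l (mem_LL'.2 hl)) hσM hσP hu⟩

end Pool.Agent.GCL

namespace Pool.Agent.FFS

/-- **Block LP.** -/
theorem stmtLP : StmtLP := by
  intro k₁ k K₀ K _ _ _ _ _ _ _ _ _ _ _ _ ℓ c g x z₀ f S y hℓ h a A hF t hfin W hW hk₁ hf hS
  refine ⟨fun h3 ϖ c₁ j h1 h2 h4 h5 h6 h7 h8 => ?_, fun hc hc1 P hP hP1 hPg τ hτ z => ?_⟩
  · exact GCL.place_of_badL h hℓ A h3 hF t hfin hW hk₁ hf hS h1 h2 h4 h5 h6 h7 h8
  · exact GCL.fixes_of_goodL h hℓ A hF t hfin hW hk₁ hf hS hc hc1 hP hP1 hPg hτ z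

end Pool.Agent.FFS
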