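import Pool.Agent.Helper45.FF.PR.G6

/-!
# Project FF, PRO: uniqueness of the place above zeros and poles of `g` fixed by the decomposition group
-/

universe u

set_option autoImplicit false
set_option linter.unusedSectionVars false

namespace Pool.Agent.GCL

open VC Polynomial Pool.Agent.LT Pool.Agent.SC Pool.Agent.Helper91.Sect Pool.Agent Pool.Agent.GC

section abs

variable {E K X U Γ : Type u} [Field E] [IsAlgClosed E] [CharZero E] [Field K] [IsAlgClosed K]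
  [Algebra E K] [Field X] [Algebra K X] [Algebra E X] [IsScalarTower E K X] [Field U]
  [Algebra K U] [Algebra E U] [IsScalarTower E K U] [Algebra U X] [IsScalarTower K U X]
  [IsScalarTower E U X]
  {O : ValuationSubring K} {t : K} {x : U} {B : Finset K} {L M : IntermediateField K U}
  {V : ValuationSubring U} {ℓ : ℕ}

/-- If `α` and `g` agree on the residue field of `V`, `g` over `K(x)`, then `α` and `g` act in the same
way on the places above `B` and infinity. -/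
theorem fixed_of_congr (h : CSetupL ℓ E X O t B x L M) (hV : Gauss E O x V) (α : U ≃+* U)
    (α' : X ≃+* X) (hα' : ∀ z : U, α' (algebraMap U X z) = algebraMap U X (α z))
    (φ : K ≃+* K) (hα : ∀ c, α (algebraMap K U c) = algebraMap K U (φ c))
    (hφ : ∀ c, φ c ∈ O ↔ c ∈ O) (hφ1 : ∀ c ∈ O, φ c - c ∈ O.nonunits) (hx : α x = x)
    (hB : ∀ b ∈ B, φ b ∈ B) (g : U ≃ₐ[K] U) (hgx : g x = x)
    (hg : ∀ z ∈ V, V.valuation (g z - α z) < 1)
    {P : ValuationSubring U} (hP : ∀ c : K, algebraMap K U c ∈ P) (hP1 : P ≠ ⊤)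
    (hPB : x ∉ P ∨ ∃ b ∈ B, x - algebraMap K U b ∈ P.nonunits)
    (hPα : ∀ z, α z ∈ P ↔ z ∈ P) (z : U) : g z ∈ P ↔ z ∈ P := by
  have hgal := h.set.gal
  obtain ⟨g', hg'⟩ := ext_autL (X := X) x inferInstance g hgx
  have hgV : ∀ z, g z ∈ V ↔ z ∈ V := fun z =>
    h.stable hV g.toRingEquiv (RingEquiv.refl K) (fun c => g.commutes c) (fun _ => Iff.rfl) hgx z
  have hgV' : ∀ z, g.symm z ∈ V ↔ z ∈ V := fun z => by
    rw [← hgV (g.symm z), AlgEquiv.apply_symm_apply]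
  let σ : U ≃+* U := α.trans (g.symm : U ≃+* U)
  let σ' : X ≃+* X := α'.trans (g'.symm : X ≃+* X)
  have hσ : ∀ z, σ z = g.symm (α z) := fun z => rfl
  have key := h.fixes_place hV σ σ' (fun z => by
      change g'.symm (α' (algebraMap U X z)) = algebraMap U X (g.symm (α z))
      rw [hα', AlgEquiv.symm_apply_eq, hg', AlgEquiv.apply_symm_apply]) φ (fun c => by
      rw [hσ, hα, AlgEquiv.commutes]) hφ hφ1 (by
      rw [hσ, hx, AlgEquiv.symm_apply_eq, hgx]) (fun z hz => by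
      have h1 : g.symm (α z) - z = g.symm (α z - g z) := by
        rw [map_sub, AlgEquiv.symm_apply_apply]
      rw [hσ, h1]
      have h2 : α z - g z ∈ V.nonunits := by
        rw [ValuationSubring.mem_nonunits_iff, Valuation.map_sub_swap]
        exact hg z hz
      rw [ValuationSubring.mem_nonunits_iff_or] at h2 ⊢
      rw [← map_inv₀, hgV', map_eq_zero_iff g.symm g.symm.injective]
      exact h2) hB hP hP1 hPB
  have h3 := key (α.symm (g z))
  rw [hσ, RingEquiv.apply_symm_apply, AlgEquiv.symm_apply_apply] at h3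
  rw [h3, ← hPα (α.symm (g z)), RingEquiv.apply_symm_apply]

end abs

variable {k₁ k K₀ K : Type u} [Field k₁] [CharZero k₁] [Field k] [Field K₀] [Field K]
  [Algebra k₁ k] [Algebra k K₀] [Algebra k K] [Algebra K₀ K] [IsScalarTower k K₀ K]
  [Algebra k₁ K] [IsScalarTower k₁ k K] {ℓ : ℕ}
  {a : Gk k K →* (PLf ℓ (MM k K) ≃+* PLf ℓ (MM k K))}
  {c : k} {g x z₀ : K₀} {f : k[X]} {S : Finset k} {y : K}

/-- At a bad place there is at most one place above zeros and poles of `g` stable under the inertia group. -/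
theorem unique_of_badL (h : CycE ℓ c g x z₀ f S y) (hℓ : ℓ.Prime) (A : ActK ℓ a)
    (h3 : Br3 ℓ K₀ k y)
    (hF : ∃ S : Finset k₁, Subfield.closure (S : Set k₁) = ⊤)
    (t : k) (hfin : FiniteDimensional (IntermediateField.adjoin k₁ {t}) k)
    {W : ValuationSubring (kbar k K)} (hW : W ≠ ⊤)
    (hk₁ : ∀ c : k₁, algebraMap k₁ (kbar k K) c ∈ W) (hf : GoodRed W f)
    (hS : ∀ c ∈ S, algebraMap k (kbar k K) c ∈ W)
    {ϖ c₁ : k} {j : ℕ} (hϖ : algebraMap k (kbar k K) ϖ ∈ W.nonunits) (hϖ0 : ϖ ≠ 0)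
    (hdisc : ∀ z : k, z ≠ 0 → ∃ i : ℤ, W.valuation (algebraMap k (kbar k K) z) =
      W.valuation (algebraMap k (kbar k K) ϖ) ^ i)
    (hcj : c = ϖ ^ j * c₁) (hj : ¬ ℓ ∣ j) (hc₁ : algebraMap k (kbar k K) c₁ ∈ W)
    (hc₁u : algebraMap k (kbar k K) c₁ ∉ W.nonunits)
    {P P' : ValuationSubring (PLf ℓ (MM k K))}
    (hP : ∀ c : kbar k K, algebraMap (kbar k K) (PLf ℓ (MM k K)) c ∈ P)
    (hPg : P.valuation (toL (k := k) ℓ (algebraMap K₀ K g)) ≠ 1)
    (hPs : ∀ γ : Gk k K, InInert W γ → ∀ z, a γ z ∈ P ↔ z ∈ P)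
    (hP' : ∀ c : kbar k K, algebraMap (kbar k K) (PLf ℓ (MM k K)) c ∈ P')
    (hPg' : P'.valuation (toL (k := k) ℓ (algebraMap K₀ K g)) ≠ 1)
    (hPs' : ∀ γ : Gk k K, InInert W γ → ∀ z, a γ z ∈ P' ↔ z ∈ P') : P = P' := by
  have hac : IsAlgClosed (algebraicClosure k₁ (kbar k K)) :=
    (inferInstance : IsAlgClosure k₁ (algebraicClosure k₁ (kbar k K))).isAlgClosed
  have hk0 : CharZero k := charZero_of_injective_algebraMap (algebraMap k₁ k).injective
  obtain ⟨t', hb⟩ := exists_base' (K := K) t hfin hW hk₁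
  let iUX : Algebra (UU k K) (XX (algebraMap K₀ K x) (rootsB K f)) := algUX h.UU_le
  have s1 : IsScalarTower (kbar k K) (UU k K) (XX (algebraMap K₀ K x) (rootsB K f)) :=
    IsScalarTower.of_algebraMap_eq fun _ => rfl
  have s2 : IsScalarTower (algebraicClosure k₁ (kbar k K)) (UU k K)
      (XX (algebraMap K₀ K x) (rootsB K f)) := IsScalarTower.of_algebraMap_eq fun _ => rfl
  have s3 : IsScalarTower (kbar k K) (PLf ℓ (MM k K)) (XX (algebraMap K₀ K x) (rootsB K f)) :=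
    IsScalarTower.of_algebraMap_eq fun _ => rfl
  have s4 : IsScalarTower (algebraicClosure k₁ (kbar k K)) (PLf ℓ (MM k K))
      (XX (algebraMap K₀ K x) (rootsB K f)) := IsScalarTower.of_algebraMap_eq fun _ => rfl
  have hu0 : CSetup (algebraicClosure k₁ (kbar k K)) (XX (algebraMap K₀ K x) (rootsB K f)) W t'
    (rootsB K f) (toU (k := k) (K := K) (algebraMap K₀ K x)) (LL k K₀ K) (MM k K) := h.csetup hb hf hk0
  have hu := csetupL hu0 hℓ (exp_MM h) (toL (k := k) ℓ (algebraMap K₀ K x)) rfl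
  obtain ⟨V, hV⟩ := exists_gauss (N := PLf ℓ (MM k K)) hb hu.tr
  have ha := locActL A hF t hfin hW hk₁ (algebraMap K₀ K x)
  obtain ⟨τ₀, hτ₀, z, hzV, hzM, hz⟩ :=
    inert_nontrivialL h A hb hf hS hϖ hϖ0 hdisc hcj hj hc₁ hc₁u hV
  obtain ⟨τ, σ, hτ, hσL, hσ, hσord, hσM⟩ := exists_prime38 ha hu hV
    (fun τ hτ z hz hzL => inert_trivial_LLL h A hb hf hS hV hτ hz (mem_LL'.1 hzL))
    ⟨τ₀, hτ₀, z, hzV, hzM, hz⟩
  have hg0 : toL (k := k) ℓ (algebraMap K₀ K g) ≠ 0 := by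
    intro h0
    have h1 : toU (k := k) (K := K) (algebraMap K₀ K g) = 0 := congrArg Subtype.val h0
    rw [map_eq_zero, map_eq_zero] at h1
    exact h.g_ne h1
  have htop : ∀ Q : ValuationSubring (PLf ℓ (MM k K)),
      Q.valuation (toL (k := k) ℓ (algebraMap K₀ K g)) ≠ 1 → Q ≠ ⊤ := fun Q hQ hQt =>
    hQ (val_one_of_memL (by rw [hQt]; trivial) (by rw [hQt]; trivial) hg0)
  obtain ⟨σ', hσ', -⟩ := exists_extXL h hk0 A τ
  have key : ∀ Q : ValuationSubring (PLf ℓ (MM k K)),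
      (∀ c : kbar k K, algebraMap (kbar k K) (PLf ℓ (MM k K)) c ∈ Q) →
      Q.valuation (toL (k := k) ℓ (algebraMap K₀ K g)) ≠ 1 →
      (∀ γ : Gk k K, InInert W γ → ∀ z, a γ z ∈ Q ↔ z ∈ Q) → ∀ z, σ z ∈ Q ↔ z ∈ Q := by
    intro Q hQ hQg hQs
    exact fixed_of_congr hu hV (a τ) σ' (fun z => Subtype.ext (hσ' z)) (phi k K τ)
      (A.const τ) (fun c => hτ.1 c) (fun c hc => hτ.2 c hc) (A.base τ _)
      (fun b hb => phi_rootsB τ hb) σ (hσL _ (mem_LL'.2 (toU_mem_LL x))) hσ hQ (htop Q hQg)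
      (above_of_val_neL hℓ.pos h hQ hQg) (hQs τ hτ)
  exact fixed_unique3 h hℓ h3 σ (fun l hl => hσL l (mem_LL'.2 hl))
    (by have h9 := pow_orderOf_eq_one σ; rw [hσord] at h9; exact h9) hσM hP (htop P hPg) (key P hP hPg hPs) hP'
    (htop P' hPg') (key P' hP' hPg' hPs')

end Pool.Agent.GCL
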