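import Pool.Agent.Helper45.FF.PR.G7
import Pool.Agent.Helper20.FF.PR.LOCP

/-!
# Project FF, PRO: uniqueness of the place of `KurL` above zeros and poles of `h` fixed by a section
-/

set_option autoImplicit false
set_option linter.unusedSectionVars false

namespace Pool.Agent.FFS

open VC IntermediateField Polynomial Pool.Agent.SC Pool.Agent.Helper91.Sect
open Pool.Agent.L (L0 MM)
open Pool.Agent.LN (Geo Act GoodCurve)
open Pool.Agent.M (Moves OverPl inL0)
open Pool.Agent.ML (BPl GBr)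
open Pool.Agent.PRG (RatG)
open Pool.Agent.GCL (KurL ProSection toL ActK Br3 PLf)

noncomputable section

/-- `Q` is a place of `KurL` over the constants, above a zero or pole of `h`, and stable under `s`. -/
structure StabP {k K : Type} [Field k] [Field K] [Algebra k K] {ℓ : ℕ} (s : ProSection ℓ k K) (h : K)
    (Q : ValuationSubring (KurL ℓ k K)) : Prop where
  const : ∀ z : KurL ℓ k K, IsAlgebraic k (z : AlgebraicClosure K) → z ∈ Q
  val : Q.valuation (algebraMap K (KurL ℓ k K) h) ≠ 1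
  stable : ∀ (g : Gk k K) (z : KurL ℓ k K), s.toHom g z ∈ Q ↔ z ∈ Q

/-- BLOCK LOCP with uniqueness. -/
def StmtLOCP2 : Prop :=
  ∀ (k₀ K₀ : Type) [Field k₀] [CharZero k₀] [Field K₀] [Algebra k₀ K₀], IsFunctionField k₀ K₀ →
    ∀ (ℓ : ℕ), ℓ.Prime → ∀ h₀ : K₀, h₀ ≠ 0 → ∃ (S : Finset k₀),
      ∀ (F k K0 : Type) [Field F] [Field k] [Field K0] [Algebra F k] [Algebra k K0]
        [Algebra k₀ k] [Algebra K₀ K0] [Algebra k₀ K0] [IsScalarTower k₀ k K0] [IsScalarTower k₀ K₀ K0],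
        (∃ S : Finset F, Subfield.closure (S : Set F) = ⊤) →
        (∃ t : k, FiniteDimensional (IntermediateField.adjoin F {t}) k) →
        IntermediateField.adjoin k (Set.range (algebraMap K₀ K0)) = ⊤ →
        (∃ y : K₀, Transcendental k (algebraMap K₀ K0 y)) →
        GoodCurve k ℓ (algebraMap K₀ K0 h₀) →
        ∃ (E U U' : Type) (_ : Field E) (_ : Field U) (_ : Field U') (_ : Algebra k E)
          (_ : Algebra E U) (_ : Algebra K0 U) (_ : Algebra k U) (_ : IsScalarTower k E U)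
          (_ : IsScalarTower k K0 U) (_ : Algebra E U') (_ : Algebra K0 U') (_ : Algebra k U')
          (_ : IsScalarTower k E U') (_ : IsScalarTower k K0 U')
          (r : U) (i : U' →+* U) (r' : U'), IsAlgClosure k E ∧
          Geo k K0 E U ℓ (algebraMap K₀ K0 h₀) r ∧ IsProU (K0 := K0) (E := E) ℓ r i r' ∧
          ∀ (c : k) (W₀ : ValuationSubring E) (S' : Set k) (B : Set E),
          (∀ a ∈ S, algebraMap k₀ k a ∈ S') → HypC F S' B ℓ c W₀ →
          ∀ (K : Type) [Field K] [Algebra k K] [Algebra K0 K] [IsScalarTower k K0 K]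
          (y : K), algebraMap k K c * y ^ ℓ = algebraMap K0 K (algebraMap K₀ K0 h₀) →
          IntermediateField.adjoin K0 {y} = ⊤ → ∀ s : ProSection ℓ k K,
          ∃ Φ : (E ≃ₐ[k] E) →* (U' ≃+* U'), Act (K0 := K0) ℓ r' c⁻¹ Φ ∧
            ((∃ b : Fin 3 → Place E (L0 E K0 (U := U')), Function.Injective b ∧
              ∀ j, BPl ℓ (algebraMap K₀ K0 h₀) (b j)) →
              LocA F K0 ℓ (algebraMap K₀ K0 h₀) S' c W₀ Φ ∧
              ∀ Q Q' : ValuationSubring (KurL ℓ k K),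
                StabP s (algebraMap K0 K (algebraMap K₀ K0 h₀)) Q →
                StabP s (algebraMap K0 K (algebraMap K₀ K0 h₀)) Q' → Q = Q') ∧
            ∀ (b : Place E (L0 E K0 (U := U'))) (P : ValuationSubring U'), OverU b P →
            (∀ (z : U') (g : E ≃ₐ[k] E), Φ g z ∈ P ↔ z ∈ P) →
            ∀ P₀ : ValuationSubring K0, (∀ x : K0, x ∈ P₀ ↔ inL0 x ∈ b.ring) → AgrP s P₀

/-- A place which agrees with a branch point is above a zero or pole of `h`. -/
theorem exists_stabP {k K0 K : Type} [Field k] [Field K0] [Field K] [Algebra k K0] [Algebra k K]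
    [Algebra K0 K] {ℓ : ℕ} {h : K0} {s : ProSection ℓ k K}
    {b : GBr k (AlgebraicClosure k) ℓ h} (hb : AgrP s b.P) :
    ∃ Q : ValuationSubring (KurL ℓ k K), StabP s (algebraMap K0 K h) Q ∧
      ∀ x : K0, x ∈ b.P ↔ algebraMap K (KurL ℓ k K) (algebraMap K0 K x) ∈ Q := by
  obtain ⟨Q, h1, h2, h3⟩ := hb
  refine ⟨Q, ⟨h1, fun h4 => ?_, h3⟩, h2⟩
  have h0 : h ≠ 0 := by
    rintro rfl
    rw [map_zero, map_zero, map_zero] at h4
    exact zero_ne_one h4
  have h5 : h ∈ b.P := by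
    rw [h2, ← ValuationSubring.valuation_le_one_iff, h4]
  have h6 : h⁻¹ ∈ b.P := by
    rw [h2, ← ValuationSubring.valuation_le_one_iff, map_inv₀, map_inv₀, map_inv₀, h4, inv_one]
  refine b.ram 1 ?_
  rw [map_one, one_pow]
  exact GCL.val_one_of_memL h5 h6 h0

/-- BLOCK MAINP with uniqueness. -/
def StmtMainP2 : Prop :=
  ∀ (F₀ k₀ K₀ : Type) [Field F₀] [CharZero F₀] [Field k₀] [Algebra F₀ k₀] [Field K₀] [Algebra k₀ K₀],
    (∃ S : Finset k₀, Subfield.closure (S : Set k₀) = ⊤) →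
    (∃ t : k₀, FiniteDimensional (IntermediateField.adjoin F₀ {t}) k₀ ∧ Transcendental F₀ t) →
    IsFunctionField k₀ K₀ →
    ∀ (m : ℕ) (w : Fin (m + 1) → k₀) (e : Fin 4 → Fin (m + 1)),
    LinearIndependent (algebraicClosure F₀ k₀) (fun i => w (e i)) →
    ∀ (ℓ : ℕ), ℓ.Prime → ∀ h₀ : K₀, h₀ ≠ 0 →
    ∃ Q : Polynomial (MvPolynomial (Fin (m + 1)) F₀), UT.NoRoot Q ∧
      ∀ (F k K0 : Type) [Field F] [Field k] [Field K0] [Algebra F₀ F] [Algebra F k] [Algebra k₀ k]
        [Algebra F₀ k] [IsScalarTower F₀ F k] [IsScalarTower F₀ k₀ k] [Algebra k K0]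
        [Algebra K₀ K0] [Algebra k₀ K0] [IsScalarTower k₀ k K0] [IsScalarTower k₀ K₀ K0],
        (∃ S : Finset F, Subfield.closure (S : Set F) = ⊤) →
        IntermediateField.adjoin F (Set.range (algebraMap k₀ k)) = ⊤ →
        (∀ {n : ℕ} {x : Fin n → k₀}, AlgebraicIndependent F₀ x →
          AlgebraicIndependent F (algebraMap k₀ k ∘ x)) →
        IntermediateField.adjoin k (Set.range (algebraMap K₀ K0)) = ⊤ →
        (∃ y : K₀, Transcendental k (algebraMap K₀ K0 y)) →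
        GoodCurve k ℓ (algebraMap K₀ K0 h₀) →
        (∃ b : Fin 3 → GBr k (AlgebraicClosure k) ℓ (algebraMap K₀ K0 h₀), Function.Injective b) →
        ∀ a : Fin (m + 1) → F, (∀ x : F, Polynomial.eval₂ (UT.aeR a) x Q ≠ 0) →
        ∀ (K : Type) [Field K] [Algebra k K] [Algebra K0 K] [IsScalarTower k K0 K] (y : K),
        algebraMap k K (∑ e, algebraMap F k (a e) * algebraMap k₀ k (w e)) * y ^ ℓ =
          algebraMap K0 K (algebraMap K₀ K0 h₀) → IntermediateField.adjoin K0 {y} = ⊤ →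
        ∀ s : ProSection ℓ k K, ∃ (b : GBr k (AlgebraicClosure k) ℓ (algebraMap K₀ K0 h₀))
          (Q : ValuationSubring (KurL ℓ k K)), RatG b ∧
          StabP s (algebraMap K0 K (algebraMap K₀ K0 h₀)) Q ∧
          (∀ x : K0, x ∈ b.P ↔ algebraMap K (KurL ℓ k K) (algebraMap K0 K x) ∈ Q) ∧
          ∀ Q' : ValuationSubring (KurL ℓ k K),
            StabP s (algebraMap K0 K (algebraMap K₀ K0 h₀)) Q' → Q' = Q

end

end Pool.Agent.FFS

namespace Pool.Agent.GCL

open VC IntermediateField Polynomial Pool.Agent.SC Pool.Agent.Helper91.Sect Pool.Agent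
open Pool.Agent.L (L0)
open Pool.Agent.LN (Geo Act GoodCurve)
open Pool.Agent.LT (UU toU mem_UU GoodRed goodElts goodRed_of_goodElts)
open Pool.Agent.GC (LL CycE Coord)
open Pool.Agent.M (Moves OverPl inL0)
open Pool.Agent.ML (BPl)
open Pool.Agent.FFS (OverU LocA HypC GoodW IsProU AgrP StmtLP StmtLOCP StmtLOCP2 StabP)
open Pool.Agent.FFL20
open Pool.Agent.FFP20 (IsoP eL aPro PhiP aPro_apply actK_aPro trI exists_isoP act_PhiP br3_20 locP20
  agrP20)

noncomputable section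

/-- At most one place above zeros and poles of `h` is stable under `s`. -/
theorem unique_stab {F k K0 K E : Type} [Field F] [CharZero F] [Field k] [CharZero k]
    [DecidableEq k] [Algebra F k] [Field K0] [Algebra k K0] [Field K]
    [Algebra k K] [Algebra K0 K] [IsScalarTower k K0 K]
    [Field E] [Algebra k E] (e : kbar k K ≃ₐ[k] E) {y : K} {ℓ : ℕ} {c : k} (s : ProSection ℓ k K)
    (hF : ∃ S : Finset F, Subfield.closure (S : Set F) = ⊤) {t : k}
    (hfin : FiniteDimensional (IntermediateField.adjoin F {t}) k) (hℓ : ℓ.Prime)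
    {h x z₀ : K0} {f : k[X]} {S : Finset k} (hS : CycE ℓ c h x z₀ f S y)
    (hbr : Br3 ℓ K0 k y)
    {S' : Set k} (hS' : ∀ a ∈ goodElts f 1 ∪ S, a ∈ S') {B : Set E} {W₀ : ValuationSubring E}
    (H : HypC F S' B ℓ c W₀) (Q Q' : ValuationSubring (KurL ℓ k K))
    (hQ : StabP s (algebraMap K0 K h) Q) (hQ' : StabP s (algebraMap K0 K h) Q') : Q = Q' := by
  let iFK : Algebra F K := ((algebraMap k K).comp (algebraMap F k)).toAlgebra
  have sFK : IsScalarTower F k K := IsScalarTower.of_algebraMap_eq fun _ => rfl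
  have hmem : ∀ (W : ValuationSubring E) (a : k), algebraMap k E a ∈ W →
      algebraMap k (kbar k K) a ∈ W.comap (e : kbar k K →+* E) := by
    intro W a ha
    change e (algebraMap k (kbar k K) a) ∈ W
    rw [e.commutes]
    exact ha
  have hnon : ∀ (W : ValuationSubring E) (a : k),
      algebraMap k (kbar k K) a ∈ (W.comap (e : kbar k K →+* E)).nonunits ↔
        algebraMap k E a ∈ W.nonunits := by
    intro W a
    rw [comap_nonunits20]
    change e (algebraMap k (kbar k K) a) ∈ W.nonunits ↔ _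
    rw [e.commutes]
  have hk₁ : ∀ a : F, algebraMap F (kbar k K) a ∈ W₀.comap (e : kbar k K →+* E) := by
    intro a
    rw [IsScalarTower.algebraMap_apply F k (kbar k K)]
    exact hmem W₀ _ (H.good.const a)
  have hred : GoodRed (W₀.comap (e : kbar k K →+* E)) f := by
    refine (goodRed_of_goodElts (c := 1) (by have := hS.deg; omega) hS.sep one_ne_zero
      (fun a ha => ?_)).1
    exact hmem W₀ a (H.good.mem a (hS' a (Finset.mem_union_left _ ha)))
  have hSW : ∀ a ∈ S, algebraMap k (kbar k K) a ∈ W₀.comap (e : kbar k K →+* E) := fun a ha =>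
    hmem W₀ a (H.good.mem a (hS' a (Finset.mem_union_right _ ha)))
  have hdisc : ∀ z : k, z ≠ 0 → ∃ i : ℤ,
      (W₀.comap (e : kbar k K →+* E)).valuation (algebraMap k (kbar k K) z) =
        (W₀.comap (e : kbar k K →+* E)).valuation (algebraMap k (kbar k K) c) ^ i := by
    intro z hz
    obtain ⟨i, hi⟩ := H.gen z hz
    refine ⟨i, ?_⟩
    have hz' : algebraMap k (kbar k K) z ≠ 0 := (_root_.map_ne_zero _).2 hz
    have hc' : algebraMap k (kbar k K) c ≠ 0 := (_root_.map_ne_zero _).2 H.c0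
    rw [← map_zpow₀, comap_eq_iff20 _ _ hz' (zpow_ne_zero _ hc'), map_zpow₀, map_zpow₀]
    change W₀.valuation (e (algebraMap k (kbar k K) z)) =
      W₀.valuation (e (algebraMap k (kbar k K) c)) ^ i
    rw [e.commutes, e.commutes]
    exact hi
  have hg0 : algebraMap K (KurL ℓ k K) (algebraMap K0 K h) ≠ 0 := by
    intro h0
    rw [map_eq_zero, map_eq_zero] at h0
    exact hS.g_ne h0
  have key : ∀ R : ValuationSubring (KurL ℓ k K), StabP s (algebraMap K0 K h) R →
      (∀ c : kbar k K, algebraMap (kbar k K) (PLf ℓ (LT.MM k K)) c ∈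
        R.comap ((eL k K ℓ).symm : PLf ℓ (LT.MM k K) →+* KurL ℓ k K)) ∧
      (R.comap ((eL k K ℓ).symm : PLf ℓ (LT.MM k K) →+* KurL ℓ k K)).valuation
        (toL (k := k) ℓ (algebraMap K0 K h)) ≠ 1 ∧
      ∀ (γ : Gk k K) (z : PLf ℓ (LT.MM k K)),
        aPro s γ z ∈ R.comap ((eL k K ℓ).symm : PLf ℓ (LT.MM k K) →+* KurL ℓ k K) ↔
        z ∈ R.comap ((eL k K ℓ).symm : PLf ℓ (LT.MM k K) →+* KurL ℓ k K) := by
    intro R hR
    refine ⟨fun c => ?_, ?_, fun γ z => ?_⟩
    · exact hR.const _ (mem_algebraicClosure_iff.1 c.2)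
    · intro h1
      have h2 : toL (k := k) ℓ (algebraMap K0 K h) ≠ 0 := by
        intro h0
        apply hg0
        apply (eL k K ℓ).injective
        rw [map_zero]
        exact h0
      rw [← map_one (R.comap ((eL k K ℓ).symm : PLf ℓ (LT.MM k K) →+* KurL ℓ k K)).valuation,
        comap_eq_iff20 _ _ h2 one_ne_zero, map_one, map_one] at h1
      exact hR.val h1
    · obtain ⟨w, rfl⟩ := (eL k K ℓ).surjective z
      rw [aPro_apply]
      change (eL k K ℓ).symm (eL k K ℓ (s.toHom γ w)) ∈ R ↔ (eL k K ℓ).symm (eL k K ℓ w) ∈ R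
      rw [(eL k K ℓ).symm_apply_apply, (eL k K ℓ).symm_apply_apply]
      exact hR.stable γ w
  obtain ⟨h1, h2, h3⟩ := key Q hQ
  obtain ⟨h1', h2', h3'⟩ := key Q' hQ'
  have h4 := unique_of_badL (k₁ := F) (W := W₀.comap (e : kbar k K →+* E)) (ϖ := c) (c₁ := 1)
    (j := 1) hS hℓ (actK_aPro s) hbr hF t hfin
    (comap_ne_top20 e.surjective H.good.ne) hk₁ hred hSW ((hnon W₀ c).2 H.zero) H.c0 hdisc
    (by rw [pow_one, mul_one]) (fun hd => hℓ.one_lt.ne' (Nat.dvd_one.1 hd))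
    (by rw [map_one]; exact one_mem _)
    (by
      rw [map_one, ValuationSubring.mem_nonunits_iff, map_one]
      exact lt_irrefl _)
    h1 h2 (fun γ _ => h3 γ) h1' h2' (fun γ _ => h3' γ)
  ext z
  have h5 : eL k K ℓ z ∈ Q.comap ((eL k K ℓ).symm : PLf ℓ (LT.MM k K) →+* KurL ℓ k K) ↔
      eL k K ℓ z ∈ Q'.comap ((eL k K ℓ).symm : PLf ℓ (LT.MM k K) →+* KurL ℓ k K) := by rw [h4]
  have h6 : ∀ R : ValuationSubring (KurL ℓ k K),
      eL k K ℓ z ∈ R.comap ((eL k K ℓ).symm : PLf ℓ (LT.MM k K) →+* KurL ℓ k K) ↔ z ∈ R := by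
    intro R
    change (eL k K ℓ).symm (eL k K ℓ z) ∈ R ↔ z ∈ R
    rw [(eL k K ℓ).symm_apply_apply]
  rw [← h6 Q, ← h6 Q']
  exact h5

end

end Pool.Agent.GCL

namespace Pool.Agent.FFP20

open VC IntermediateField Polynomial Pool.Agent.SC Pool.Agent.Helper91.Sect Pool.Agent
open Pool.Agent.L (L0)
open Pool.Agent.LN (Geo Act GoodCurve)
open Pool.Agent.LT (UU toU mem_UU GoodRed goodElts goodRed_of_goodElts)
open Pool.Agent.GC (LL CycE Coord)
open Pool.Agent.M (Moves OverPl inL0)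
open Pool.Agent.ML (BPl)
open Pool.Agent.FFS (OverU LocA HypC GoodW IsProU AgrP StmtLP StmtLOCP StmtLOCP2 StabP)
open Pool.Agent.FFL20
open Pool.Agent.GCL (KurL ProSection PLf ActK toL Br3 unique_stab)

noncomputable section

/-- BLOCK LOCP with uniqueness. -/
theorem stmtLOCP2 (hLP : StmtLP) : StmtLOCP2 := by
  classical
  intro k₀ K₀ _ _ _ _ hK₀ ℓ hℓ h₀ hh₀
  obtain ⟨x, z₀, f, S, hx, hgen, hdeg, hsep, hgood⟩ := GC.exists_goodPoly hK₀ hh₀
  have hc₀ : Coord h₀ x z₀ f S := ⟨hh₀, hK₀, hx, hgen, hdeg, hsep, hgood⟩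
  refine ⟨goodElts f 1 ∪ S, ?_⟩
  intro F k K0 _ _ _ _ _ _ _ _ _ _ hF hfin hgenK htr hg
  have hk : CharZero k := charZero_of_injective_algebraMap (algebraMap k₀ k).injective
  have hF0 : CharZero F := (algebraMap F k).charZero
  have hco := TWU.coord_map (k := k) hc₀ hgenK (TWU.transc_map hK₀ hx htr)
  obtain ⟨t, hfin⟩ := hfin
  obtain ⟨E, U, _, _, _, _, _, _, _, _, r, hcl, G, hiso⟩ :=
    trI k K0 ℓ (algebraMap K₀ K0 h₀) hℓ.two_le hg
  let U' := PLf ℓ (L.MM E K0 r)
  have hK0U : ∀ x : K0, algebraMap K0 U x ∈ PLf ℓ (L.MM E K0 r) := fun x =>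
    GCL.le_PLf ℓ (L.MM E K0 r) (IntermediateField.subset_adjoin _ _ (Or.inl ⟨x, rfl⟩))
  let iK0 : Algebra K0 U' := ((algebraMap K0 U).codRestrict (PLf ℓ (L.MM E K0 r)).toSubring
    hK0U).toAlgebra
  have st1 : IsScalarTower k E U' := inferInstance
  have st2 : IsScalarTower k K0 U' := IsScalarTower.of_algebraMap_eq fun x => by
    apply Subtype.ext
    change algebraMap k U x = algebraMap K0 U (algebraMap k K0 x)
    rw [← IsScalarTower.algebraMap_apply]
  let r' : U' := ⟨r, GCL.le_PLf ℓ (L.MM E K0 r) (IntermediateField.subset_adjoin _ _ (Or.inr rfl))⟩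
  have hr' : r' ^ ℓ = algebraMap K0 U' (algebraMap K₀ K0 h₀) := Subtype.ext G.rpow
  have hP : IsProU (K0 := K0) (E := E) ℓ r (algebraMap U' U) r' :=
    ⟨fun _ => rfl, fun _ => rfl, rfl, fun z => ⟨fun hz => ⟨⟨z, hz⟩, rfl⟩, fun ⟨w, hw⟩ => hw ▸ w.2⟩⟩
  have halgE := G.algE
  have hff : IsFunctionField E (L0 E K0 (U := U')) := L.TR.ff_L0 hg.ff
  have halg : Algebra.IsAlgebraic (L0 E K0 (U := U')) U' := by
    have h0 := G.normal
    have h1 : Algebra.IsAlgebraic K0 U := inferInstance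
    refine ⟨fun z => ?_⟩
    have h2 : IsAlgebraic K0 z := by
      obtain ⟨p, hp, hpz⟩ := h1.isAlgebraic (z : U)
      refine ⟨p, hp, ?_⟩
      apply Subtype.ext
      have h3 := hom_eval₂ p (algebraMap K0 U') (algebraMap U' U) z
      rw [Polynomial.aeval_def]
      change algebraMap U' U _ = 0
      rw [h3]
      exact hpz
    exact isAlgebraic_of_range_le (A := K0)
      (fun a => ⟨⟨_, IntermediateField.subset_adjoin _ _ ⟨a, rfl⟩⟩, rfl⟩) h2
  refine ⟨E, U, U', inferInstance, inferInstance, inferInstance, inferInstance, inferInstance,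
    inferInstance, inferInstance, inferInstance, inferInstance, inferInstance, iK0, inferInstance,
    st1, st2, r, algebraMap U' U, r', hcl, G, hP, ?_⟩
  intro c W₀ S' B hS' H K _ _ _ _ y hy hyK s
  have hE0 : CharZero E := charZero_of_injective_algebraMap (algebraMap k E).injective
  have hy' : y ^ ℓ = algebraMap k K c⁻¹ * algebraMap K0 K (algebraMap K₀ K0 h₀) := by
    rw [← hy, ← mul_assoc, ← map_mul, inv_mul_cancel₀ H.c0, map_one, one_mul]
  obtain ⟨ρ₀, e, T₀⟩ := hiso c⁻¹ (inv_ne_zero H.c0) K y hy' hyK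
  obtain ⟨ρ, T⟩ := exists_isoP T₀ hyK hP
  have hact := actK_aPro s
  refine ⟨PhiP (aPro s) ρ e, act_PhiP T hact, ?_, ?_⟩
  · rintro ⟨b, hb, hbp⟩
    have hS : CycE ℓ c (algebraMap K₀ K0 h₀) (algebraMap K₀ K0 x) (algebraMap K₀ K0 z₀)
        (f.map (algebraMap k₀ k)) (S.image (algebraMap k₀ k)) y :=
      ⟨hℓ.pos, H.c0, hco.g_ne, hco.ff, hco.x_tr, hco.gen₀, hyK, hy, hco.deg, hco.sep, hco.good⟩
    have hbr : Br3 ℓ K0 k y := br3_20 hℓ.ne_zero hco.g_ne hff hr' T hb hbp
    have hgd : ∀ a ∈ goodElts (f.map (algebraMap k₀ k)) 1 ∪ S.image (algebraMap k₀ k), a ∈ S' := by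
      intro a ha
      rcases Finset.mem_union.1 ha with ha | ha
      · obtain ⟨a₀, ha₀, rfl⟩ := Finset.mem_image.1 (TWU.goodElts_map hdeg ha)
        exact hS' a₀ (Finset.mem_union_left _ ha₀)
      · obtain ⟨a₀, ha₀, rfl⟩ := Finset.mem_image.1 ha
        exact hS' a₀ (Finset.mem_union_right _ ha₀)
    exact ⟨locP20 hLP hact hF hfin hℓ T hS hff hr' halg hbr hgd H,
      unique_stab e s hF hfin hℓ hS hbr hgd H⟩
  · intro b P hbP hst P₀ hP₀
    exact agrP20 T s hbP hst hP₀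

end

end Pool.Agent.FFP20
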