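import Pool.Agent.Helper97.FF.MainP
import Pool.Agent.Helper45.FF.PR.H1

/-!
# Project FF: the main theorem for pro-`ℓ` sections with uniqueness, from the blocks
-/

set_option autoImplicit false

namespace Pool.Agent.FFS

open VC IntermediateField Polynomial Pool.Agent.SC Pool.Agent.Helper91.Sect
open Pool.Agent.L (L0 MM)
open Pool.Agent.LN (Geo Act GoodCurve)
open Pool.Agent.M (Moves OverPl inL0)
open Pool.Agent.ML (BPl GBr)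
open Pool.Agent.PRG (RatG)

/-- The main theorem with uniqueness. -/
theorem mainP2_of (hFS : StmtFS) (hKP : StmtKP) (hLOC : StmtLOCP2) (hLEV : StmtLEVP) :
    StmtMainP2 := by
  intro F₀ k₀ K₀ _ _ _ _ _ _ hk₀ ht₀ hK₀ m w e hlin ℓ hℓ h₀ hh₀
  classical
  have hc0 : CharZero k₀ := charZero_of_injective_algebraMap (algebraMap F₀ k₀).injective
  obtain ⟨f, hf, hKP'⟩ := hKP k₀ K₀ hK₀ ℓ hℓ h₀ hh₀
  obtain ⟨S, hLOC'⟩ := hLOC k₀ K₀ hK₀ ℓ hℓ h₀ hh₀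
  obtain ⟨S', hSS', Q, hQ, hFS'⟩ := hFS F₀ k₀ hk₀ ht₀ m w e hlin ℓ hℓ S f hf
  refine ⟨Q, hQ, ?_⟩
  intro F k K0 _ _ _ _ _ _ _ _ _ _ _ _ _ _ hF hgen hfree hgenK htr hG h3 a ha K _ _ _ _ y hy htop s
  obtain ⟨t, htfin, -⟩ := ht₀
  have hkfin := fin_lift97 (F := F) htfin hgen
  obtain ⟨E, U, U', i1, i2, i2', i3, i4, i5, i6, i7, i8, i9, i10, i11, i12, i13, r, i, r', hac, geo,
    hpu, hloc⟩ := hLOC' F k K0 hF ⟨_, hkfin⟩ hgenK htr hG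
  obtain ⟨W₀, hW₀⟩ := hFS' F k E hF hgen (fun {n x} hx => hfree hx) a ha
  obtain ⟨Φ, hΦ, hLA, hTr⟩ := hloc _ W₀ (algebraMap k₀ k '' (S' : Set k₀))
    ((f.map (algebraMap k₀ k)).rootSet E) (fun a ha => ⟨a, hSS' ha, rfl⟩) hW₀ K y hy htop s
  have hck : CharZero k := charZero_of_injective_algebraMap (algebraMap k₀ k).injective
  have hB := hKP' k K0 E U hgenK htr r geo
  obtain ⟨hff, hn, hh0⟩ := proU97 hℓ geo hpu
  obtain ⟨γ, hγ, hP⟩ := gam97g hℓ geo.clE geo.algE hff hn hh0 hΦ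
  let eE : E ≃ₐ[k] AlgebraicClosure k := IsAlgClosure.equiv k E (AlgebraicClosure k)
  obtain ⟨b3, hb3⟩ := h3
  obtain ⟨hLA', huq⟩ := hLA ⟨fun j => (γ.symm (tr97 eE.symm (b3 j))).1, fun j j' hjj => hb3 (tr97_inj eE.symm
    (γ.symm.injective (Subtype.ext hjj))), fun j => (γ.symm _).2⟩
  obtain ⟨b, P, hb, hbP, hfix, hall⟩ := hLEV F k K0 E U U' ℓ _ r i r' hℓ geo hpu _ _ _ _ W₀ hW₀
    (Polynomial.rootSet_finite _ _) (fun g x hx => by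
      rw [Polynomial.mem_rootSet] at hx ⊢
      refine ⟨hx.1, ?_⟩
      have h1 := congrArg g hx.2
      rw [map_zero] at h1
      rw [← h1]
      exact Polynomial.aeval_algHom_apply (g : E →ₐ[k] E) x _) hB Φ hΦ hLA'
  have hag : AgrP s (tr97 eE (γ ⟨b, hb⟩)).P := hTr b P hbP hall _ fun x => (hP ⟨b, hb⟩ x)
  obtain ⟨Q, hQ1, hQ2⟩ := exists_stabP hag
  exact ⟨tr97 eE (γ ⟨b, hb⟩), Q, fun g => tr97_map eE _ (fun g =>
    (hγ g ⟨b, hb⟩ ⟨b, hb⟩).1 (hfix g)) g, hQ1, hQ2, fun Q' hQ' => huq Q' Q hQ' hQ1⟩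

end Pool.Agent.FFS
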